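import Mathlib

/-!
# BR, block GOOD: algebras with generators, dual forms and matrix units of their endomorphisms
-/

set_option autoImplicit false

namespace Pool.Agent.Helper28.BR

open TensorProduct

/-- generators `g`, dual forms `f`, and the endomorphisms `x ↦ f j x • g i` are sums of
multiplications by the generators on both sides -/
def Az (O L : Type) [CommRing O] [Ring L] [Algebra O L] : Prop :=
  ∃ (N : ℕ) (g : Fin N → L) (f : Fin N → L →ₗ[O] O), (∀ x, x = ∑ i, f i x • g i) ∧
    ∀ i j, ∃ t : Fin N → Fin N → O, ∀ x, f j x • g i = ∑ k, ∑ l, t k l • (g k * x * g l)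

/-- the same for an algebra over the fraction field `F` of `O`, with coefficients in `O` -/
structure AzInt (O F B : Type) [CommRing O] [Field F] [Algebra O F] [Ring B] [Algebra F B]
    (N : ℕ) (g : Fin N → B) (f : Fin N → B →ₗ[F] F) : Prop where
  mul : ∀ i j, ∃ c : Fin N → O, g i * g j = ∑ k, algebraMap O F (c k) • g k
  one : ∃ c : Fin N → O, (1 : B) = ∑ k, algebraMap O F (c k) • g k
  rep : ∀ x, x = ∑ i, f i x • g i
  int : ∀ i j, ∃ c : O, f i (g j) = algebraMap O F c
  mat : ∀ i j, ∃ t : Fin N → Fin N → O, ∀ x,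
    f j x • g i = ∑ k, ∑ l, algebraMap O F (t k l) • (g k * x * g l)

/-- the algebra `A` over `K` acts on `F ^ m` -/
def Rep (K : Type) [Field K] (A : Type) [Ring A] [Algebra K A] (F : Type) [Field F] [Algebra K F]
    (m : ℕ) : Prop := Nonempty (A →ₐ[K] Matrix (Fin m) (Fin m) F)

end Pool.Agent.Helper28.BR
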