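import Pool.Agent.Helper28.BR.FinAz
import Pool.Agent.Helper12.BR.Idem

/-!
# BR, block GOOD: final forms
-/

set_option autoImplicit false

namespace Pool.Agent.Helper28.BR

open TensorProduct IsLocalRing NumberField IsDedekindDomain

/-- **GOOD, local form.** -/
theorem good_local {O F B : Type} [CommRing O] [IsDomain O] [IsDiscreteValuationRing O]
    [IsAdicComplete (maximalIdeal O) O] [Finite (ResidueField O)]
    [Field F] [Algebra O F] [IsFractionRing O F] [Ring B] [Algebra F B] {N : ℕ} {g : Fin N → B}
    {f : Fin N → B →ₗ[F] F} (h : AzInt O F B N g f) (m : ℕ) (hm : 0 < m)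
    (hB : Module.finrank F B = m ^ 2) : Nonempty (B →ₐ[F] Matrix (Fin m) (Fin m) F) :=
  good_local_of (fun _ _ _ _ _ e he => Pool.Agent.Helper12.BR.exists_idem_lift e he) h m hm hB

/-- **GOOD at a finite place of a number field.** -/
theorem good_completion {K : Type} [Field K] [NumberField K] (p : HeightOneSpectrum (𝓞 K))
    {B : Type} [Ring B] [Algebra (p.adicCompletion K) B] {N : ℕ} {g : Fin N → B}
    {f : Fin N → B →ₗ[p.adicCompletion K] p.adicCompletion K}
    (h : AzInt (p.adicCompletionIntegers K) (p.adicCompletion K) B N g f) (m : ℕ) (hm : 0 < m)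
    (hB : Module.finrank (p.adicCompletion K) B = m ^ 2) :
    Nonempty (B →ₐ[p.adicCompletion K] Matrix (Fin m) (Fin m) (p.adicCompletion K)) := by
  have hac : IsAdicComplete (maximalIdeal (p.adicCompletionIntegers K))
    (p.adicCompletionIntegers K) := Pool.Agent.Helper65.BR.isAdicComplete p
  have hfin : Finite (ResidueField (p.adicCompletionIntegers K)) :=
    Pool.Agent.Helper65.BR.finite_residueField p
  exact good_local h m hm hB

/-- **GOOD, Azumaya form**: a finite set of elements of `R` such that every specialisation at which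
they are integral at `p` has a representation over the completion at `p` -/
theorem exists_good {R A : Type} [CommRing R] [IsDomain R] [Ring A] [Algebra R A]
    [IsAzumaya R A] (m : ℕ) (hm : 0 < m)
    (hr : Module.finrank (FractionRing R) (FractionRing R ⊗[R] A) = m ^ 2) :
    ∃ G : Finset R, ∀ (M : Type) [Field M] [NumberField M] [Algebra R M]
      (p : HeightOneSpectrum (𝓞 M)),
      (∀ r ∈ G, p.valuation M (algebraMap R M r) ≤ 1) →
      Nonempty ((M ⊗[R] A) →ₐ[M] Matrix (Fin m) (Fin m) (p.adicCompletion M)) :=
  exists_good_of m hm hr fun _ _ _ _ _ _ _ _ _ e he =>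
    Pool.Agent.Helper12.BR.exists_idem_lift e he

end Pool.Agent.Helper28.BR
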