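import Pool.Agent.Helper28.BR.Defs

/-!
# BR, block GOOD: Azumaya algebras and their specialisations
-/

set_option autoImplicit false

namespace Pool.Agent.Helper28.BR

open TensorProduct IsLocalRing

/-- dual bases of a finite projective module -/
theorem exists_dual {R A : Type} [CommRing R] [AddCommGroup A] [Module R A] [Module.Finite R A]
    [Module.Projective R A] : ∃ (N : ℕ) (g : Fin N → A) (f : Fin N → A →ₗ[R] R),
      ∀ x, x = ∑ i, f i x • g i := by
  classical
  obtain ⟨N, π, hπ⟩ := Module.Finite.exists_fin' R A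
  obtain ⟨s, hs⟩ := Module.projective_lifting_property π LinearMap.id hπ
  refine ⟨N, fun i => π (Pi.single i 1), fun i => (LinearMap.proj i).comp s, fun x => ?_⟩
  have h1 : π (s x) = x := congrArg (fun h => h x) hs
  conv_lhs => rw [← h1]
  have h2 : s x = ∑ i, (s x i) • (Pi.single i (1 : R) : Fin N → R) := by
    funext j
    simp [Finset.sum_apply, Pi.single_apply]
  conv_lhs => rw [h2]
  rw [map_sum]
  refine Finset.sum_congr rfl fun i _ => ?_
  rw [map_smul]
  rfl

/-- an Azumaya algebra has the data -/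
theorem az_of_azumaya {R A : Type} [CommRing R] [Ring A] [Algebra R A] [h : IsAzumaya R A] :
    Az R A := by
  obtain ⟨N, g, f, hf⟩ := exists_dual (R := R) (A := A)
  refine ⟨N, g, f, hf, fun i j => ?_⟩
  have key : ∀ z : A ⊗[R] Aᵐᵒᵖ, ∃ t : Fin N → Fin N → R, ∀ x,
      AlgHom.mulLeftRight R A z x = ∑ k, ∑ l, t k l • (g k * x * g l) := by
    intro z
    induction z using TensorProduct.induction_on with
    | zero => exact ⟨0, fun x => by simp⟩
    | add y z hy hz =>
      obtain ⟨t, ht⟩ := hy
      obtain ⟨t', ht'⟩ := hz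
      refine ⟨fun k l => t k l + t' k l, fun x => ?_⟩
      rw [map_add, LinearMap.add_apply, ht, ht', ← Finset.sum_add_distrib]
      refine Finset.sum_congr rfl fun k _ => ?_
      rw [← Finset.sum_add_distrib]
      exact Finset.sum_congr rfl fun l _ => (add_smul _ _ _).symm
    | tmul a b =>
      refine ⟨fun k l => f k a * f l b.unop, fun x => ?_⟩
      rw [AlgHom.mulLeftRight_apply]
      conv_lhs => rw [hf a, hf b.unop]
      rw [Finset.sum_mul, Finset.sum_mul]
      refine Finset.sum_congr rfl fun k _ => ?_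
      rw [Finset.mul_sum]
      refine Finset.sum_congr rfl fun l _ => ?_
      rw [smul_mul_assoc, smul_mul_assoc, mul_smul_comm, smul_smul]
  obtain ⟨z, hz⟩ := h.bij.2 ((LinearMap.toSpanSingleton R A (g i)).comp (f j))
  obtain ⟨t, ht⟩ := key z
  refine ⟨t, fun x => ?_⟩
  rw [← ht x, hz]
  rfl

/-- the specialisation of the data -/
theorem exists_spec {R A : Type} [CommRing R] [Ring A] [Algebra R A] (h : Az R A) :
    ∃ G : Finset R, ∀ (O F : Type) [CommRing O] [Field F] [Algebra O F] [Algebra R F],
      (∀ r ∈ G, ∃ c : O, algebraMap R F r = algebraMap O F c) →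
      ∃ (N : ℕ) (g : Fin N → F ⊗[R] A) (f : Fin N → F ⊗[R] A →ₗ[F] F),
        AzInt O F (F ⊗[R] A) N g f := by
  classical
  obtain ⟨N, g, f, hf, ht⟩ := h
  choose t ht using ht
  refine ⟨(Finset.univ.image fun s : Fin N × Fin N => f s.1 (g s.2)) ∪
    (Finset.univ.image fun s : Fin N × Fin N × Fin N => f s.1 (g s.2.1 * g s.2.2)) ∪
    (Finset.univ.image fun s : Fin N => f s 1) ∪
    (Finset.univ.image fun s : Fin N × Fin N × Fin N × Fin N => t s.1 s.2.1 s.2.2.1 s.2.2.2),
    fun O F _ _ _ _ hG => ?_⟩
  have h1 : ∀ i j, ∃ c : O, algebraMap R F (f i (g j)) = algebraMap O F c := fun i j =>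
    hG _ (Finset.mem_union_left _ (Finset.mem_union_left _ (Finset.mem_union_left _
      (Finset.mem_image.2 ⟨(i, j), Finset.mem_univ _, rfl⟩))))
  have h2 : ∀ i j k, ∃ c : O, algebraMap R F (f k (g i * g j)) = algebraMap O F c := fun i j k =>
    hG _ (Finset.mem_union_left _ (Finset.mem_union_left _ (Finset.mem_union_right _
      (Finset.mem_image.2 ⟨(k, i, j), Finset.mem_univ _, rfl⟩))))
  have h3 : ∀ k, ∃ c : O, algebraMap R F (f k 1) = algebraMap O F c := fun k =>
    hG _ (Finset.mem_union_left _ (Finset.mem_union_right _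
      (Finset.mem_image.2 ⟨k, Finset.mem_univ _, rfl⟩)))
  have h4 : ∀ i j k l, ∃ c : O, algebraMap R F (t i j k l) = algebraMap O F c := fun i j k l =>
    hG _ (Finset.mem_union_right _ (Finset.mem_image.2 ⟨(i, j, k, l), Finset.mem_univ _, rfl⟩))
  have hsm : ∀ (r : R) (a : A), (1 : F) ⊗ₜ[R] (r • a) = algebraMap R F r • ((1 : F) ⊗ₜ[R] a) := by
    intro r a
    rw [TensorProduct.tmul_smul, algebraMap_smul]
  let f' : Fin N → F ⊗[R] A →ₗ[F] F := fun i =>
    (TensorProduct.AlgebraTensorModule.rid R F F).toLinearMap.comp ((f i).baseChange F)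
  have hf' : ∀ i (c : F) (a : A), f' i (c ⊗ₜ[R] a) = algebraMap R F (f i a) * c := by
    intro i c a
    change TensorProduct.AlgebraTensorModule.rid R F F (c ⊗ₜ[R] f i a) = _
    rw [TensorProduct.AlgebraTensorModule.rid_tmul, Algebra.smul_def]
  refine ⟨N, fun i => (1 : F) ⊗ₜ[R] g i, f', ?_, ?_, ?_, ?_, ?_⟩
  · intro i j
    choose c hc using h2 i j
    refine ⟨c, ?_⟩
    rw [Algebra.TensorProduct.tmul_mul_tmul, one_mul, hf (g i * g j), TensorProduct.tmul_sum]
    refine Finset.sum_congr rfl fun k _ => ?_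
    rw [hsm, ← hc]
  · choose c hc using h3
    refine ⟨c, ?_⟩
    rw [Algebra.TensorProduct.one_def]
    conv_lhs => rw [hf (1 : A)]
    rw [TensorProduct.tmul_sum]
    refine Finset.sum_congr rfl fun k _ => ?_
    rw [hsm, hc]
  · intro x
    induction x using TensorProduct.induction_on with
    | zero => simp
    | add y z hy hz =>
      conv_lhs => rw [hy, hz]
      rw [← Finset.sum_add_distrib]
      refine Finset.sum_congr rfl fun i _ => ?_
      rw [map_add, add_smul]
    | tmul c a =>
      conv_lhs => rw [hf a]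
      rw [TensorProduct.tmul_sum]
      refine Finset.sum_congr rfl fun i _ => ?_
      have h5 : c ⊗ₜ[R] g i = c • ((1 : F) ⊗ₜ[R] g i) := by
        rw [TensorProduct.smul_tmul', smul_eq_mul, mul_one]
      rw [hf', TensorProduct.tmul_smul, h5, ← algebraMap_smul F, smul_smul]
  · intro i j
    obtain ⟨c, hc⟩ := h1 i j
    exact ⟨c, by rw [hf', mul_one, hc]⟩
  · intro i j
    choose c hc using h4 i j
    refine ⟨c, fun x => ?_⟩
    induction x using TensorProduct.induction_on with
    | zero => simp
    | add y z hy hz =>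
      rw [map_add, add_smul, hy, hz, ← Finset.sum_add_distrib]
      refine Finset.sum_congr rfl fun k _ => ?_
      rw [← Finset.sum_add_distrib]
      refine Finset.sum_congr rfl fun l _ => ?_
      rw [mul_add, add_mul, smul_add]
    | tmul b a =>
      rw [hf', mul_comm, mul_smul, ← hsm, ht, TensorProduct.tmul_sum, Finset.smul_sum]
      refine Finset.sum_congr rfl fun k _ => ?_
      rw [TensorProduct.tmul_sum, Finset.smul_sum]
      refine Finset.sum_congr rfl fun l _ => ?_
      rw [hsm, hc, Algebra.TensorProduct.tmul_mul_tmul, Algebra.TensorProduct.tmul_mul_tmul,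
        one_mul, mul_one, smul_comm b, TensorProduct.smul_tmul', smul_eq_mul, mul_one]

end Pool.Agent.Helper28.BR
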