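import Pool.Agent.Helper28.BR.Exact

/-!
# Adjusting the prime element
-/

set_option autoImplicit false

universe u w z

namespace Pool.Agent.Helper28.BR

open Pool.Agent.Helper28.EX Pool.Agent.Helper28.QF

section Arith

theorem geom_nat (p m : ℕ) (hp : 1 ≤ p) :
    (∑ i ∈ Finset.range m, p ^ i) * (p - 1) = p ^ m - 1 := by
  obtain ⟨q, rfl⟩ : ∃ q, p = q + 1 := ⟨p - 1, (Nat.sub_add_cancel hp).symm⟩
  rw [Nat.add_sub_cancel]
  have h1 : (∑ i ∈ Finset.range m, (q + 1) ^ i) * q + 1 = (q + 1) ^ m := by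
    induction m with
    | zero => simp
    | succ m ih =>
      rw [Finset.sum_range_succ, add_mul, pow_succ, ← ih]
      ring_nf
  omega

theorem sum_perm {p r m : ℕ} (hp : 1 ≤ p) (hcop : Nat.Coprime r m) (hm : 0 < m) :
    (∑ j ∈ Finset.range m, (p ^ r) ^ j) ≡ (∑ i ∈ Finset.range m, p ^ i) [MOD p ^ m - 1] := by
  classical
  rw [← ZMod.natCast_eq_natCast_iff, Nat.cast_sum, Nat.cast_sum]
  simp only [Nat.cast_pow]
  have hx : (p : ZMod (p ^ m - 1)) ^ m = 1 := by
    have h1 : ((p ^ m - 1 + 1 : ℕ) : ZMod (p ^ m - 1)) = 1 := by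
      rw [Nat.cast_add, ZMod.natCast_self, zero_add, Nat.cast_one]
    have h2 : 1 ≤ p ^ m := pow_pos (show 0 < p from hp) m
    rw [Nat.sub_add_cancel h2, Nat.cast_pow] at h1
    exact h1
  have h2 : ∀ j, ((p : ZMod (p ^ m - 1)) ^ r) ^ j = (p : ZMod (p ^ m - 1)) ^ ((r * j) % m) := by
    intro j
    rw [← pow_mul]
    exact pow_eq_pow_mod _ hx
  simp only [h2]
  have hinj : Set.InjOn (fun j => (r * j) % m) (Finset.range m : Set ℕ) := by
    intro i hi j hj hij
    rw [Finset.coe_range, Set.mem_Iio] at hi hj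
    have h3 : r * i ≡ r * j [MOD m] := hij
    have h4 : i ≡ j [MOD m] := Nat.ModEq.cancel_left_of_coprime hcop.symm h3
    exact Nat.ModEq.eq_of_lt_of_lt h4 hi hj
  have himg : (Finset.range m).image (fun j => (r * j) % m) = Finset.range m := by
    apply Finset.eq_of_subset_of_card_le
    · intro i hi
      rw [Finset.mem_image] at hi
      obtain ⟨j, -, rfl⟩ := hi
      exact Finset.mem_range.2 (Nat.mod_lt _ hm)
    · rw [Finset.card_image_of_injOn hinj]
  have h5 := Finset.sum_image (f := fun i => (p : ZMod (p ^ m - 1)) ^ i) hinj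
  rw [himg] at h5
  exact h5.symm

end Arith

variable {p : ℕ} [hp : Fact p.Prime] {K : Type u} {Γ : Type w} [Field K]
  [LinearOrderedCommGroupWithZero Γ] {v : Valuation K Γ} {t : K}
  {D : Type z} [DivisionRing D] [Algebra K D] [FiniteDimensional K D]

/-- units of `K` are congruent to `p - 1`-st roots of unity -/
theorem unit_pow (hE : Extremal v) [CharP K p] (ht : ZUnif v t) {y : K} (hy : v y = 1) :
    wv v ((algebraMap K D y) ^ (p - 1) - 1) < 1 := by
  have hU := unif_of_zunif p ht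
  obtain ⟨m, hm⟩ := ht.res y hy.le
  have hzm : ((m : ℤ) : K) = zm p K ((m : ℤ) : ZMod p) := (map_intCast _ _).symm
  have hmne : ((m : ℤ) : ZMod p) ≠ 0 := by
    intro h0
    rw [h0, map_zero] at hzm
    rw [hzm, sub_zero, hy] at hm
    exact lt_irrefl _ hm
  have hm1 : ((m : ℤ) : K) ^ (p - 1) = 1 := by
    rw [hzm, ← map_pow, ZMod.pow_card_sub_one_eq_one hmne, map_one]
  have h1 : (1 : D) = (algebraMap K D (m : K)) ^ (p - 1) := by
    rw [← map_pow, hm1, map_one]
  rw [h1]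
  have h2 : wv v (algebraMap K D (m : K)) ≤ 1 := by
    rw [wv_algebraMap, hzm]
    exact pow_le_one₀ zero_le (v_zm_le _)
  refine (wv_pow_sub_le hE hU h2 ?_ _).trans_lt ?_
  · rw [wv_algebraMap, hy, one_pow]
  · rw [← map_sub, wv_algebraMap]
    exact pow_lt_one₀ zero_le hm finrank_ne

omit hp [FiniteDimensional K D] in
theorem iter_zeta {m : ℕ} {ζ : D} (hζ : ζ ^ (p ^ m) = ζ) (k : ℕ) : ζ ^ (p ^ (m * k)) = ζ := by
  induction k with
  | zero => rw [mul_zero, pow_zero, pow_one]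
  | succ k ih => rw [mul_add, mul_one, pow_add, pow_mul, ih, hζ]

/-- the residue of the adjusting factor -/
theorem residue_norm (hE : Extremal v) [CharP K p] (ht : ZUnif v t) {m r : ℕ} (hm : 0 < m)
    (hcop : Nat.Coprime r m) {ζ : D} (hg : GoodGen v p m ζ) (hζ : ζ ^ (p ^ m) = ζ) {c : K}
    (hc : v c = v t) : ∃ k : ℕ,
      wv v (ζ ^ (k * ∑ j ∈ Finset.range m, (p ^ r) ^ j) * algebraMap K D c - algebraMap K D t) <
        wv v (algebraMap K D t) := by
  classical
  have hU := unif_of_zunif p ht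
  have hvt : v t ≠ 0 := (Valuation.ne_zero_iff v).2 ht.t0
  have hp1 : 1 ≤ p := hp.out.pos
  have hc0 : c ≠ 0 := by
    rintro rfl
    rw [map_zero] at hc
    exact hvt hc.symm
  have hζN := zeta_pow (zeta_ne hg) (pow_pos hp.out.pos m) hζ
  set y := t / c with hy
  have hvy : v y = 1 := by rw [hy, map_div₀, hc, div_self hvt]
  have hwy : wv v (algebraMap K D y) = 1 := by rw [wv_algebraMap, hvy, one_pow]
  obtain ⟨l, hl⟩ := hg.gen _ hwy
  have h1 : wv v (ζ ^ (l * (p - 1)) - 1) < 1 := by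
    have e1 : ζ ^ (l * (p - 1)) - 1 =
        -((algebraMap K D y) ^ (p - 1) - (ζ ^ l) ^ (p - 1)) +
          ((algebraMap K D y) ^ (p - 1) - 1) := by
      rw [pow_mul]
      abel
    rw [e1]
    refine (wv_add hE hU _ _).trans_lt (max_lt ?_ (unit_pow hE ht hvy))
    rw [wv_neg]
    refine (wv_pow_sub_le hE hU ?_ hwy.le _).trans_lt hl
    rw [wv_pow, hg.one, one_pow]
  rw [hg.ord, ← geom_nat p m hp1] at h1
  have hp2 : 0 < p - 1 := by
    have := hp.out.two_le
    omega
  obtain ⟨s, hs⟩ := Nat.dvd_of_mul_dvd_mul_right hp2 h1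
  refine ⟨s, ?_⟩
  have h2 : ζ ^ (s * ∑ j ∈ Finset.range m, (p ^ r) ^ j) = ζ ^ l := by
    have h3 : s * ∑ j ∈ Finset.range m, (p ^ r) ^ j ≡ l [MOD p ^ m - 1] := by
      rw [hs, mul_comm (∑ i ∈ Finset.range m, p ^ i) s]
      exact Nat.ModEq.mul_left s (sum_perm hp1 hcop hm)
    rw [pow_eq_pow_mod _ hζN, h3, ← pow_eq_pow_mod _ hζN]
  rw [h2]
  have h4 : ζ ^ l * algebraMap K D c - algebraMap K D t =
      -(algebraMap K D y - ζ ^ l) * algebraMap K D c := by
    have h5 : t = y * c := by rw [hy, div_mul_cancel₀ _ hc0]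
    rw [h5, map_mul, neg_sub, sub_mul]
  rw [h4, wv_mul, wv_neg, wv_algebraMap, wv_algebraMap, hc]
  calc wv v (algebraMap K D y - ζ ^ l) * v t ^ Module.finrank K D <
      1 * v t ^ Module.finrank K D :=
        mul_lt_mul_of_pos_right hl (pow_pos (zero_lt_iff.2 hvt) _)
    _ = _ := one_mul _

/-- independence of characters, modulo the maximal ideal -/
theorem vand (hE : Extremal v) (hU : Unif p v t) [CharP K p] (x : ℕ → D)
    (hc : ∀ i j, Commute (x i) (x j)) (hx : ∀ i, wv v (x i) ≤ 1) (l : ℕ) :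
    (∀ i j, i < j → j < l → ¬ wv v (x i - x j) < 1) → ∀ a : ℕ → D,
      (∀ k : ℕ, wv v (∑ j ∈ Finset.range l, a j * x j ^ k) < 1) → ∀ j < l, wv v (a j) < 1 := by
  induction l with
  | zero =>
    intro _ a _ j hj
    exact absurd hj (Nat.not_lt_zero j)
  | succ l ih =>
    intro hd a h
    have h1 : ∀ k : ℕ, wv v (∑ j ∈ Finset.range l, (a j * (x j - x l)) * x j ^ k) < 1 := by
      intro k
      have e1 : (∑ j ∈ Finset.range l, (a j * (x j - x l)) * x j ^ k) =
          (∑ j ∈ Finset.range (l + 1), a j * x j ^ (k + 1)) +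
            -((∑ j ∈ Finset.range (l + 1), a j * x j ^ k) * x l) := by
        rw [Finset.sum_range_succ, Finset.sum_range_succ, add_mul, mul_assoc (a l), ← pow_succ,
          Finset.sum_mul, neg_add, add_add_add_comm, add_neg_cancel, add_zero,
          ← Finset.sum_neg_distrib, ← Finset.sum_add_distrib]
        apply Finset.sum_congr rfl
        intro j _
        have e2 : x l * x j ^ k = x j ^ k * x l := ((hc l j).pow_right k).eq
        rw [mul_sub, sub_mul, mul_assoc, mul_assoc, ← pow_succ', e2, ← mul_assoc (a j) (x j ^ k),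
          sub_eq_add_neg]
      rw [e1]
      refine (wv_add hE hU _ _).trans_lt (max_lt (h (k + 1)) ?_)
      rw [wv_neg, wv_mul]
      calc _ ≤ wv v (∑ j ∈ Finset.range (l + 1), a j * x j ^ k) * 1 :=
            mul_le_mul_right (hx l) _
        _ < 1 := by rw [mul_one]; exact h k
    have h2 := ih (fun i j hij hj => hd i j hij (by omega)) _ h1
    have h3 : ∀ j < l, wv v (a j) < 1 := by
      intro j hj
      have h4 := h2 j hj
      rw [wv_mul] at h4
      have h5 : 1 ≤ wv v (x j - x l) := not_lt.1 (hd j l hj (by omega))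
      calc wv v (a j) = wv v (a j) * 1 := (mul_one _).symm
        _ ≤ wv v (a j) * wv v (x j - x l) := mul_le_mul_right h5 _
        _ < 1 := h4
    intro j hj
    rcases Nat.lt_succ_iff_lt_or_eq.1 hj with h4 | h4
    · exact h3 j h4
    · subst h4
      have h5 := h 0
      simp only [pow_zero, mul_one] at h5
      have h6 : a j = (∑ i ∈ Finset.range (j + 1), a i) + -(∑ i ∈ Finset.range j, a i) := by
        rw [Finset.sum_range_succ]
        abel
      rw [h6]
      refine (wv_add hE hU _ _).trans_lt (max_lt h5 ?_)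
      rw [wv_neg]
      exact sum_lt' hE hU _ _ zero_lt_one fun i hi => h3 i (Finset.mem_range.1 hi)

/-- some trace is a unit -/
theorem trace_unit (hE : Extremal v) (hU : Unif p v t) [CharP K p] {m r : ℕ} (hm : 0 < m)
    (hcop : Nat.Coprime r m) {ζ π : D} (hg : GoodGen v p m ζ)
    (hrel : π * ζ = ζ ^ (p ^ r) * π) (hπ : π ≠ 0) :
    ∃ k : ℕ, ¬ wv v (∑ j ∈ Finset.range m, ζ ^ (k * (p ^ r) ^ j)) < 1 := by
  by_contra hcon
  push Not at hcon
  have hζ1 := hg.one
  have h1 := vand hE hU (fun j => ζ ^ ((p ^ r) ^ j)) (fun i j => Commute.pow_pow_self ζ _ _)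
    (fun i => by rw [wv_pow, hζ1, one_pow]) m (by
      intro i j hij hj hlt
      have hj0 : wv v π ^ j ≠ 0 := pow_ne_zero _ (wv_ne_zero hπ)
      obtain ⟨k, rfl⟩ : ∃ k, j = i + k := ⟨j - i, by omega⟩
      have e1 : (ζ ^ ((p ^ r) ^ i) - ζ ^ ((p ^ r) ^ (i + k))) * π ^ (i + k) =
          -(π ^ i * ((ζ ^ ((p ^ r) ^ k) - ζ) * π ^ k)) := by
        have h2 := pow_pi_zeta hrel (i + k) 1
        have h3 := pow_pi_zeta hrel i 1
        have h4 := pow_pi_zeta hrel k 1
        rw [pow_one, one_mul] at h2 h3 h4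
        rw [sub_mul, ← h2, sub_mul, ← h4, pow_add, ← mul_assoc, ← h3, mul_sub, neg_sub]
        simp only [mul_assoc]
      have e2 := congrArg (wv v) e1
      rw [wv_mul, wv_neg, wv_mul, wv_mul, wv_pow, wv_pow, wv_pow,
        mul_left_comm (wv v π ^ i), ← pow_add (wv v π)] at e2
      have e3 : wv v (ζ ^ ((p ^ r) ^ i) - ζ ^ ((p ^ r) ^ (i + k))) =
          wv v (ζ ^ ((p ^ r) ^ k) - ζ) := mul_right_cancel₀ hj0 e2
      rw [e3] at hlt
      have h5 : 0 < (p ^ r) ^ k := pow_pos (pow_pos hp.out.pos r) k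
      have h6 : ζ ^ ((p ^ r) ^ k) - ζ = ζ * (ζ ^ ((p ^ r) ^ k - 1) - 1) := by
        rw [mul_sub, ← pow_succ', Nat.sub_add_cancel h5, mul_one]
      rw [h6, wv_mul, hζ1, one_mul, hg.ord, ← pow_mul] at hlt
      have h7 : m ∣ k := hcop.symm.dvd_of_dvd_mul_left (dvd_of_pow_sub hp.out.two_le hlt)
      have h8 := Nat.le_of_dvd (by omega) h7
      omega) (fun _ => 1) (by
      intro k
      have h2 := hcon k
      have h3 : (∑ j ∈ Finset.range m, 1 * (ζ ^ ((p ^ r) ^ j)) ^ k) =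
          ∑ j ∈ Finset.range m, ζ ^ (k * (p ^ r) ^ j) := by
        apply Finset.sum_congr rfl
        intro j _
        rw [one_mul, ← pow_mul ζ, mul_comm k]
      rw [h3]
      exact h2) 0 hm
  rw [wv_one] at h1
  exact lt_irrefl _ h1

/-- the expansion of a power -/
theorem expand (hE : Extremal v) (hU : Unif p v t) [CharP K p] {ζ ϖ : D} {s k : ℕ}
    (hζ1 : wv v ζ = 1) (h : ϖ * ζ = ζ ^ s * ϖ) {a : K} (ha : v a ≤ 1) (j : ℕ) :
    ∃ R : D, wv v R ≤ 1 ∧ ((1 - a • ζ ^ k) * ϖ) ^ j =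
      (1 - a • (∑ i ∈ Finset.range j, ζ ^ (k * s ^ i)) + (a ^ 2) • R) * ϖ ^ j := by
  induction j with
  | zero =>
    refine ⟨0, ?_, ?_⟩
    · rw [wv_zero]
      exact zero_le_one
    · rw [pow_zero, pow_zero, Finset.sum_range_zero, smul_zero, smul_zero, sub_zero, add_zero,
        mul_one]
  | succ j ih =>
    obtain ⟨R, hR, hR'⟩ := ih
    set T := ∑ i ∈ Finset.range j, ζ ^ (k * s ^ i) with hT
    set Z := ζ ^ (k * s ^ j) with hZ
    have hZ1 : wv v Z = 1 := by rw [hZ, wv_pow, hζ1, one_pow]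
    have hT1 : wv v T ≤ 1 := by
      apply sum_le' hE hU
      intro i _
      rw [wv_pow, hζ1, one_pow]
    refine ⟨R + T * Z + -(a • (R * Z)), ?_, ?_⟩
    · refine (wv_add hE hU _ _).trans (max_le ((wv_add hE hU _ _).trans (max_le hR ?_)) ?_)
      · rw [wv_mul, hZ1, mul_one]
        exact hT1
      · rw [wv_neg, wv_smul, wv_mul, hZ1, mul_one]
        exact mul_le_one' (pow_le_one₀ zero_le ha) hR
    · have h1 : ϖ ^ j * (1 - a • ζ ^ k) = (1 - a • Z) * ϖ ^ j := by
        rw [mul_sub, mul_one, mul_smul_comm, pow_pi_zeta h, sub_mul, one_mul, smul_mul_assoc]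
      rw [pow_succ, hR', mul_assoc, ← mul_assoc (ϖ ^ j), h1, mul_assoc (1 - a • Z), ← pow_succ,
        ← mul_assoc, Finset.sum_range_succ, ← hT, ← hZ]
      congr 1
      simp only [mul_sub, sub_mul, add_mul, mul_one, one_mul, smul_mul_assoc, mul_smul_comm]
      module

end Pool.Agent.Helper28.BR
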