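import Pool.Agent.Helper28.BR.Unr

/-!
# Cyclic algebras as algebras of operators on twisted periodic sequences
-/

set_option autoImplicit false

universe u w z

namespace Pool.Agent.Helper28.BR

open Pool.Agent.Helper28.EX Pool.Agent.Helper28.QF

section Seq

variable {K : Type u} [Field K] {L : Type z} [Field L] [Algebra K L]

/-- twisted periodic sequences -/
def SeqS (t : K) (L : Type z) [Field L] [Algebra K L] (m : ℕ) : Submodule K (ℕ → L) where
  carrier := {f | ∀ i, f (i + m) = t • f i}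
  add_mem' := by
    intro f g hf hg i
    change f (i + m) + g (i + m) = t • (f i + g i)
    rw [hf, hg, smul_add]
  zero_mem' := by
    intro i
    change (0 : L) = t • (0 : L)
    rw [smul_zero]
  smul_mem' := by
    intro c f hf i
    change c • f (i + m) = t • (c • f i)
    rw [hf, smul_comm]

/-- the space of the twisted periodic sequences -/
def Seq (t : K) (L : Type z) [Field L] [Algebra K L] (m : ℕ) : Type z := SeqS t L m

instance (t : K) (m : ℕ) : AddCommGroup (Seq t L m) :=
  inferInstanceAs (AddCommGroup (SeqS t L m))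

instance (t : K) (m : ℕ) : Module K (Seq t L m) :=
  inferInstanceAs (Module K (SeqS t L m))

/-- evaluation -/
def ev (t : K) (L : Type z) [Field L] [Algebra K L] (m : ℕ) (i : ℕ) : Seq t L m →ₗ[K] L where
  toFun f := f.1 i
  map_add' _ _ := rfl
  map_smul' _ _ := rfl

/-- the shift -/
def shift (t : K) (L : Type z) [Field L] [Algebra K L] (m : ℕ) :
    Module.End K (Seq t L m) where
  toFun f := (⟨fun i => f.1 (i + 1), by
    intro i
    change f.1 (i + m + 1) = t • f.1 (i + 1)
    rw [add_right_comm]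
    exact f.2 (i + 1)⟩ : SeqS t L m)
  map_add' _ _ := rfl
  map_smul' _ _ := rfl

theorem pow_add_period {m : ℕ} {σ : L ≃ₐ[K] L} (hσ : σ ^ m = 1) (i : ℕ) (x : L) :
    (σ ^ (i + m)) x = (σ ^ i) x := by
  rw [pow_add, hσ, mul_one]

/-- the action of `L` -/
def mulA (t : K) {m : ℕ} (σ : L ≃ₐ[K] L) (hσ : σ ^ m = 1) : L →ₐ[K] Module.End K (Seq t L m) where
  toFun x :=
    { toFun := fun f => (⟨fun i => (σ ^ i) x * f.1 i, by
        intro i
        change (σ ^ (i + m)) x * f.1 (i + m) = t • ((σ ^ i) x * f.1 i)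
        rw [pow_add_period hσ, f.2 i, mul_smul_comm]⟩ : SeqS t L m)
      map_add' := by
        intro f g
        apply Subtype.ext
        funext i
        exact mul_add _ _ _
      map_smul' := by
        intro c f
        apply Subtype.ext
        funext i
        exact mul_smul_comm _ _ _ }
  map_one' := by
    apply LinearMap.ext
    intro f
    apply Subtype.ext
    funext i
    change (σ ^ i) 1 * f.1 i = f.1 i
    rw [map_one, one_mul]
  map_mul' := by
    intro x y
    apply LinearMap.ext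
    intro f
    apply Subtype.ext
    funext i
    change (σ ^ i) (x * y) * f.1 i = (σ ^ i) x * ((σ ^ i) y * f.1 i)
    rw [map_mul, mul_assoc]
  map_zero' := by
    apply LinearMap.ext
    intro f
    apply Subtype.ext
    funext i
    change (σ ^ i) 0 * f.1 i = 0
    rw [map_zero, zero_mul]
  map_add' := by
    intro x y
    apply LinearMap.ext
    intro f
    apply Subtype.ext
    funext i
    change (σ ^ i) (x + y) * f.1 i = (σ ^ i) x * f.1 i + (σ ^ i) y * f.1 i
    rw [map_add, add_mul]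
  commutes' := by
    intro c
    apply LinearMap.ext
    intro f
    apply Subtype.ext
    funext i
    change (σ ^ i) (algebraMap K L c) * f.1 i = c • f.1 i
    rw [AlgEquiv.commutes, Algebra.smul_def]

variable {t : K} {m : ℕ} {σ : L ≃ₐ[K] L} {hσ : σ ^ m = 1}

theorem mulA_apply (x : L) (f : Seq t L m) (i : ℕ) :
    (mulA t σ hσ x f).1 i = (σ ^ i) x * f.1 i := rfl

theorem shift_pow (j : ℕ) (f : Seq t L m) (i : ℕ) :
    ((shift t L m ^ j) f).1 i = f.1 (i + j) := by
  induction j generalizing f with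
  | zero => rfl
  | succ j ih =>
    rw [pow_succ]
    change ((shift t L m ^ j) (shift t L m f)).1 i = _
    rw [ih]
    rfl

theorem shift_m : shift t L m ^ m = algebraMap K (Module.End K (Seq t L m)) t := by
  apply LinearMap.ext
  intro f
  apply Subtype.ext
  funext i
  rw [shift_pow, f.2 i]
  rfl

theorem shift_mulA (x : L) :
    shift t L m * mulA t σ hσ x = mulA t σ hσ (σ x) * shift t L m := by
  apply LinearMap.ext
  intro f
  apply Subtype.ext
  funext i
  change (σ ^ (i + 1)) x * f.1 (i + 1) = (σ ^ i) (σ x) * f.1 (i + 1)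
  rw [pow_succ]
  rfl

theorem shift_pow_mulA (j : ℕ) (x : L) :
    shift t L m ^ j * mulA t σ hσ x = mulA t σ hσ ((σ ^ j) x) * shift t L m ^ j := by
  induction j generalizing x with
  | zero =>
    rw [pow_zero, pow_zero, one_mul, mul_one]
    rfl
  | succ j ih =>
    rw [pow_succ, mul_assoc, shift_mulA, ← mul_assoc, ih, mul_assoc, pow_succ σ]
    rfl

/-- the general element -/
def Phi (t : K) {m : ℕ} (σ : L ≃ₐ[K] L) (hσ : σ ^ m = 1) :
    (Fin m → L) →ₗ[K] Module.End K (Seq t L m) where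
  toFun x := ∑ j, mulA t σ hσ (x j) * shift t L m ^ (j : ℕ)
  map_add' := by
    intro x y
    rw [← Finset.sum_add_distrib]
    apply Finset.sum_congr rfl
    intro j _
    rw [Pi.add_apply, map_add, add_mul]
  map_smul' := by
    intro c x
    rw [RingHom.id_apply, Finset.smul_sum]
    apply Finset.sum_congr rfl
    intro j _
    rw [Pi.smul_apply, map_smul, smul_mul_assoc]

theorem Phi_def (x : Fin m → L) :
    Phi t σ hσ x = ∑ j, mulA t σ hσ (x j) * shift t L m ^ (j : ℕ) := rfl

theorem Phi_apply (x : Fin m → L) (f : Seq t L m) (i : ℕ) :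
    (Phi t σ hσ x f).1 i = ∑ j : Fin m, (σ ^ i) (x j) * f.1 (i + j) := by
  change ev t L m i (Phi t σ hσ x f) = _
  rw [Phi_def, LinearMap.sum_apply, map_sum]
  apply Finset.sum_congr rfl
  intro j _
  change (mulA t σ hσ (x j) ((shift t L m ^ (j : ℕ)) f)).1 i = _
  rw [mulA_apply, shift_pow]

theorem Phi_single (j : Fin m) (x : L) :
    Phi t σ hσ (Pi.single j x) = mulA t σ hσ x * shift t L m ^ (j : ℕ) := by
  classical
  rw [Phi_def, Finset.sum_eq_single j]
  · rw [Pi.single_eq_same]
  · intro k _ hk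
    rw [Pi.single_eq_of_ne hk, map_zero, zero_mul]
  · intro h
    exact absurd (Finset.mem_univ _) h

theorem mem_range (hm : 0 < m) (x : L) (a : ℕ) :
    mulA t σ hσ x * shift t L m ^ a ∈ LinearMap.range (Phi t σ hσ) := by
  refine ⟨Pi.single ⟨a % m, Nat.mod_lt _ hm⟩ (t ^ (a / m) • x), ?_⟩
  rw [Phi_single]
  conv_rhs => rw [← Nat.div_add_mod a m, pow_add, pow_mul, shift_m, ← map_pow]
  rw [map_smul, smul_mul_assoc, ← mul_assoc, ← Algebra.commutes, ← Algebra.smul_def,
    smul_mul_assoc]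

/-- the cyclic algebra -/
def DA (t : K) (hm : 0 < m) (σ : L ≃ₐ[K] L) (hσ : σ ^ m = 1) :
    Subalgebra K (Module.End K (Seq t L m)) where
  carrier := LinearMap.range (Phi t σ hσ)
  mul_mem' := by
    rintro _ _ ⟨x, rfl⟩ ⟨y, rfl⟩
    rw [SetLike.mem_coe, Phi_def, Phi_def, Finset.sum_mul]
    apply Submodule.sum_mem
    intro j _
    rw [Finset.mul_sum]
    apply Submodule.sum_mem
    intro k _
    rw [mul_assoc, ← mul_assoc (shift t L m ^ (j : ℕ)), shift_pow_mulA, mul_assoc, ← pow_add,
      ← mul_assoc, ← map_mul]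
    exact mem_range hm _ _
  add_mem' := by
    intro a b ha hb
    exact Submodule.add_mem _ ha hb
  algebraMap_mem' := by
    intro c
    have h1 := mem_range (t := t) (σ := σ) (hσ := hσ) hm (algebraMap K L c) 0
    rw [pow_zero, mul_one, AlgHom.commutes] at h1
    exact h1

/-- a sequence which is not zero -/
def one_seq (t : K) (L : Type z) [Field L] [Algebra K L] (hm : 0 < m) : Seq t L m :=
  (⟨fun i => if m ∣ i then algebraMap K L (t ^ (i / m)) else 0, by
    intro i
    have h1 : m ∣ i + m ↔ m ∣ i := (Nat.dvd_add_left (dvd_refl m))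
    change (if m ∣ i + m then algebraMap K L (t ^ ((i + m) / m)) else 0) =
      t • (if m ∣ i then algebraMap K L (t ^ (i / m)) else 0)
    by_cases h2 : m ∣ i
    · rw [if_pos h2, if_pos (h1.2 h2), Nat.add_div_right i hm, pow_succ', map_mul,
        Algebra.smul_def]
    · rw [if_neg h2, if_neg (fun h => h2 (h1.1 h)), smul_zero]⟩ : SeqS t L m)

theorem one_seq_ne (hm : 0 < m) : one_seq t L hm ≠ 0 := by
  intro h
  have h1 := congrFun (congrArg Subtype.val h) 0
  change (if m ∣ 0 then algebraMap K L (t ^ (0 / m)) else 0) = 0 at h1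
  rw [if_pos (dvd_zero m), Nat.zero_div, pow_zero, map_one] at h1
  exact one_ne_zero h1

end Seq

variable {p : ℕ} [hp : Fact p.Prime] {K : Type u} {Γ : Type w} [Field K]
  [LinearOrderedCommGroupWithZero Γ] {v : Valuation K Γ} {t : K}
  {L : Type z} [Field L] [Algebra K L] [FiniteDimensional K L]

/-- the elements which are not zero have no kernel -/
theorem no_ker (hE : Extremal v) [CharP K p] (ht : ZUnif v t) {m : ℕ} (hm : 0 < m)
    (hdim : Module.finrank K L = m)
    (hval : ∀ y : L, y ≠ 0 → ∃ c : K, c ≠ 0 ∧ wv v y = v c ^ m)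
    (σ : L ≃ₐ[K] L) (hσ : σ ^ m = 1) (x : Fin m → L) (hx : x ≠ 0) (f : Seq t L m)
    (hf : f ≠ 0) : Phi t σ hσ x f ≠ 0 := by
  classical
  have hU := unif_of_zunif p ht
  have hvt : 0 < v t := zero_lt_iff.2 ((Valuation.ne_zero_iff v).2 ht.t0)
  have hwσ : ∀ (i : ℕ) (y : L), wv v ((σ ^ i) y) = wv v y := by
    intro i y
    unfold wv
    rw [Algebra.norm_eq_of_algEquiv]
  set T := v t ^ m with hT
  have hT0 : 0 < T := pow_pos hvt m
  have hwt : wv v (algebraMap K L t) = T := by rw [wv_algebraMap, hdim]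
  -- the largest term of `x`
  set W : Fin m → Γ := fun j => wv v (x j) ^ m * T ^ (j : ℕ) with hW
  have hne : Nonempty (Fin m) := ⟨⟨0, hm⟩⟩
  obtain ⟨j0, -, hj0⟩ := Finset.exists_max_image Finset.univ W Finset.univ_nonempty
  have hWpos : ∀ j, x j ≠ 0 → 0 < W j := by
    intro j hj
    exact mul_pos (pow_pos (wv_pos hj) m) (pow_pos hT0 _)
  obtain ⟨j1, hj1⟩ : ∃ j, x j ≠ 0 := by
    by_contra hcon
    push Not at hcon
    exact hx (funext hcon)
  have hW0 : 0 < W j0 := (hWpos j1 hj1).trans_le (hj0 j1 (Finset.mem_univ _))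
  have hx0 : x j0 ≠ 0 := by
    intro h0
    apply hW0.ne
    simp only [hW]
    rw [h0, wv_zero, zero_pow hm.ne', zero_mul]
  have hlt : ∀ j, j ≠ j0 → W j < W j0 := by
    intro j hj
    refine lt_of_le_of_ne (hj0 j (Finset.mem_univ _)) fun heq => hj ?_
    have hxj : x j ≠ 0 := by
      intro h0
      apply hW0.ne
      rw [← heq]
      simp only [hW]
      rw [h0, wv_zero, zero_pow hm.ne', zero_mul]
    obtain ⟨c, hc, hcv⟩ := hval _ hxj
    obtain ⟨c0, hc0, hcv0⟩ := hval _ hx0
    simp only [hW, hT] at heq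
    rw [hcv, hcv0, ← pow_mul, ← pow_mul, ← pow_mul, ← pow_mul, mul_comm m (j : ℕ),
      mul_comm m (j0 : ℕ), pow_mul (v c), pow_mul (v c0), pow_mul (v t), pow_mul (v t),
      ← mul_pow, ← mul_pow] at heq
    have h1 := (pow_left_inj₀ zero_le zero_le hm.ne').1 heq
    have hvc : v c ≠ 0 := (Valuation.ne_zero_iff v).2 hc
    have h2 : v t ^ (j : ℕ) = v (c0 / c) ^ m * v t ^ (j0 : ℕ) := by
      rw [map_div₀, div_pow, div_mul_eq_mul_div, ← h1]
      exact (mul_div_cancel_left₀ _ (pow_ne_zero _ hvc)).symm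
    exact Fin.ext (uniq ht j.2 j0.2 h2).1
  -- the largest term of `f`
  set S : ℕ → Γ := fun i => wv v (f.1 i) ^ m * (T ^ i)⁻¹ with hS
  have hSm : ∀ i, S (i + m) = S i := by
    intro i
    simp only [hS]
    rw [f.2 i, wv_smul, hdim, ← hT, mul_pow, pow_add, mul_inv, mul_comm (T ^ m), mul_assoc,
      mul_comm (T ^ i)⁻¹, mul_inv_cancel_left₀ (pow_pos hT0 m).ne']
  have hSk : ∀ k i, S (i + m * k) = S i := by
    intro k
    induction k with
    | zero =>
      intro i
      rw [mul_zero, add_zero]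
    | succ k ih =>
      intro i
      rw [mul_add, mul_one, ← add_assoc, hSm, ih]
  obtain ⟨i0, hi0, hi0max⟩ := Finset.exists_max_image (Finset.range m) S
    ⟨0, Finset.mem_range.2 hm⟩
  have hSmax : ∀ i, S i ≤ S i0 := by
    intro i
    have h1 := hSk (i / m) (i % m)
    rw [Nat.mod_add_div] at h1
    rw [h1]
    exact hi0max _ (Finset.mem_range.2 (Nat.mod_lt _ hm))
  obtain ⟨i2, hi2⟩ : ∃ i, f.1 i ≠ 0 := by
    by_contra hcon
    push Not at hcon
    exact hf (Subtype.ext (funext hcon))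
  have hS0 : 0 < S i0 := by
    refine lt_of_lt_of_le ?_ (hSmax i2)
    exact mul_pos (pow_pos (wv_pos hi2) m) (inv_pos.2 (pow_pos hT0 _))
  obtain ⟨i, hi⟩ : ∃ i, i + (j0 : ℕ) = i0 + m := ⟨i0 + m - j0, by have := j0.2; omega⟩
  intro h0
  have h1 : (Phi t σ hσ x f).1 i = 0 := by
    rw [h0]
    rfl
  rw [Phi_apply] at h1
  set F : Fin m → L := fun j => (σ ^ i) (x j) * f.1 (i + j) with hF
  have hFv : ∀ j, wv v (F j) ^ m = W j * S (i + j) * T ^ i := by
    intro j
    simp only [hF, hW, hS]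
    rw [wv_mul, hwσ, mul_pow, pow_add T]
    have e1 : T ^ (j : ℕ) ≠ 0 := (pow_pos hT0 _).ne'
    have e2 : T ^ i ≠ 0 := (pow_pos hT0 _).ne'
    rw [mul_inv]
    calc wv v (x j) ^ m * wv v (f.1 (i + j)) ^ m =
        wv v (x j) ^ m * wv v (f.1 (i + j)) ^ m * (T ^ (j : ℕ) * (T ^ (j : ℕ))⁻¹) *
          (T ^ i * (T ^ i)⁻¹) := by
            rw [mul_inv_cancel₀ e1, mul_inv_cancel₀ e2, mul_one, mul_one]
      _ = _ := by
        simp only [mul_comm, mul_left_comm, mul_assoc]
  have hFlt : ∀ j, j ≠ j0 → wv v (F j) < wv v (F j0) := by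
    intro j hj
    apply lt_of_pow_lt_pow_left₀ m zero_le
    rw [hFv, hFv]
    apply mul_lt_mul_of_pos_right _ (pow_pos hT0 _)
    have e1 : S (i + j0) = S i0 := by rw [hi, hSm]
    rw [e1]
    calc W j * S (i + j) ≤ W j * S i0 := mul_le_mul_right (hSmax _) _
      _ < W j0 * S i0 := mul_lt_mul_of_pos_right (hlt j hj) hS0
  have hF0 : 0 < wv v (F j0) := by
    apply wv_pos
    simp only [hF]
    apply mul_ne_zero
    · exact (map_ne_zero_iff _ (σ ^ i).injective).2 hx0
    · intro h2
      have e1 : S (i + j0) = S i0 := by rw [hi, hSm]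
      apply hS0.ne
      rw [← e1]
      simp only [hS]
      rw [h2, wv_zero, zero_pow hm.ne', zero_mul]
  have h2 : wv v (∑ j ∈ Finset.univ.erase j0, F j) < wv v (F j0) :=
    sum_lt' hE hU _ _ hF0 fun j hj => hFlt j (Finset.ne_of_mem_erase hj)
  have h3 : F j0 = -(∑ j ∈ Finset.univ.erase j0, F j) := by
    rw [← Finset.add_sum_erase Finset.univ F (Finset.mem_univ j0)] at h1
    exact eq_neg_of_add_eq_zero_left h1
  rw [h3, wv_neg] at h2
  exact lt_irrefl _ h2

end Pool.Agent.Helper28.BR
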