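import Pool.Agent.Helper28.BR.Pair

/-!
# Division algebras as finite dimensional domains
-/

set_option autoImplicit false

universe u w z z'

namespace Pool.Agent.Helper28.BR.DA

open Pool.Agent.Helper28.EX Pool.Agent.Helper28.QF Pool.Agent.Helper28.BR

variable {p : ℕ} [Fact p.Prime] {K : Type u} {Γ : Type w} [Field K] [CharP K p]
  [LinearOrderedCommGroupWithZero Γ] {v : Valuation K Γ} {t : K}

theorem part1 (hE : Extremal v) (ht : ZUnif v t) {D : Type z} [Ring D] [IsDomain D] [Algebra K D]
    [FiniteDimensional K D] [Algebra.IsCentral K D] :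
    ∃! q : ℕ × ℕ, q.2 < q.1 ∧ Nat.Coprime q.2 q.1 ∧ Std p t q.1 q.2 D := by
  let _ : DivisionRing D := divisionRingOfFiniteDimensional K D
  exact unique_pair hE ht

theorem part2 (hE : Extremal v) (ht : ZUnif v t) {m r : ℕ} (hrm : r < m) (hc : Nat.Coprime r m) :
    Occurs p t m r := by
  obtain ⟨D, iD, iA, h1, h2, h3⟩ := exists_D hE ht (by omega) hc
  exact Occurs.intro D h3

theorem part3 {D₁ : Type z} {D₂ : Type z'} [Ring D₁] [IsDomain D₁] [Algebra K D₁] [Ring D₂]
    [IsDomain D₂] [Algebra K D₂] {m r : ℕ} (hrm : r < m) (h1 : Std p t m r D₁)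
    (h2 : Std p t m r D₂) : Nonempty (D₁ ≃ₐ[K] D₂) := by
  have f1 : FiniteDimensional K D₁ := by
    obtain ⟨_, _, b, _⟩ := h1
    exact b.finiteDimensional_of_finite
  have f2 : FiniteDimensional K D₂ := by
    obtain ⟨_, _, b, _⟩ := h2
    exact b.finiteDimensional_of_finite
  let _ : DivisionRing D₁ := divisionRingOfFiniteDimensional K D₁
  let _ : DivisionRing D₂ := divisionRingOfFiniteDimensional K D₂
  exact iso (by omega) h1 h2 (Nat.ModEq.refl r)

theorem part4 (hE : Extremal v) (ht : ZUnif v t) {D : Type z} [Ring D] [IsDomain D] [Algebra K D]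
    [FiniteDimensional K D] : Defectless p v t D := by
  let _ : DivisionRing D := divisionRingOfFiniteDimensional K D
  exact general hE ht

end Pool.Agent.Helper28.BR.DA
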