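import Pool.Agent.Helper28.BR.Final

/-!
# The finite field in a division algebra
-/

set_option autoImplicit false

universe u w z

open Polynomial

namespace Pool.Agent.Helper28.BR

theorem emb (p : ℕ) [hp : Fact p.Prime] {D : Type z} [DivisionRing D] [CharP D p] {m : ℕ}
    (hm : 0 < m) {ζ : D} (hζ : orderOf ζ = p ^ m - 1) :
    ∃ (ι : GaloisField p m →+* D) (η : GaloisField p m), ι η = ζ ∧
      IsPrimitiveRoot η (p ^ m - 1) := by
  classical
  let inst : Algebra (ZMod p) D := ZMod.algebra D p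
  have hq2 : 2 ≤ p ^ m := by
    calc 2 ≤ p := hp.out.two_le
      _ = p ^ 1 := (pow_one p).symm
      _ ≤ p ^ m := Nat.pow_le_pow_right hp.out.pos hm
  set N := p ^ m - 1 with hN
  have hN0 : 0 < N := by omega
  have hqN : p ^ m = N + 1 := by omega
  have hNz : NeZero N := ⟨hN0.ne'⟩
  have hζN : ζ ^ N = 1 := by rw [← hζ, pow_orderOf_eq_one]
  have h0 : aeval ζ (X ^ N - 1 : (ZMod p)[X]) = 0 := by
    rw [map_sub, map_pow, aeval_X, map_one, hζN, sub_self]
  have hint : IsIntegral (ZMod p) ζ :=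
    ⟨X ^ N - C 1, monic_X_pow_sub_C 1 hN0.ne', by
      rw [C_1]
      exact h0⟩
  set ν := minpoly (ZMod p) ζ with hν
  have hνi : Irreducible ν := minpoly.irreducible hint
  have hνd : ν ∣ (X ^ (p ^ m) - X : (ZMod p)[X]) := by
    have h1 : ν ∣ (X ^ N - 1 : (ZMod p)[X]) := minpoly.dvd _ _ h0
    have h2 : (X ^ (p ^ m) - X : (ZMod p)[X]) = (X ^ N - 1) * X := by
      rw [hqN, pow_succ]
      ring
    rw [h2]
    exact h1.mul_right X
  have hsplit : ((X ^ (p ^ m) - X : (ZMod p)[X]).map
      (algebraMap (ZMod p) (GaloisField p m))).Splits :=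
    SplittingField.splits (X ^ (p ^ m) - X : (ZMod p)[X])
  have hne : (X ^ (p ^ m) - X : (ZMod p)[X]) ≠ 0 :=
    FiniteField.X_pow_card_pow_sub_X_ne_zero (ZMod p) hm.ne' hp.out.one_lt
  have hνs : (ν.map (algebraMap (ZMod p) (GaloisField p m))).Splits :=
    hsplit.of_dvd (Polynomial.map_ne_zero hne) (Polynomial.map_dvd _ hνd)
  obtain ⟨η, hη⟩ := hνs.exists_eval_eq_zero (by
    rw [degree_map]
    exact hνi.degree_pos.ne')
  have hη' : aeval η ν = 0 := by
    rw [aeval_def, ← eval_map]
    exact hη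
  have hmin : ν = minpoly (ZMod p) η :=
    minpoly.eq_of_irreducible_of_monic hνi hη' (minpoly.monic hint)
  have key : ∀ P : (ZMod p)[X], aeval ζ P = 0 ↔ aeval η P = 0 := by
    intro P
    rw [← minpoly.dvd_iff, ← minpoly.dvd_iff, ← hmin]
  have hηN : IsPrimitiveRoot η N := by
    refine ⟨?_, ?_⟩
    · have h1 := (key _).1 h0
      rw [map_sub, map_pow, aeval_X, map_one, sub_eq_zero] at h1
      exact h1
    · intro l hl
      have h1 : aeval η (X ^ l - 1 : (ZMod p)[X]) = 0 := by
        rw [map_sub, map_pow, aeval_X, map_one, hl, sub_self]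
      have h2 := (key _).2 h1
      rw [map_sub, map_pow, aeval_X, map_one, sub_eq_zero] at h2
      rw [← hζ]
      exact orderOf_dvd_of_pow_eq_one h2
  have hcard : Nat.card (GaloisField p m) = p ^ m := GaloisField.card p m hm.ne'
  have hfin : Finite (GaloisField p m) := Nat.finite_of_card_ne_zero (by rw [hcard]; omega)
  have hft : Fintype (GaloisField p m) := Fintype.ofFinite _
  have hsurj : ∀ x : GaloisField p m, ∃ P : (ZMod p)[X], aeval η P = x := by
    intro x
    by_cases hx : x = 0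
    · exact ⟨0, by rw [map_zero, hx]⟩
    · have h1 : x ^ N = 1 := by
        have h2 := FiniteField.pow_card_sub_one_eq_one x hx
        rw [← Nat.card_eq_fintype_card, hcard] at h2
        exact h2
      obtain ⟨i, -, hi⟩ := hηN.eq_pow_of_pow_eq_one h1
      exact ⟨X ^ i, by rw [map_pow, aeval_X, hi]⟩
  choose pol hpol using hsurj
  have hwd : ∀ P : (ZMod p)[X], aeval ζ (pol (aeval η P)) = aeval ζ P := by
    intro P
    rw [← sub_eq_zero, ← map_sub, key, map_sub, hpol, sub_self]
  refine ⟨⟨⟨⟨fun x => aeval ζ (pol x), ?_⟩, ?_⟩, ?_, ?_⟩, η, ?_, hηN⟩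
  · have h1 := hwd 1
    rw [map_one, map_one] at h1
    exact h1
  · intro x y
    have h1 := hwd (pol x * pol y)
    rw [map_mul, map_mul, hpol, hpol] at h1
    exact h1
  · have h1 := hwd 0
    rw [map_zero, map_zero] at h1
    exact h1
  · intro x y
    have h1 := hwd (pol x + pol y)
    rw [map_add, map_add, hpol, hpol] at h1
    exact h1
  · have h1 := hwd X
    rw [aeval_X, aeval_X] at h1
    exact h1

end Pool.Agent.Helper28.BR
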