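import Pool.Agent.Helper28.BR.Span

/-!
# Exact relations in a division algebra
-/

set_option autoImplicit false

universe u w z

namespace Pool.Agent.Helper28.BR

open Pool.Agent.Helper28.EX Pool.Agent.Helper28.QF

variable {p : ℕ} [hp : Fact p.Prime] {K : Type u} {Γ : Type w} [Field K]
  [LinearOrderedCommGroupWithZero Γ] {v : Valuation K Γ} {t : K}
  {D : Type z} [DivisionRing D] [Algebra K D] [FiniteDimensional K D]

section Rel

variable {M : Type*} [Monoid M]

theorem pow_zeta {ζ π : M} {s : ℕ} (h : π * ζ = ζ ^ s * π) (k : ℕ) :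
    π * ζ ^ k = ζ ^ (k * s) * π := by
  induction k with
  | zero => rw [zero_mul, pow_zero, mul_one, one_mul]
  | succ k ih => rw [pow_succ, ← mul_assoc, ih, mul_assoc, h, ← mul_assoc, ← pow_add, add_mul,
      one_mul]

theorem pow_pi_zeta {ζ π : M} {s : ℕ} (h : π * ζ = ζ ^ s * π) (j k : ℕ) :
    π ^ j * ζ ^ k = ζ ^ (k * s ^ j) * π ^ j := by
  induction j generalizing k with
  | zero => rw [pow_zero, pow_zero, mul_one, one_mul, mul_one]
  | succ j ih =>
    rw [pow_succ, mul_assoc, pow_zeta h, ← mul_assoc, ih, mul_assoc, mul_assoc, pow_succ' s]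

/-- powers of `ζ ^ k * π` -/
theorem pow_zeta_pi {ζ π : M} {s : ℕ} (h : π * ζ = ζ ^ s * π) (j k : ℕ) :
    (ζ ^ k * π) ^ j = ζ ^ (k * ∑ i ∈ Finset.range j, s ^ i) * π ^ j := by
  induction j with
  | zero => rw [pow_zero, Finset.sum_range_zero, mul_zero, pow_zero, pow_zero, one_mul]
  | succ j ih =>
    rw [pow_succ, ih, mul_assoc, ← mul_assoc (π ^ j), pow_pi_zeta h, Finset.sum_range_succ,
      mul_add, pow_add, mul_assoc (ζ ^ (k * s ^ j)), ← pow_succ π j, ← mul_assoc]

end Rel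

theorem wv_eq_of_close (hE : Extremal v) (hU : Unif p v t) [CharP K p] {x y : D}
    (h : wv v (x - y) < wv v y) : wv v x = wv v y := by
  apply le_antisymm
  · have h1 : x = (x - y) + y := by abel
    calc wv v x = wv v ((x - y) + y) := by rw [← h1]
      _ ≤ max (wv v (x - y)) (wv v y) := wv_add hE hU _ _
      _ ≤ wv v y := max_le h.le le_rfl
  · by_contra hcon
    rw [not_le] at hcon
    have h1 : y = -(x - y) + x := by abel
    have h2 : wv v y < wv v y := by
      calc wv v y = wv v (-(x - y) + x) := by rw [← h1]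
        _ ≤ max (wv v (-(x - y))) (wv v x) := wv_add hE hU _ _
        _ < wv v y := by rw [wv_neg]; exact max_lt h hcon
    exact lt_irrefl _ h2

theorem conj_pow' {x u : D} (hu : u ≠ 0) (k : ℕ) : (u * x * u⁻¹) ^ k = u * x ^ k * u⁻¹ := by
  induction k with
  | zero => rw [pow_zero, pow_zero, mul_one, mul_inv_cancel₀ hu]
  | succ k ih =>
    rw [pow_succ, ih, pow_succ]
    calc u * x ^ k * u⁻¹ * (u * x * u⁻¹) = u * x ^ k * (u⁻¹ * u) * x * u⁻¹ := by
          simp only [mul_assoc]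
      _ = u * (x ^ k * x) * u⁻¹ := by
          rw [inv_mul_cancel₀ hu, mul_one, mul_assoc u]

theorem zeta_ne {f : ℕ} [CharP K p] {ζ : D} (hg : GoodGen v p f ζ) : ζ ≠ 0 := by
  rintro rfl
  have := hg.one
  rw [wv_zero] at this
  exact zero_ne_one this

omit [FiniteDimensional K D] in
theorem zeta_pow {N : ℕ} {ζ : D} (h0 : ζ ≠ 0) (hN : 0 < N) (hζ : ζ ^ N = ζ) :
    ζ ^ (N - 1) = 1 := by
  have h1 : ζ ^ (N - 1) * ζ = 1 * ζ := by
    rw [← pow_succ, Nat.sub_add_cancel hN, hζ, one_mul]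
  exact mul_right_cancel₀ h0 h1

/-- an exact prime element -/
theorem exact_pi (hE : Extremal v) [CharP K p] (ht : ZUnif v t) {f : ℕ} (hf : 0 < f) {ζ π : D}
    (hg : GoodGen v p f ζ) (hζ : ζ ^ (p ^ f) = ζ) (hπ : π ≠ 0) :
    ∃ (r : ℕ) (π1 : D), π1 ≠ 0 ∧ wv v π1 = wv v π ∧ π1 * ζ = ζ ^ (p ^ r) * π1 := by
  classical
  have hU := unif_of_zunif p ht
  obtain ⟨r, hr⟩ := hg.conj π hπ
  have hζ0 : ζ ≠ 0 := zeta_ne hg
  have hq0 : 0 < p ^ f := pow_pos hp.out.pos f
  have hζN := zeta_pow hζ0 hq0 hζ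
  set η := ζ ^ (p ^ r) with hη
  have hη0 : η ≠ 0 := pow_ne_zero _ hζ0
  have hηN : η ^ (p ^ f - 1) = 1 := by
    rw [hη, ← pow_mul, mul_comm, pow_mul, hζN, one_pow]
  have hη1 : wv v η = 1 := by rw [hη, wv_pow, hg.one, one_pow]
  set F : ℕ → D := fun k => (η ^ k)⁻¹ * π * ζ ^ k with hF
  have hstep : ∀ k, η * F (k + 1) = F k * ζ := by
    intro k
    simp only [hF]
    rw [pow_succ η, mul_inv_rev, pow_succ ζ]
    calc η * (η⁻¹ * (η ^ k)⁻¹ * π * (ζ ^ k * ζ)) = η * η⁻¹ * ((η ^ k)⁻¹ * π * ζ ^ k * ζ) := by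
          simp only [mul_assoc]
      _ = _ := by rw [mul_inv_cancel₀ hη0, one_mul]
  have hper : F (p ^ f - 1) = F 0 := by
    simp only [hF]
    rw [hηN, hζN, pow_zero, pow_zero]
  set π1 := ∑ k ∈ Finset.range (p ^ f - 1), F k with hπ1
  have hshift : (∑ k ∈ Finset.range (p ^ f - 1), F (k + 1)) = π1 := by
    have h1 := Finset.sum_range_succ' F (p ^ f - 1)
    have h2 := Finset.sum_range_succ F (p ^ f - 1)
    rw [h1, hper] at h2
    exact add_right_cancel h2
  have hrel : π1 * ζ = η * π1 := by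
    rw [hπ1, Finset.sum_mul]
    rw [hπ1] at hshift
    conv_rhs => rw [← hshift, Finset.mul_sum]
    apply Finset.sum_congr rfl
    intro k _
    rw [hstep]
  have hclose : wv v (π1 * π⁻¹ - (-1)) < wv v (-1 : D) := by
    have hN : ((p ^ f - 1 : ℕ) : D) = -1 := by
      have hD : CharP D p := charP_D (K := K) p
      rw [Nat.cast_sub hq0, Nat.cast_pow, CharP.cast_eq_zero, zero_pow hf.ne', Nat.cast_one,
        zero_sub]
    rw [← hN]
    have h1 : π1 * π⁻¹ - ((p ^ f - 1 : ℕ) : D) =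
        ∑ k ∈ Finset.range (p ^ f - 1), (F k * π⁻¹ - 1) := by
      rw [Finset.sum_sub_distrib, hπ1, Finset.sum_mul, Finset.sum_const, Finset.card_range,
        nsmul_eq_mul, mul_one]
    rw [h1, hN, wv_neg, wv_one]
    apply sum_lt' hE hU _ _ zero_lt_one
    intro k _
    have h2 : F k * π⁻¹ - 1 = (η ^ k)⁻¹ * ((π * ζ * π⁻¹) ^ k - η ^ k) := by
      rw [conj_pow' hπ, mul_sub, inv_mul_cancel₀ (pow_ne_zero k hη0)]
      simp only [hF, mul_assoc]
    rw [h2, wv_mul, wv_inv, wv_pow, hη1, one_pow, inv_one, one_mul]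
    refine (wv_pow_sub_le hE hU hη1.le ?_ k).trans_lt hr
    rw [wv_mul, wv_mul, wv_inv, hg.one, mul_one, mul_inv_cancel₀ (wv_ne_zero hπ)]
  have hval := wv_eq_of_close hE hU hclose
  rw [wv_neg, wv_one, wv_mul, wv_inv] at hval
  have hval' : wv v π1 = wv v π := by
    have h1 := congrArg (· * wv v π) hval
    simp only [one_mul, inv_mul_cancel_right₀ (wv_ne_zero (v := v) hπ)] at h1
    exact h1
  refine ⟨r, π1, ?_, hval', hrel⟩
  rintro h0
  rw [h0, wv_zero] at hval'
  exact wv_ne_zero hπ hval'.symm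

omit [FiniteDimensional K D] in
/-- elements commuting with `ζ` and `π` are central -/
theorem central_of [Algebra.IsCentral K D] {f e : ℕ} {ζ π : D}
    (hspan : ∀ x : D, ∃ y : Fin f × Fin e → K,
      x = ∑ k, y k • (ζ ^ (k.1 : ℕ) * π ^ (k.2 : ℕ)))
    {x : D} (h1 : Commute x ζ) (h2 : Commute x π) : ∃ c : K, x = algebraMap K D c := by
  have h3 : x ∈ Subalgebra.center K D := by
    rw [Subalgebra.mem_center_iff]
    intro b
    obtain ⟨y, hy⟩ := hspan b
    have h4 : Commute x b := by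
      rw [hy]
      apply Commute.sum_right
      intro k _
      exact ((h1.pow_right _).mul_right (h2.pow_right _)).smul_right _
    exact h4.symm
  have h5 := Algebra.IsCentral.out (K := K) (D := D) h3
  rw [Algebra.mem_bot] at h5
  obtain ⟨c, hc⟩ := h5
  exact ⟨c, hc.symm⟩

theorem dvd_of_pow_sub {p f k : ℕ} (hp : 2 ≤ p) (h : p ^ f - 1 ∣ p ^ k - 1) : f ∣ k := by
  have h1 := Nat.pow_sub_one_gcd_pow_sub_one p f k
  rw [Nat.gcd_eq_left h] at h1
  have h2 : 0 < p ^ f := pow_pos (by omega) f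
  have h3 : 0 < p ^ (Nat.gcd f k) := pow_pos (by omega) _
  have h4 : p ^ f = p ^ (Nat.gcd f k) := by omega
  have h5 : f = Nat.gcd f k := Nat.pow_right_injective hp h4
  rw [h5]
  exact Nat.gcd_dvd_right f k

/-- the ranks and the exponent -/
theorem ranks (hE : Extremal v) [CharP K p] [Algebra.IsCentral K D] (ht : ZUnif v t)
    {f h e r : ℕ} (hf : 0 < f) (he : 0 < e) (hh : 0 < h) (hn : Module.finrank K D = e * h)
    {ζ π : D} (hg : GoodGen v p f ζ) (hζ : ζ ^ (p ^ f) = ζ) (hπ : wv v π = v t ^ h)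
    (hval : ∀ x : D, x ≠ 0 → ∃ (a : ℕ) (c : K), a < e ∧ c ≠ 0 ∧ wv v x = wv v (c • π ^ a))
    (hrel : π * ζ = ζ ^ (p ^ r) * π) :
    h = f ∧ e = f ∧ Nat.Coprime r f ∧ ∃ c : K, π ^ f = algebraMap K D c ∧ v c = v t := by
  classical
  have hU := unif_of_zunif p ht
  have hvt : 0 < v t := zero_lt_iff.2 ((Valuation.ne_zero_iff v).2 ht.t0)
  obtain ⟨hind, hspan⟩ := standard hE ht hf he hh hn hg hπ hval
  have hζ0 : ζ ≠ 0 := zeta_ne hg
  have hq0 : 0 < p ^ f := pow_pos hp.out.pos f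
  have hζN := zeta_pow hζ0 hq0 hζ
  have hp2 := hp.out.two_le
  -- dimension
  have hdim : Module.finrank K D = f * e := by
    let b : Module.Basis (Fin f × Fin e) K D := Module.Basis.mk hind (by
      intro x _
      obtain ⟨y, hy⟩ := hspan x
      rw [hy]
      exact Submodule.sum_mem _ fun k _ =>
        Submodule.smul_mem _ _ (Submodule.subset_span ⟨k, rfl⟩))
    rw [Module.finrank_eq_card_basis b, Fintype.card_prod, Fintype.card_fin, Fintype.card_fin]
  have hhf : h = f := by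
    rw [hn, mul_comm f e] at hdim
    exact Nat.eq_of_mul_eq_mul_left he hdim
  subst hhf
  -- the exponent is prime to `h`
  have hcop : Nat.Coprime r h := by
    set d := Nat.gcd r h with hd
    have hd0 : 0 < d := Nat.gcd_pos_of_pos_right r hf
    obtain ⟨h', hh'⟩ : d ∣ h := Nat.gcd_dvd_right r h
    obtain ⟨r', hr'⟩ : d ∣ r := Nat.gcd_dvd_left r h
    have hdvd1 : p ^ d - 1 ∣ p ^ h - 1 := by
      rw [hh', pow_mul]
      simpa only [one_pow] using Nat.sub_dvd_pow_sub_pow (p ^ d) 1 h'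
    have hdvd2 : p ^ d - 1 ∣ p ^ r - 1 := by
      rw [hr', pow_mul]
      simpa only [one_pow] using Nat.sub_dvd_pow_sub_pow (p ^ d) 1 r'
    obtain ⟨A, hA⟩ := hdvd1
    obtain ⟨B, hB⟩ := hdvd2
    have hpd : 0 < p ^ d - 1 := by
      have h1 : p ^ 1 ≤ p ^ d := Nat.pow_le_pow_right hp.out.pos hd0
      rw [pow_one] at h1
      omega
    have hph : 0 < p ^ h - 1 := by
      have h1 : p ^ 1 ≤ p ^ h := Nat.pow_le_pow_right hp.out.pos hh
      rw [pow_one] at h1
      omega
    have hA0 : 0 < A := by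
      rcases Nat.eq_zero_or_pos A with h1 | h1
      · rw [h1, mul_zero] at hA
        omega
      · exact h1
    have hω1 : (ζ ^ A) ^ (p ^ r) = ζ ^ A := by
      have h1 : p ^ r = (p ^ r - 1) + 1 := (Nat.sub_add_cancel (pow_pos hp.out.pos r)).symm
      rw [h1, pow_succ, ← pow_mul, hB, ← mul_assoc, mul_comm A, ← hA, pow_mul, hζN, one_pow,
        one_mul]
    have hcomm1 : Commute (ζ ^ A) ζ := Commute.pow_self ζ A
    have hcomm2 : Commute (ζ ^ A) π := by
      have h1 := pow_zeta hrel A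
      rw [pow_mul, hω1] at h1
      exact h1.symm
    obtain ⟨c, hc⟩ := central_of hspan hcomm1 hcomm2
    have hvc : v c ≤ 1 := by
      have h1 : wv v (ζ ^ A) = 1 := by rw [wv_pow, hg.one, one_pow]
      rw [hc, wv_algebraMap] at h1
      by_contra hcon
      rw [not_le] at hcon
      exact (one_lt_pow₀ hcon finrank_ne).ne' h1
    obtain ⟨m, hm⟩ := ht.res c hvc
    have hzm : ((m : ℤ) : K) = zm p K ((m : ℤ) : ZMod p) := (map_intCast _ _).symm
    have hmne : ((m : ℤ) : ZMod p) ≠ 0 := by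
      intro h0
      rw [h0, map_zero] at hzm
      rw [hzm, sub_zero] at hm
      have h1 : wv v (ζ ^ A) = 1 := by rw [wv_pow, hg.one, one_pow]
      rw [hc, wv_algebraMap] at h1
      exact (pow_lt_one₀ zero_le hm finrank_ne).ne h1
    have hm1 : ((m : ℤ) : K) ^ (p - 1) = 1 := by
      rw [hzm, ← map_pow, ZMod.pow_card_sub_one_eq_one hmne, map_one]
    have hwm : wv v ((ζ ^ A) ^ (p - 1) - 1) < 1 := by
      have h1 : (1 : D) = (algebraMap K D (m : K)) ^ (p - 1) := by
        rw [← map_pow, hm1, map_one]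
      rw [h1, hc]
      have h2 : wv v (algebraMap K D (m : K)) ≤ 1 := by
        rw [wv_algebraMap, hzm]
        exact pow_le_one₀ zero_le (v_zm_le _)
      refine (wv_pow_sub_le hE hU h2 ?_ _).trans_lt ?_
      · rw [wv_algebraMap]
        exact pow_le_one₀ zero_le hvc
      · rw [← map_sub, wv_algebraMap]
        exact pow_lt_one₀ zero_le hm finrank_ne
    rw [← pow_mul, hg.ord, hA, mul_comm] at hwm
    have h1 : p ^ d - 1 ∣ p - 1 := Nat.dvd_of_mul_dvd_mul_left hA0 hwm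
    have h2 := Nat.le_of_dvd (by omega) h1
    have h3 : p ^ d ≤ p ^ 1 := by rw [pow_one]; omega
    have h4 : d ≤ 1 := (Nat.pow_le_pow_iff_right (by omega)).1 h3
    exact le_antisymm h4 hd0
  -- `h` divides `e`
  have hhe : h ∣ e := by
    set u := π ^ e * (algebraMap K D t)⁻¹ with hu
    have hu1 : wv v u = 1 := by
      rw [hu, wv_mul, wv_pow, wv_inv, wv_algebraMap, hπ, ← pow_mul, hn, mul_comm e h,
        mul_inv_cancel₀ (pow_pos hvt _).ne']
    have h1 := hg.comm u ζ hu1.le hg.one.le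
    have hct : ζ * (algebraMap K D t)⁻¹ = (algebraMap K D t)⁻¹ * ζ := by
      rw [← map_inv₀]
      exact (Algebra.commutes t⁻¹ ζ).symm
    have h2 : u * ζ = ζ ^ ((p ^ r) ^ e) * u := by
      have h3 := pow_pi_zeta hrel e 1
      rw [pow_one, one_mul] at h3
      rw [hu, mul_assoc, ← hct, ← mul_assoc, h3, mul_assoc]
    have h4 : u * ζ - ζ * u = (ζ * (ζ ^ ((p ^ r) ^ e - 1) - 1)) * u := by
      have h5 : 0 < (p ^ r) ^ e := pow_pos (pow_pos hp.out.pos r) e
      rw [h2, mul_sub, ← pow_succ', Nat.sub_add_cancel h5, mul_one, sub_mul]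
    rw [h4, wv_mul, wv_mul, hu1, hg.one, one_mul, mul_one, hg.ord, ← pow_mul] at h1
    exact hcop.symm.dvd_of_dvd_mul_left (dvd_of_pow_sub hp2 h1)
  have hhe' : h ≤ e := Nat.le_of_dvd he hhe
  -- `π ^ h` is central
  have hiter : ∀ k : ℕ, ζ ^ (p ^ (h * k)) = ζ := by
    intro k
    induction k with
    | zero => rw [mul_zero, pow_zero, pow_one]
    | succ k ih => rw [mul_add, mul_one, pow_add, pow_mul, ih, hζ]
  have hc1 : Commute (π ^ h) ζ := by
    have h3 := pow_pi_zeta hrel h 1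
    rw [pow_one, one_mul, ← pow_mul, mul_comm r h, hiter] at h3
    exact h3
  obtain ⟨c, hc⟩ := central_of hspan hc1 (Commute.pow_self π h)
  have hcv : v t ^ (h * h) = v c ^ Module.finrank K D * v t ^ 0 := by
    rw [← wv_algebraMap, ← hc, wv_pow, hπ, ← pow_mul, pow_zero, mul_one]
  have heh : e = h := by
    by_contra hne
    have hlt : h < e := lt_of_le_of_ne hhe' (Ne.symm hne)
    have hlt' : h * h < Module.finrank K D := by
      rw [hn]
      exact Nat.mul_lt_mul_of_pos_right hlt hh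
    have h1 := (uniq ht hlt' (Nat.pos_of_ne_zero finrank_ne) hcv).1
    have h2 : 0 < h * h := Nat.mul_pos hh hh
    omega
  refine ⟨rfl, heh, hcop, c, hc, ?_⟩
  rw [pow_zero, mul_one, hn, heh] at hcv
  exact ((pow_left_inj₀ zero_le zero_le (Nat.mul_pos hh hh).ne').1 hcv).symm

end Pool.Agent.Helper28.BR
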