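import Pool.Agent.Helper28.BR.Cyc

/-!
# Existence of the division algebras with given invariants
-/

set_option autoImplicit false

universe u w z

namespace Pool.Agent.Helper28.BR

open Pool.Agent.Helper28.EX Pool.Agent.Helper28.QF

variable {p : ℕ} [hp : Fact p.Prime] {K : Type u} {Γ : Type w} [Field K]
  [LinearOrderedCommGroupWithZero Γ] {v : Valuation K Γ} {t : K}

omit hp in
theorem mk_division {m r : ℕ} (A : Type z) [Ring A] [IsDomain A] [Algebra K A]
    [FiniteDimensional K A] [Algebra.IsCentral K A] (h : Std p t m r A) :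
    ∃ (D : Type z) (_ : DivisionRing D) (_ : Algebra K D), FiniteDimensional K D ∧
      Algebra.IsCentral K D ∧ Std p t m r D := by
  let inst : DivisionRing A := divisionRingOfFiniteDimensional K A
  exact ⟨A, inst, ‹Algebra K A›, ‹FiniteDimensional K A›, ‹Algebra.IsCentral K A›, h⟩

section Aut

variable {L : Type z} [Field L] [Algebra K L]

omit hp in
theorem aut_pow {σ : L ≃ₐ[K] L} {ζ : L} {s : ℕ} (h : σ ζ = ζ ^ s) (j : ℕ) :
    (σ ^ j) ζ = ζ ^ (s ^ j) := by
  induction j with
  | zero =>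
    rw [pow_zero, pow_zero, pow_one]
    rfl
  | succ j ih =>
    rw [pow_succ, AlgEquiv.mul_apply, h, map_pow, ih, ← pow_mul, pow_succ]

/-- the order of the Frobenius automorphism -/
theorem aut_order (pb : PowerBasis K L) {m r : ℕ} (hm : 0 < m) (hcop : Nat.Coprime r m)
    (hζ : orderOf pb.gen = p ^ m - 1) {σ : L ≃ₐ[K] L}
    (h : σ pb.gen = pb.gen ^ (p ^ r)) (j : ℕ) :
    ((σ ^ j) pb.gen = pb.gen ↔ m ∣ j) := by
  have h0 : pb.gen ^ (p ^ m - 1) = 1 := by rw [← hζ, pow_orderOf_eq_one]
  rw [aut_pow h, ← pow_mul]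
  constructor
  · intro h1
    have hg : pb.gen ≠ 0 := by
      intro hg
      have h2 := q_two p hm
      rw [hg, zero_pow (by omega)] at h0
      exact zero_ne_one h0
    have h2 : 0 < p ^ (r * j) := pow_pos hp.out.pos _
    have h3 : pb.gen ^ (p ^ (r * j) - 1) = 1 := by
      have h4 : pb.gen ^ (p ^ (r * j) - 1) * pb.gen = 1 * pb.gen := by
        rw [← pow_succ, Nat.sub_add_cancel h2, h1, one_mul]
      exact mul_right_cancel₀ hg h4
    have h4 : p ^ m - 1 ∣ p ^ (r * j) - 1 := by
      rw [← hζ]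
      exact orderOf_dvd_of_pow_eq_one h3
    exact hcop.symm.dvd_of_dvd_mul_left (dvd_of_pow_sub hp.out.two_le h4)
  · rintro ⟨k, rfl⟩
    have h1 : pb.gen ^ (p ^ m) = pb.gen := by
      have h2 : 0 < p ^ m := pow_pos hp.out.pos _
      have h3 : pb.gen ^ (p ^ m) = pb.gen ^ (p ^ m - 1) * pb.gen := by
        rw [← pow_succ, Nat.sub_add_cancel h2]
      rw [h3, h0, one_mul]
    have h2 : r * (m * k) = m * (r * k) := by ring
    rw [h2, iter_zeta h1]

/-- the fixed field of the Frobenius automorphism -/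
theorem fixed_K (pb : PowerBasis K L) {m : ℕ} (hd : pb.dim = m) {σ : L ≃ₐ[K] L}
    (hσ : σ ^ m = 1) (ho : ∀ j, (σ ^ j) pb.gen = pb.gen ↔ m ∣ j) {x : L} (hx : σ x = x) :
    ∃ c : K, algebraMap K L c = x := by
  classical
  have hfd : FiniteDimensional K L := pb.finite
  have hord : orderOf σ = m := by
    apply Nat.dvd_antisymm (orderOf_dvd_of_pow_eq_one hσ)
    rw [← ho, pow_orderOf_eq_one]
    rfl
  have h1 := IntermediateField.finrank_fixedField_eq_card (Subgroup.zpowers σ)
  rw [Nat.card_zpowers, hord] at h1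
  have h2 := Module.finrank_mul_finrank K (IntermediateField.fixedField (Subgroup.zpowers σ)) L
  rw [h1, pb.finrank, hd] at h2
  have hm : 0 < m := by
    rw [← hd]
    exact pb.dim_pos
  have h3 : Module.finrank K (IntermediateField.fixedField (Subgroup.zpowers σ)) = 1 :=
    Nat.eq_of_mul_eq_mul_right hm (by rw [h2, one_mul])
  rw [IntermediateField.finrank_eq_one_iff] at h3
  have h4 : x ∈ IntermediateField.fixedField (Subgroup.zpowers σ) := by
    rw [IntermediateField.mem_fixedField_iff]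
    intro g hg
    have h5 : Subgroup.zpowers σ ≤ MulAction.stabilizer (L ≃ₐ[K] L) x := by
      rw [Subgroup.zpowers_le, MulAction.mem_stabilizer_iff]
      exact hx
    exact h5 hg
  rw [h3, IntermediateField.mem_bot] at h4
  exact h4

end Aut

theorem exists_D (hE : Extremal v) [CharP K p] (ht : ZUnif v t) {m r : ℕ} (hm : 0 < m)
    (hcop : Nat.Coprime r m) : ∃ (D : Type u) (_ : DivisionRing D) (_ : Algebra K D),
      FiniteDimensional K D ∧ Algebra.IsCentral K D ∧ Std p t m r D := by
  classical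
  obtain ⟨L, iL, aL, pb, hζ, hdle⟩ := exists_L p K hm
  have hfd : FiniteDimensional K L := pb.finite
  obtain ⟨hdim, hval⟩ := unram (v := v) hE ht hm hζ (by rw [pb.finrank]; exact hdle)
  have hd : pb.dim = m := by rw [← pb.finrank, hdim]
  obtain ⟨σ, hσζ⟩ := exists_aut pb hm hζ hd r
  have ho := aut_order pb hm hcop hζ hσζ
  have hσ : σ ^ m = 1 := by
    apply AlgEquiv.coe_toAlgHom_injective
    apply pb.algHom_ext
    exact (ho m).2 (dvd_refl m)
  set ζ := pb.gen with hζdef
  have hζ0 : ζ ≠ 0 := by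
    intro hg
    have h0 : ζ ^ (p ^ m - 1) = 1 := by rw [← hζ, pow_orderOf_eq_one]
    have h2 := q_two p hm
    rw [hg, zero_pow (by omega)] at h0
    exact zero_ne_one h0
  have hker := no_ker hE ht hm hdim hval σ hσ
  have hinj : Function.Injective (Phi t σ hσ) := by
    rw [injective_iff_map_eq_zero]
    intro x hx
    by_contra hne
    apply hker x hne (one_seq t L hm) (one_seq_ne hm)
    rw [hx]
    rfl
  have hAinj : Function.Injective (mulA t σ hσ) := by
    intro x y hxy
    have h1 : Phi t σ hσ (Pi.single ⟨0, hm⟩ x) = Phi t σ hσ (Pi.single ⟨0, hm⟩ y) := by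
      rw [Phi_single, Phi_single, hxy]
    have h2 := congrFun (hinj h1) ⟨0, hm⟩
    rwa [Pi.single_eq_same, Pi.single_eq_same] at h2
  let A := DA t hm σ hσ
  have hAmem : ∀ T : A, ∃ x, Phi t σ hσ x = T.1 := fun T => T.2
  have hAker : ∀ T : A, T ≠ 0 → ∀ f, f ≠ 0 → T.1 f ≠ 0 := by
    intro T hT f hf
    obtain ⟨x, hx⟩ := hAmem T
    rw [← hx]
    apply hker x _ f hf
    rintro rfl
    apply hT
    apply Subtype.ext
    rw [← hx, map_zero]
    rfl
  have hnt : Nontrivial A := by
    refine ⟨⟨1, 0, fun h => ?_⟩⟩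
    have h1 : (1 : Module.End K (Seq t L m)) = 0 := congrArg Subtype.val h
    have h2 := LinearMap.congr_fun h1 (one_seq t L hm)
    exact one_seq_ne hm h2
  have hnzd : NoZeroDivisors A := by
    refine ⟨?_⟩
    intro S T hST
    by_contra hcon
    push Not at hcon
    have h1 := hAker S hcon.1 _ (hAker T hcon.2 _ (one_seq_ne hm))
    apply h1
    have h2 : S.1 * T.1 = 0 := congrArg Subtype.val hST
    exact LinearMap.congr_fun h2 (one_seq t L hm)
  have hdom : IsDomain A := NoZeroDivisors.to_isDomain A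
  let Ψ : (Fin m → L) ≃ₗ[K] A := LinearEquiv.ofInjective (Phi t σ hσ) hinj
  have hΨ : ∀ x, (Ψ x).1 = Phi t σ hσ x := fun _ => rfl
  have hfdA : FiniteDimensional K A := Ψ.finiteDimensional
  have hfinA : Module.finrank K A = m * m := by
    rw [← Ψ.finrank_eq, Module.finrank_pi_fintype]
    simp only [hdim, Finset.sum_const, Finset.card_univ, Fintype.card_fin, smul_eq_mul]
  -- the generators
  let Z : A := ⟨mulA t σ hσ ζ, by
    have h1 := mem_range (t := t) (σ := σ) (hσ := hσ) hm ζ 0
    rw [pow_zero, mul_one] at h1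
    exact h1⟩
  let P : A := ⟨shift t L m, by
    have h1 := mem_range (t := t) (σ := σ) (hσ := hσ) hm (1 : L) 1
    rw [map_one, one_mul, pow_one] at h1
    exact h1⟩
  have hZ : ∀ i : ℕ, (Z ^ i).1 = mulA t σ hσ (ζ ^ i) := fun i => (map_pow _ _ _).symm
  have hP : ∀ i : ℕ, (P ^ i).1 = shift t L m ^ i := fun i => rfl
  have hPm : P ^ m = algebraMap K A t := Subtype.ext shift_m
  have hPne : P ≠ 0 := by
    intro h0
    rw [h0, zero_pow hm.ne'] at hPm
    have h1 : algebraMap K A t = 0 := hPm.symm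
    rw [map_eq_zero_iff _ (algebraMap K A).injective] at h1
    exact ht.t0 h1
  -- the centre
  have hcen : Algebra.IsCentral K A := by
    refine ⟨?_⟩
    intro T hT
    rw [Subalgebra.mem_center_iff] at hT
    obtain ⟨x, hx⟩ := hAmem T
    have h1 : Phi t σ hσ (fun j => ζ * x j) = Phi t σ hσ (fun j => x j * (σ ^ (j : ℕ)) ζ) := by
      have e1 : Phi t σ hσ (fun j => ζ * x j) = Z.1 * T.1 := by
        rw [← hx, Phi_def, Phi_def, Finset.mul_sum]
        apply Finset.sum_congr rfl
        intro j _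
        rw [map_mul, mul_assoc]
      have e2 : Phi t σ hσ (fun j => x j * (σ ^ (j : ℕ)) ζ) = T.1 * Z.1 := by
        rw [← hx, Phi_def, Phi_def, Finset.sum_mul]
        apply Finset.sum_congr rfl
        intro j _
        rw [mul_assoc]
        change _ = mulA t σ hσ (x j) * (shift t L m ^ (j : ℕ) * mulA t σ hσ ζ)
        rw [shift_pow_mulA, map_mul, mul_assoc]
      rw [e1, e2]
      exact congrArg Subtype.val (hT Z)
    have h2 := hinj h1
    have h3 : ∀ j : Fin m, j ≠ ⟨0, hm⟩ → x j = 0 := by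
      intro j hj
      have h4 := congrFun h2 j
      by_contra hxj
      rw [mul_comm (x j)] at h4
      have h5 := mul_right_cancel₀ hxj h4
      have h6 := (ho j).1 h5.symm
      apply hj
      have h7 := Nat.eq_zero_of_dvd_of_lt h6 j.2
      exact Fin.ext h7
    have h4 : x = Pi.single ⟨0, hm⟩ (x ⟨0, hm⟩) := by
      funext j
      by_cases hj : j = ⟨0, hm⟩
      · rw [hj, Pi.single_eq_same]
      · rw [h3 j hj, Pi.single_eq_of_ne hj]
    have h5 : T.1 = mulA t σ hσ (x ⟨0, hm⟩) := by
      rw [← hx, h4, Phi_single, Pi.single_eq_same]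
      change mulA t σ hσ (x ⟨0, hm⟩) * shift t L m ^ 0 = _
      rw [pow_zero, mul_one]
    have h6 : σ (x ⟨0, hm⟩) = x ⟨0, hm⟩ := by
      have e1 : P * T = T * P := (hT P).symm ▸ rfl
      have e2 : shift t L m * mulA t σ hσ (x ⟨0, hm⟩) =
          mulA t σ hσ (x ⟨0, hm⟩) * shift t L m := by
        rw [← h5]
        exact congrArg Subtype.val e1
      rw [shift_mulA] at e2
      let X : A := ⟨mulA t σ hσ (σ (x ⟨0, hm⟩)), by
        have h1 := mem_range (t := t) (σ := σ) (hσ := hσ) hm (σ (x ⟨0, hm⟩)) 0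
        rw [pow_zero, mul_one] at h1
        exact h1⟩
      let Y : A := ⟨mulA t σ hσ (x ⟨0, hm⟩), by
        have h1 := mem_range (t := t) (σ := σ) (hσ := hσ) hm (x ⟨0, hm⟩) 0
        rw [pow_zero, mul_one] at h1
        exact h1⟩
      have e3 : X * P = Y * P := Subtype.ext e2
      have e4 : X = Y := mul_right_cancel₀ hPne e3
      exact hAinj (congrArg Subtype.val e4)
    obtain ⟨c, hc⟩ := fixed_K pb hd hσ ho h6
    rw [Algebra.mem_bot]
    refine ⟨c, Subtype.ext ?_⟩
    rw [h5, ← hc, AlgHom.commutes]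
    rfl
  -- the basis
  have hli : LinearIndependent K (fun k : Fin m × Fin m => Z ^ (k.1 : ℕ) * P ^ (k.2 : ℕ)) := by
    rw [Fintype.linearIndependent_iff]
    intro g hg
    have h1 : Phi t σ hσ (fun j => ∑ i : Fin m, g (i, j) • ζ ^ (i : ℕ)) = 0 := by
      have h2 : (∑ k, g k • (Z ^ (k.1 : ℕ) * P ^ (k.2 : ℕ)) : A).1 = 0 := by
        rw [hg]
        rfl
      rw [AddSubmonoidClass.coe_finsetSum, Fintype.sum_prod_type_right] at h2
      rw [Phi_def, ← h2]
      apply Finset.sum_congr rfl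
      intro j _
      rw [map_sum, Finset.sum_mul]
      apply Finset.sum_congr rfl
      intro i _
      change _ = g (i, j) • ((Z ^ (i : ℕ)).1 * (P ^ (j : ℕ)).1)
      rw [hZ, hP, map_smul, smul_mul_assoc]
    have h2 : (fun j => ∑ i : Fin m, g (i, j) • ζ ^ (i : ℕ)) = 0 := hinj (by rw [h1, map_zero])
    have hpl : LinearIndependent K (fun i : Fin pb.dim => ζ ^ (i : ℕ)) := by
      have h3 := pb.basis.linearIndependent
      rwa [pb.coe_basis] at h3
    rintro ⟨i, j⟩
    have h3 := congrFun h2 j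
    simp only [Pi.zero_apply] at h3
    subst hd
    rw [Fintype.linearIndependent_iff] at hpl
    exact hpl (fun i => g (i, j)) h3 i
  have hnem : Nonempty (Fin m) := ⟨⟨0, hm⟩⟩
  apply mk_division A
  refine ⟨Z, P, basisOfLinearIndependentOfCardEqFinrank hli (by
    rw [hfinA, Fintype.card_prod, Fintype.card_fin]), ?_, ?_, hPm, ?_⟩
  · rw [← hζ]
    have h1 := orderOf_injective (mulA t σ hσ : L →* Module.End K (Seq t L m)) hAinj ζ
    have h2 := orderOf_injective (A.val : A →* Module.End K (Seq t L m))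
      Subtype.val_injective Z
    rw [← h1, ← h2]
    rfl
  · apply Subtype.ext
    change shift t L m * mulA t σ hσ ζ = (Z ^ (p ^ r)).1 * shift t L m
    rw [shift_mulA, hσζ, hZ]
  · intro k
    rw [coe_basisOfLinearIndependentOfCardEqFinrank]

end Pool.Agent.Helper28.BR
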