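import Mathlib

/-!
# Facts about finite fields
-/

set_option autoImplicit false

universe z

open scoped IntermediateField

namespace Pool.Agent.Helper28.BR

theorem ff_data (p : ℕ) [hp : Fact p.Prime] (Q : Type z) [Field Q] [Finite Q] [CharP Q p] :
    ∃ (f : ℕ) (g : Q), 0 < f ∧ g ≠ 0 ∧ (∀ y : Q, y ≠ 0 → ∃ k : ℕ, y = g ^ k) ∧
      (∀ y : Q, y ^ (p ^ f) = y) ∧
      (∀ y : Q, ∃ z : Fin f → ZMod p,
        y = ∑ i, ZMod.castHom (dvd_refl p) Q (z i) * g ^ (i : ℕ)) ∧
      (∀ z : Fin f → ZMod p, ∑ i, ZMod.castHom (dvd_refl p) Q (z i) * g ^ (i : ℕ) = 0 → z = 0) ∧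
      (∀ k : ℕ, g ^ k = 1 ↔ p ^ f - 1 ∣ k) ∧
      ∀ σ : Q ≃+* Q, ∃ r : ℕ, σ g = g ^ (p ^ r) := by
  classical
  have : Fintype Q := Fintype.ofFinite Q
  let alg : Algebra (ZMod p) Q := ZMod.algebra Q p
  have halg : ∀ c : ZMod p, algebraMap (ZMod p) Q c = ZMod.castHom (dvd_refl p) Q c := fun _ => rfl
  obtain ⟨γ, hγ⟩ := IsCyclic.exists_generator (α := Qˣ)
  set g : Q := Units.val γ with hg
  have hgen : ∀ y : Q, y ≠ 0 → ∃ k : ℕ, y = g ^ k := by
    intro y hy
    obtain ⟨k, hk⟩ := (mem_powers_iff_mem_zpowers.2 (hγ (Units.mk0 y hy)))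
    refine ⟨k, ?_⟩
    have h1 := congrArg Units.val hk
    simp only [Units.val_pow_eq_pow_val, Units.val_mk0] at h1
    exact h1.symm
  have hcard : Fintype.card Q = p ^ Module.finrank (ZMod p) Q := by
    rw [Module.card_eq_pow_finrank (K := ZMod p) (V := Q), ZMod.card]
  have htop : (ZMod p)⟮g⟯ = ⊤ := by
    rw [eq_top_iff]
    intro y _
    by_cases hy : y = 0
    · rw [hy]
      exact zero_mem _
    · obtain ⟨k, rfl⟩ := hgen y hy
      exact pow_mem (IntermediateField.mem_adjoin_simple_self _ g) k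
  have hdeg := (Field.primitive_element_iff_minpoly_natDegree_eq (ZMod p) g).1 htop
  have hli := linearIndependent_pow (K := ZMod p) g
  rw [hdeg] at hli
  refine ⟨Module.finrank (ZMod p) Q, g, Module.finrank_pos, γ.ne_zero, hgen, ?_, ?_, ?_, ?_, ?_⟩
  · intro y
    rw [← hcard]
    exact FiniteField.pow_card y
  · intro y
    have hspan := hli.span_eq_top_of_card_eq_finrank' (by rw [Fintype.card_fin])
    have hy : y ∈ Submodule.span (ZMod p)
        (Set.range fun i : Fin (Module.finrank (ZMod p) Q) => g ^ (i : ℕ)) := by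
      rw [hspan]
      exact Submodule.mem_top
    obtain ⟨c, hc⟩ := (Submodule.mem_span_range_iff_exists_fun (ZMod p)).1 hy
    refine ⟨c, ?_⟩
    rw [← hc]
    apply Finset.sum_congr rfl
    intro i _
    rw [Algebra.smul_def, halg]
  · intro z hz
    rw [Fintype.linearIndependent_iff] at hli
    funext i
    refine hli z ?_ i
    rw [← hz]
    apply Finset.sum_congr rfl
    intro j _
    rw [Algebra.smul_def, halg]
  · intro k
    have h1 : orderOf γ = p ^ Module.finrank (ZMod p) Q - 1 := by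
      rw [orderOf_eq_card_of_forall_mem_zpowers hγ, Nat.card_units, Nat.card_eq_fintype_card,
        hcard]
    rw [← h1, orderOf_dvd_iff_pow_eq_one, Units.ext_iff, Units.val_pow_eq_pow_val, Units.val_one]
  · intro σ
    have hσ : ∀ c : ZMod p, σ (algebraMap (ZMod p) Q c) = algebraMap (ZMod p) Q c := by
      intro c
      have h1 : (σ : Q →+* Q).comp (algebraMap (ZMod p) Q) = algebraMap (ZMod p) Q :=
        RingHom.ext_zmod _ _
      exact RingHom.congr_fun h1 c
    let τ : Q ≃ₐ[ZMod p] Q := AlgEquiv.ofRingEquiv (f := σ) hσ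
    obtain ⟨n, hn⟩ := (FiniteField.bijective_frobeniusAlgEquivOfAlgebraic_pow (ZMod p) Q).2 τ
    refine ⟨n, ?_⟩
    have h2 : σ g = τ g := rfl
    rw [h2, ← hn]
    simp only
    rw [AlgEquiv.coe_pow, FiniteField.coe_frobeniusAlgEquivOfAlgebraic, pow_iterate, ZMod.card]

end Pool.Agent.Helper28.BR
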