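import Pool.Agent.Helper28.BR.FF

/-!
# Facts about finite domains
-/

set_option autoImplicit false

universe z

namespace Pool.Agent.Helper28.BR

theorem ff_data' (p : ℕ) [hp : Fact p.Prime] (Q : Type z) [R : Ring Q] [IsDomain Q] [Finite Q]
    [CharP Q p] :
    (∀ x y : Q, x * y = y * x) ∧
    ∃ (f : ℕ) (g : Q), 0 < f ∧ g ≠ 0 ∧ (∀ y : Q, y ≠ 0 → ∃ k : ℕ, y = g ^ k) ∧
      (∀ y : Q, y ^ (p ^ f) = y) ∧
      (∀ y : Q, ∃ z : Fin f → ZMod p,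
        y = ∑ i, ZMod.castHom (dvd_refl p) Q (z i) * g ^ (i : ℕ)) ∧
      (∀ z : Fin f → ZMod p, ∑ i, ZMod.castHom (dvd_refl p) Q (z i) * g ^ (i : ℕ) = 0 → z = 0) ∧
      (∀ k : ℕ, g ^ k = 1 ↔ p ^ f - 1 ∣ k) ∧
      ∀ σ : Q ≃+* Q, ∃ r : ℕ, σ g = g ^ (p ^ r) := by
  have h := Finite.isDomain_to_isField Q
  refine ⟨h.mul_comm, ?_⟩
  let F : Field Q := h.toField
  have h2 := ff_data p Q
  exact h2

end Pool.Agent.Helper28.BR
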