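import Pool.Agent.Helper28.EX.Form

/-!
# Monic irreducible polynomials with integral constant coefficient are integral
-/

set_option autoImplicit false

universe u w

open Polynomial

namespace Pool.Agent.Helper28.BR

open Pool.Agent.Helper28.EX

variable {p : ℕ} [hp : Fact p.Prime] {K : Type u} {Γ : Type w} [Field K]
  [LinearOrderedCommGroupWithZero Γ] {v : Valuation K Γ} {t : K}

theorem dvd_of_le {x y : v.integer} (h : v (x : K) ≤ v (y : K)) : y ∣ x :=
  (Valuation.integer.integers v).dvd_of_le h

/-- the monic polynomial with the coefficients `c i` -/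
noncomputable def mon {R : Type*} [Semiring R] {j : ℕ} (c : Fin j → R) : R[X] :=
  X ^ j + ∑ i : Fin j, C (c i) * X ^ (i : ℕ)

theorem mon_monic {R : Type*} [Ring R] {j : ℕ} (c : Fin j → R) : (mon c).Monic :=
  monic_X_pow_add (degree_sum_fin_lt c)

theorem mon_natDegree {R : Type*} [Ring R] [Nontrivial R] {j : ℕ} (c : Fin j → R) :
    (mon c).natDegree = j := by
  unfold mon
  rw [natDegree_add_eq_left_of_degree_lt]
  · exact natDegree_X_pow j
  · rw [degree_X_pow]
    exact degree_sum_fin_lt c

theorem mon_map {R S : Type*} [Ring R] [Ring S] {j : ℕ} (c : Fin j → R) (f : R →+* S) :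
    (mon c).map f = mon fun i => f (c i) := by
  unfold mon
  rw [Polynomial.map_add, Polynomial.map_pow, map_X, Polynomial.map_sum]
  simp only [Polynomial.map_mul, map_C, Polynomial.map_pow, map_X]

theorem coeff_sum_fin {R : Type*} [Semiring R] {j : ℕ} (c : Fin j → R) (k : ℕ) :
    (∑ i : Fin j, C (c i) * X ^ (i : ℕ)).coeff k = if h : k < j then c ⟨k, h⟩ else 0 := by
  rw [finsetSum_coeff]
  simp only [coeff_C_mul, coeff_X_pow]
  split_ifs with h
  · rw [Finset.sum_eq_single ⟨k, h⟩]
    · simp
    · intro b _ hb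
      rw [if_neg, mul_zero]
      intro hk
      exact hb (Fin.ext hk.symm)
    · intro hn
      exact absurd (Finset.mem_univ _) hn
  · apply Finset.sum_eq_zero
    intro b _
    rw [if_neg, mul_zero]
    intro hk
    have := b.2
    omega

theorem eq_sum_fin {R : Type*} [Semiring R] {j : ℕ} {P : R[X]} (h : P.degree < j) :
    P = ∑ i : Fin j, C (P.coeff i) * X ^ (i : ℕ) := by
  ext k
  rw [coeff_sum_fin (fun i : Fin j => P.coeff i) k]
  split_ifs with hk
  · rfl
  · apply coeff_eq_zero_of_degree_lt
    refine h.trans_le ?_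
    exact_mod_cast not_lt.1 hk

/-- Hensel's lemma for a factorisation `Q ≡ Q * 1` -/
theorem exists_fac (hE : Extremal v) (hU : Unif p v t) [CharP K p] (Q : v.integer[X]) (j : ℕ)
    (hj : Q.coeff j = 1) (hQ : ∀ i, j < i → v (Q.coeff i : K) < 1) :
    ∃ G : v.integer[X], G.Monic ∧ G.natDegree = j ∧ G ∣ Q := by
  classical
  set t' : v.integer := ⟨t, hU.t1.le⟩ with ht'
  have ht0 : t' ≠ 0 := fun h => hU.t0 (congrArg Subtype.val h)
  have hdt : ∀ x : v.integer, v (x : K) < 1 → t' ∣ x := fun x hx => dvd_of_le (hU.max _ hx)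
  -- the family
  let G : (Fin j → v.integer) → v.integer[X] := fun a => mon fun i => Q.coeff i + t' * a i
  have hGm : ∀ a, (G a).Monic := fun a => mon_monic _
  let Gg : (MvPolynomial (Fin j) K)[X] := mon fun i : Fin j =>
    MvPolynomial.C ((Q.coeff i : v.integer) : K) + MvPolynomial.C t * MvPolynomial.X i
  let wk : ℕ → MvPolynomial (Fin j) K := fun k =>
    (((Q.map v.integer.subtype).map MvPolynomial.C) %ₘ Gg).coeff k
  have hwk : ∀ (a : Fin j → v.integer) (k : ℕ),
      MvPolynomial.eval (fun i => (a i : K)) (wk k) = ((Q %ₘ G a).coeff k : K) := by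
    intro a k
    have h1 : (((Q.map v.integer.subtype).map MvPolynomial.C) %ₘ Gg).map
        (MvPolynomial.eval (fun i => (a i : K))) = (Q %ₘ G a).map v.integer.subtype := by
      rw [map_modByMonic _ (mon_monic _), map_modByMonic _ (hGm a), map_map]
      congr 1
      · have h2 : (MvPolynomial.eval (fun i => (a i : K))).comp MvPolynomial.C =
            RingHom.id K := by
          ext x
          simp
        rw [h2, Polynomial.map_id]
      · rw [mon_map, mon_map]
        congr 1
        funext i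
        simp [ht']
    have h2 := congrArg (fun P => coeff P k) h1
    simp only [coeff_map] at h2
    exact h2
  obtain ⟨Ψ, d, hd, hΨ⟩ := form (n := j) hU (Finset.range j) wk
  obtain ⟨a0, ha0, hmin⟩ := hE j Ψ
  let a : Fin j → v.integer := fun i => ⟨a0 i, ha0 i⟩
  have hmin' : ∀ b : Fin j → v.integer,
      ((Finset.range j).sup fun k => v ((Q %ₘ G a).coeff k : K)) ≤
        (Finset.range j).sup fun k => v ((Q %ₘ G b).coeff k : K) := by
    intro b
    have h1 := hmin (fun i => (b i : K)) (fun i => (b i).2)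
    rw [hΨ, hΨ] at h1
    have h2 := hwk b
    have h3 := hwk a
    have h4 : (fun i => ((a i : v.integer) : K)) = a0 := rfl
    rw [h4] at h3
    simp only [h2, h3] at h1
    exact (pow_le_pow_iff_left₀ zero_le zero_le hd.ne').1 h1
  by_cases hR : Q %ₘ G a = 0
  · exact ⟨G a, hGm a, mon_natDegree _, (modByMonic_eq_zero_iff_dvd (hGm a)).1 hR⟩
  exfalso
  set R := Q %ₘ G a with hRdef
  set H := Q /ₘ G a with hHdef
  have hdiv : R + G a * H = Q := modByMonic_add_div Q (G a)
  have hdegG : ∀ b, (G b).degree = j := by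
    intro b
    rw [degree_eq_natDegree (hGm b).ne_zero, mon_natDegree]
  have hRdeg : R.degree < j := by
    rw [← hdegG a]
    exact degree_modByMonic_lt Q (hGm a)
  -- `Q ≡ G a` modulo `t`
  have hQG : C t' ∣ Q - G a := by
    rw [C_dvd_iff_dvd_coeff]
    intro k
    rw [coeff_sub]
    simp only [G, mon]
    rw [coeff_add, coeff_X_pow, coeff_sum_fin (fun i : Fin j => Q.coeff i + t' * a i) k]
    rcases lt_trichotomy k j with hk | hk | hk
    · rw [if_neg hk.ne, dif_pos hk]
      exact ⟨-a ⟨k, hk⟩, by ring⟩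
    · rw [if_pos hk, dif_neg (by omega), hk, hj]
      exact ⟨0, by ring⟩
    · rw [if_neg hk.ne', dif_neg (by omega)]
      have := hdt _ (hQ k hk)
      rwa [zero_add, sub_zero]
  obtain ⟨S, hS⟩ := hQG
  have huniq := div_modByMonic_unique (H - 1) R (hGm a) (f := Q - G a) ⟨by
    rw [mul_sub, mul_one, ← hdiv]; ring, by rw [hdegG]; exact hRdeg⟩
  have huniq2 := div_modByMonic_unique (C t' * (S /ₘ G a)) (C t' * (S %ₘ G a)) (hGm a)
    (f := Q - G a) ⟨by
      have h1 := modByMonic_add_div S (G a)
      rw [hS]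
      nth_rewrite 3 [← h1]
      ring, by
      rw [degree_C_mul ht0]
      exact degree_modByMonic_lt S (hGm a)⟩
  have hR1 : R = C t' * (S %ₘ G a) := huniq.2.symm.trans huniq2.2
  have hH1 : H - 1 = C t' * (S /ₘ G a) := huniq.1.symm.trans huniq2.1
  -- the largest coefficient of `R`
  have hne : ∃ k, k < j ∧ R.coeff k ≠ 0 := by
    by_contra hall
    push Not at hall
    apply hR
    ext k
    rw [coeff_zero]
    by_cases hk : k < j
    · exact congrArg Subtype.val (hall k hk)
    · have h1 : R.coeff k = 0 := coeff_eq_zero_of_degree_lt (hRdeg.trans_le (by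
        exact_mod_cast not_lt.1 hk))
      exact congrArg Subtype.val h1
  obtain ⟨k0, hk0, hk0'⟩ := hne
  obtain ⟨i0, hi0, hi0max⟩ := Finset.exists_max_image (Finset.range j)
    (fun k => v (R.coeff k : K)) ⟨k0, Finset.mem_range.2 hk0⟩
  have hβ0 : R.coeff i0 ≠ 0 := by
    intro h0
    have h1 := hi0max k0 (Finset.mem_range.2 hk0)
    rw [h0] at h1
    apply hk0'
    apply Subtype.ext
    have h2 : v ((R.coeff k0 : v.integer) : K) ≤ 0 := by
      refine h1.trans ?_
      rw [ZeroMemClass.coe_zero, map_zero]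
    rwa [le_zero_iff, Valuation.zero_iff] at h2
  set β := R.coeff i0 with hβ
  have hRβ : C β ∣ R := by
    rw [C_dvd_iff_dvd_coeff]
    intro k
    by_cases hk : k < j
    · exact dvd_of_le (hi0max k (Finset.mem_range.2 hk))
    · rw [coeff_eq_zero_of_degree_lt (hRdeg.trans_le (by exact_mod_cast not_lt.1 hk))]
      exact dvd_zero _
  obtain ⟨R', hR'⟩ := hRβ
  -- the improved point
  let b : Fin j → v.integer := fun i => a i + (S %ₘ G a).coeff i
  have hGb : G b = G a + R := by
    have h1 : R = ∑ i : Fin j, C (t' * (S %ₘ G a).coeff i) * X ^ (i : ℕ) := by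
      conv_lhs => rw [eq_sum_fin hRdeg]
      apply Finset.sum_congr rfl
      intro i _
      rw [hR1, coeff_C_mul]
    rw [h1]
    simp only [G, mon, b]
    rw [add_assoc, ← Finset.sum_add_distrib]
    congr 1
    apply Finset.sum_congr rfl
    intro i _
    rw [mul_add, ← add_assoc, C_add, add_mul]
  have hmod : Q %ₘ G b = C (β * t') * (-(R' * (S /ₘ G a)) %ₘ G b) := by
    have h1 := modByMonic_add_div (-(R' * (S /ₘ G a))) (G b)
    refine (div_modByMonic_unique
      (H + C (β * t') * (-(R' * (S /ₘ G a)) /ₘ G b)) _ (hGm b) ⟨?_, ?_⟩).2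
    · have h2 : C (β * t') * (-(R' * (S /ₘ G a)) %ₘ G b) +
          G b * (H + C (β * t') * (-(R' * (S /ₘ G a)) /ₘ G b)) =
          C (β * t') * (-(R' * (S /ₘ G a)) %ₘ G b + G b * (-(R' * (S /ₘ G a)) /ₘ G b)) +
            G b * H := by ring
      have h3 : H = 1 + C t' * (S /ₘ G a) := by linear_combination hH1
      rw [h2, h1, hGb, C_mul]
      have h4 : C β * C t' * -(R' * (S /ₘ G a)) + (G a + R) * H =
          R + G a * H + (R * (H - 1) - (C β * R') * (C t' * (S /ₘ G a))) := by ring
      rw [h4, ← hR', hH1, sub_self, add_zero, hdiv]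
    · rw [degree_C_mul (mul_ne_zero hβ0 ht0)]
      exact degree_modByMonic_lt _ (hGm b)
  have hlt : ((Finset.range j).sup fun k => v ((Q %ₘ G b).coeff k : K)) < v (β : K) := by
    have hβpos : 0 < v (β : K) := by
      rw [zero_lt_iff, Valuation.ne_zero_iff]
      exact fun h => hβ0 (Subtype.ext h)
    rw [Finset.sup_lt_iff (by rw [bot_eq_zero]; exact hβpos)]
    intro k _
    rw [hmod, coeff_C_mul]
    have h1 : v ((β * t' * (-(R' * (S /ₘ G a)) %ₘ G b).coeff k : v.integer) : K) =
        v (β : K) * v t * v (((-(R' * (S /ₘ G a)) %ₘ G b).coeff k : v.integer) : K) := by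
      push_cast
      rw [map_mul, map_mul]
    rw [h1]
    calc v (β : K) * v t * v (((-(R' * (S /ₘ G a)) %ₘ G b).coeff k : v.integer) : K) ≤
        v (β : K) * v t * 1 := by
          refine mul_le_mul_right ?_ _
          exact ((-(R' * (S /ₘ G a)) %ₘ G b).coeff k).2
      _ = v (β : K) * v t := mul_one _
      _ < v (β : K) * 1 := mul_lt_mul_of_pos_left hU.t1 hβpos
      _ = v (β : K) := mul_one _
  have hge : v (β : K) ≤ (Finset.range j).sup fun k => v ((Q %ₘ G a).coeff k : K) :=
    Finset.le_sup (f := fun k => v ((Q %ₘ G a).coeff k : K)) hi0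
  exact absurd (hge.trans (hmin' b)) (not_le.2 hlt)

/-- a monic irreducible polynomial with integral constant coefficient has integral
coefficients -/
theorem int_of_irred (hE : Extremal v) (hU : Unif p v t) [CharP K p] {q : K[X]} (hm : q.Monic)
    (hi : Irreducible q) (h0 : v (q.coeff 0) ≤ 1) (i : ℕ) : v (q.coeff i) ≤ 1 := by
  classical
  by_contra hcon
  rw [not_le] at hcon
  set l := q.natDegree with hl
  have hil : i ∈ Finset.range (l + 1) := by
    rw [Finset.mem_range]
    by_contra hn
    rw [coeff_eq_zero_of_natDegree_lt (by omega), map_zero] at hcon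
    exact not_lt_zero hcon
  obtain ⟨i1, hi1, hi1max⟩ := Finset.exists_max_image (Finset.range (l + 1))
    (fun k => v (q.coeff k)) ⟨i, hil⟩
  set T := (Finset.range (l + 1)).filter (fun k => v (q.coeff k) = v (q.coeff i1)) with hT
  have hTne : T.Nonempty := ⟨i1, Finset.mem_filter.2 ⟨hi1, rfl⟩⟩
  set j := T.max' hTne with hjdef
  have hjT : j ∈ T := T.max'_mem hTne
  have hjv : v (q.coeff j) = v (q.coeff i1) := (Finset.mem_filter.1 hjT).2
  have hj1 : 1 < v (q.coeff j) := by
    rw [hjv]
    exact hcon.trans_le (hi1max i hil)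
  have hle : ∀ k, v (q.coeff k) ≤ v (q.coeff j) := by
    intro k
    by_cases hk : k ∈ Finset.range (l + 1)
    · rw [hjv]
      exact hi1max k hk
    · rw [Finset.mem_range] at hk
      rw [coeff_eq_zero_of_natDegree_lt (by omega), map_zero]
      exact zero_le
  have hlt : ∀ k, j < k → v (q.coeff k) < v (q.coeff j) := by
    intro k hk
    refine lt_of_le_of_ne (hle k) fun heq => ?_
    have hkr : k ∈ Finset.range (l + 1) := by
      rw [Finset.mem_range]
      by_contra hn
      rw [coeff_eq_zero_of_natDegree_lt (by omega), map_zero] at heq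
      rw [← heq] at hj1
      exact not_lt_zero hj1
    have hkT : k ∈ T := Finset.mem_filter.2 ⟨hkr, heq.trans hjv⟩
    exact absurd (T.le_max' k hkT) (not_le.2 hk)
  have hj0 : j ≠ 0 := by
    intro h
    rw [h] at hj1
    exact absurd h0 (not_le.2 hj1)
  have hjl : j < l := by
    have h1 : j ≤ l := by
      have := Finset.mem_range.1 (Finset.mem_filter.1 hjT).1
      omega
    refine lt_of_le_of_ne h1 fun h => ?_
    rw [h, hl, hm.coeff_natDegree, map_one] at hj1
    exact lt_irrefl _ hj1
  have hqj0 : q.coeff j ≠ 0 := by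
    intro h
    rw [h, map_zero] at hj1
    exact not_lt_zero hj1
  have hpos : 0 < v (q.coeff j) := zero_lt_one.trans hj1
  -- the scaled polynomial
  have hint : ∀ k, v ((C (q.coeff j)⁻¹ * q).coeff k) ≤ 1 := by
    intro k
    rw [coeff_C_mul, map_mul, map_inv₀, inv_mul_le_iff₀ hpos, mul_one]
    exact hle k
  obtain ⟨Q, hQ⟩ : ∃ Q : v.integer[X], Q.map v.integer.subtype = C (q.coeff j)⁻¹ * q := by
    have h1 : C (q.coeff j)⁻¹ * q ∈ Polynomial.lifts v.integer.subtype := by
      rw [lifts_iff_coeff_lifts]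
      intro k
      exact ⟨⟨_, hint k⟩, rfl⟩
    exact (Polynomial.mem_lifts _).1 h1
  have hQc : ∀ k, ((Q.coeff k : v.integer) : K) = (q.coeff j)⁻¹ * q.coeff k := by
    intro k
    have h1 := congrArg (fun P => coeff P k) hQ
    simp only [coeff_map, coeff_C_mul] at h1
    exact h1
  obtain ⟨G, hGm, hGd, hGQ⟩ := exists_fac hE hU Q j (by
    apply Subtype.ext
    rw [hQc, inv_mul_cancel₀ hqj0]
    rfl) (by
    intro k hk
    rw [hQc, map_mul, map_inv₀, inv_mul_lt_iff₀ hpos, mul_one]
    exact hlt k hk)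
  obtain ⟨H, hH⟩ := hGQ
  have hfac : q = (C (q.coeff j) * H.map v.integer.subtype) * G.map v.integer.subtype := by
    have h1 : C (q.coeff j) * (C (q.coeff j)⁻¹ * q) = q := by
      rw [← mul_assoc, ← C_mul, mul_inv_cancel₀ hqj0, C_1, one_mul]
    calc q = C (q.coeff j) * (C (q.coeff j)⁻¹ * q) := h1.symm
      _ = C (q.coeff j) * (G.map v.integer.subtype * H.map v.integer.subtype) := by
          rw [← hQ, hH, Polynomial.map_mul]
      _ = _ := by ring
  have hGdeg : (G.map v.integer.subtype).natDegree = j := by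
    rw [hGm.natDegree_map, hGd]
  rcases hi.isUnit_or_isUnit hfac with h1 | h1
  · have h2 : q.natDegree = j := by
      rw [hfac, natDegree_mul h1.ne_zero (hGm.map _).ne_zero, hGdeg,
        natDegree_eq_zero_of_isUnit h1, zero_add]
    omega
  · have h2 := natDegree_eq_zero_of_isUnit h1
    omega

end Pool.Agent.Helper28.BR
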