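import Pool.Agent.Helper28.BR.GoodOf
import Pool.Agent.Helper65.BR.Compl

/-!
# BR, block GOOD: Azumaya algebras over a domain, specialised to number fields
-/

set_option autoImplicit false

namespace Pool.Agent.Helper28.BR

open TensorProduct IsLocalRing Pool.Agent.Helper62.BR NumberField IsDedekindDomain

/-- the rank of a specialisation -/
theorem finrank_spec {R A : Type} [CommRing R] [IsDomain R] [AddCommGroup A] [Module R A]
    [Module.Finite R A] [Module.Projective R A] (M : Type) [Field M] [Algebra R M]
    (M' : Type) [Field M'] [Algebra R M'] :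
    Module.finrank M (M ⊗[R] A) = Module.finrank M' (M' ⊗[R] A) := by
  have h0 : ∀ (M : Type) [Field M] [Algebra R M], Module.finrank M (M ⊗[R] A) =
      Module.rankAtStalk (R := R) A ((⊥ : PrimeSpectrum M).comap (algebraMap R M)) := by
    intro M _ _
    rw [← Module.rankAtStalk_baseChange, Module.rankAtStalk_eq_finrank_of_free]
    rfl
  rw [h0 M, h0 M']
  have hfp : Module.FinitePresentation R A := Module.finitePresentation_of_projective R A
  have hlc : IsLocallyConstant (Module.rankAtStalk (R := R) A) :=
    Module.isLocallyConstant_rankAtStalk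
  exact hlc.apply_eq_of_preconnectedSpace _ _

/-- every specialisation of an Azumaya algebra over a domain is central simple -/
theorem spec_cs {R A : Type} [CommRing R] [IsDomain R] [Ring A] [Algebra R A] [IsAzumaya R A]
    (m : ℕ) (hm : 0 < m)
    (hr : Module.finrank (FractionRing R) (FractionRing R ⊗[R] A) = m ^ 2)
    (M : Type) [Field M] [Algebra R M] :
    IsSimpleRing (M ⊗[R] A) ∧ Algebra.IsCentral M (M ⊗[R] A) ∧
      Module.finrank M (M ⊗[R] A) = m ^ 2 := by
  have h1 : Module.finrank M (M ⊗[R] A) = m ^ 2 := by
    rw [← hr]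
    exact finrank_spec M (FractionRing R)
  have hnt : Nontrivial (M ⊗[R] A) := by
    refine Module.nontrivial_of_finrank_pos (R := M) ?_
    rw [h1]
    positivity
  obtain ⟨h2, h3⟩ := simple_of_az (az_baseChange (k := M) (az_of_azumaya (R := R) (A := A)))
  exact ⟨h2, h3, h1⟩

/-- **GOOD, Azumaya form**, from the lifting of idempotents: a finite set of elements of `R` such
that every specialisation at which they are integral at `p` has a representation over the
completion at `p` -/
theorem exists_good_of {R A : Type} [CommRing R] [IsDomain R] [Ring A] [Algebra R A]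
    [IsAzumaya R A] (m : ℕ) (hm : 0 < m)
    (hr : Module.finrank (FractionRing R) (FractionRing R ⊗[R] A) = m ^ 2)
    (hGD : ∀ (O : Type) [CommRing O] [IsLocalRing O] [IsAdicComplete (maximalIdeal O) O] (L : Type)
      [Ring L] [Algebra O L] [Module.Finite O L] [Module.Free O L]
      (e : ResidueField O ⊗[O] L), e * e = e →
      ∃ e' : L, e' * e' = e' ∧ (1 : ResidueField O) ⊗ₜ[O] e' = e) :
    ∃ G : Finset R, ∀ (M : Type) [Field M] [NumberField M] [Algebra R M]
      (p : HeightOneSpectrum (𝓞 M)),
      (∀ r ∈ G, p.valuation M (algebraMap R M r) ≤ 1) →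
      Nonempty ((M ⊗[R] A) →ₐ[M] Matrix (Fin m) (Fin m) (p.adicCompletion M)) := by
  obtain ⟨G, hG⟩ := exists_spec (az_of_azumaya (R := R) (A := A))
  refine ⟨G, fun M _ _ _ p hp => ?_⟩
  have hac : IsAdicComplete (maximalIdeal (p.adicCompletionIntegers M))
    (p.adicCompletionIntegers M) := Pool.Agent.Helper65.BR.isAdicComplete p
  have hfin : Finite (ResidueField (p.adicCompletionIntegers M)) :=
    Pool.Agent.Helper65.BR.finite_residueField p
  letI : Algebra R (p.adicCompletion M) :=
    ((algebraMap M (p.adicCompletion M)).comp (algebraMap R M)).toAlgebra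
  have hst : IsScalarTower R M (p.adicCompletion M) := IsScalarTower.of_algebraMap_eq fun x => rfl
  obtain ⟨N, g, f, h⟩ := hG (p.adicCompletionIntegers M) (p.adicCompletion M) (fun r hr => by
    have h1 : algebraMap R (p.adicCompletion M) r ∈ p.adicCompletionIntegers M := by
      rw [HeightOneSpectrum.mem_adicCompletionIntegers]
      have h2 := hp r hr
      rw [← HeightOneSpectrum.valuedAdicCompletion_eq_valuation'] at h2
      exact h2
    exact ⟨⟨_, h1⟩, rfl⟩)
  obtain ⟨ρ⟩ := good_local_of (fun L _ _ _ _ e he => hGD _ L e he) h m hm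
    (spec_cs m hm hr (p.adicCompletion M)).2.2
  exact ⟨(ρ.restrictScalars M).comp
    (Algebra.TensorProduct.map (Algebra.ofId M (p.adicCompletion M)) (AlgHom.id R A))⟩

end Pool.Agent.Helper28.BR
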