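import Pool.Agent.Helper28.BR.Adjust

/-!
# Central division algebras over extremal fields
-/

set_option autoImplicit false

universe u w z

namespace Pool.Agent.Helper28.BR

open Pool.Agent.Helper28.EX Pool.Agent.Helper28.QF

variable {p : ℕ} [hp : Fact p.Prime] {K : Type u} {Γ : Type w} [Field K]
  [LinearOrderedCommGroupWithZero Γ] {v : Valuation K Γ} {t : K}
  {D : Type z} [DivisionRing D] [Algebra K D] [FiniteDimensional K D]

/-- combinations of powers of `ζ` with coefficients in the valuation ring -/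
def Rep (v : Valuation K Γ) (ζ : D) (N : ℕ) (Y : D) : Prop :=
  ∃ a : Fin N → K, (∀ i, v (a i) ≤ 1) ∧ Y = ∑ i, a i • ζ ^ (i : ℕ)

omit [FiniteDimensional K D] in
theorem Rep.single {ζ : D} {N : ℕ} (hN : 0 < N) (hζ : ζ ^ N = 1) {c : K} (hc : v c ≤ 1)
    (k : ℕ) : Rep v ζ N (c • ζ ^ k) := by
  classical
  refine ⟨fun i => if (i : ℕ) = k % N then c else 0, ?_, ?_⟩
  · intro i
    dsimp only
    split_ifs
    · exact hc
    · rw [map_zero]
      exact zero_le_one
  · rw [Finset.sum_eq_single (⟨k % N, Nat.mod_lt _ hN⟩ : Fin N)]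
    · simp only [if_true]
      rw [← pow_eq_pow_mod k hζ]
    · intro i _ hi
      have h1 : ¬ ((i : ℕ) = k % N) := fun h => hi (Fin.ext h)
      dsimp only
      rw [if_neg h1, zero_smul]
    · intro h
      exact absurd (Finset.mem_univ _) h

omit [FiniteDimensional K D] in
theorem Rep.add {ζ : D} {N : ℕ} {Y Z : D} (hY : Rep v ζ N Y) (hZ : Rep v ζ N Z) :
    Rep v ζ N (Y + Z) := by
  obtain ⟨a, ha, rfl⟩ := hY
  obtain ⟨b, hb, rfl⟩ := hZ
  refine ⟨fun i => a i + b i, fun i => (v.map_add _ _).trans (max_le (ha i) (hb i)), ?_⟩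
  rw [← Finset.sum_add_distrib]
  apply Finset.sum_congr rfl
  intro i _
  rw [add_smul]

omit [FiniteDimensional K D] in
theorem Rep.sum {ζ : D} {N : ℕ} {ι : Type*} (s : Finset ι) {F : ι → D}
    (hF : ∀ i ∈ s, Rep v ζ N (F i)) : Rep v ζ N (∑ i ∈ s, F i) := by
  classical
  induction s using Finset.induction_on with
  | empty =>
    refine ⟨0, fun i => by rw [Pi.zero_apply, map_zero]; exact zero_le_one, ?_⟩
    simp
  | insert i s hi ih =>
    rw [Finset.sum_insert hi]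
    exact (hF i (Finset.mem_insert_self i s)).add
      (ih fun j hj => hF j (Finset.mem_insert_of_mem hj))

omit [FiniteDimensional K D] in
theorem Rep.mul {ζ : D} {N : ℕ} (hN : 0 < N) (hζ : ζ ^ N = 1) {c : K} (hc : v c ≤ 1) (k : ℕ)
    {Y : D} (hY : Rep v ζ N Y) : Rep v ζ N ((c • ζ ^ k) * Y) := by
  obtain ⟨a, ha, rfl⟩ := hY
  rw [Finset.mul_sum]
  apply Rep.sum
  intro i _
  rw [smul_mul_smul_comm, ← pow_add]
  apply Rep.single hN hζ
  rw [map_mul]
  exact mul_le_one' hc (ha i)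

/-- the prime element can be chosen with `π ^ m = t` -/
theorem adjust (hE : Extremal v) [CharP K p] [Algebra.IsCentral K D] (ht : ZUnif v t)
    {m e r : ℕ} (hm : 0 < m) (hcop : Nat.Coprime r m) {ζ π : D} (hg : GoodGen v p m ζ)
    (hζ : ζ ^ (p ^ m) = ζ) (hrel : π * ζ = ζ ^ (p ^ r) * π)
    (hspan : ∀ x : D, ∃ y : Fin m × Fin e → K,
      x = ∑ k, y k • (ζ ^ (k.1 : ℕ) * π ^ (k.2 : ℕ)))
    {c : K} (hc : π ^ m = algebraMap K D c) (hcv : v c = v t) :
    ∃ ϖ : D, ϖ * ζ = ζ ^ (p ^ r) * ϖ ∧ ϖ ^ m = algebraMap K D t := by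
  classical
  have hU := unif_of_zunif p ht
  have hvt : v t ≠ 0 := (Valuation.ne_zero_iff v).2 ht.t0
  have hζ0 : ζ ≠ 0 := zeta_ne hg
  have hζ1 := hg.one
  have hζN := zeta_pow hζ0 (pow_pos hp.out.pos m) hζ
  have hN : 0 < p ^ m - 1 := by
    have h1 : p ^ 1 ≤ p ^ m := Nat.pow_le_pow_right hp.out.pos hm
    have h2 := hp.out.two_le
    rw [pow_one] at h1
    omega
  set N := p ^ m - 1 with hNdef
  have hπ0 : π ≠ 0 := by
    rintro rfl
    rw [zero_pow hm.ne'] at hc
    have h1 : wv v (algebraMap K D c) = 0 := by rw [← hc, wv_zero]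
    rw [wv_algebraMap, hcv] at h1
    exact pow_ne_zero _ hvt h1
  have hwt : 0 < wv v (algebraMap K D t) := by
    rw [wv_algebraMap]
    exact pow_pos (zero_lt_iff.2 hvt) _
  -- minimise
  let Yf : (Fin N → K) → D := fun a => ∑ i, a i • ζ ^ (i : ℕ)
  have hYf : PolD Yf := PolD.sum _ fun i _ => PolD.smul i _
  obtain ⟨a, ha, hmin⟩ := exists_min hE
    (((hYf.mul (PolD.const π)).pow m).sub (PolD.const (algebraMap K D t)))
  have hmin' : ∀ Z : D, Rep v ζ N Z →
      wv v ((Yf a * π) ^ m - algebraMap K D t) ≤ wv v ((Z * π) ^ m - algebraMap K D t) := by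
    rintro Z ⟨b, hb, rfl⟩
    exact hmin b hb
  have hYrep : Rep v ζ N (Yf a) := ⟨a, ha, rfl⟩
  set Y := Yf a with hY
  have hYζ : Commute Y ζ := by
    rw [hY]
    simp only [Yf]
    apply Commute.sum_left
    intro i _
    exact (Commute.pow_self ζ _).smul_left _
  -- the residue
  have hlt : wv v ((Y * π) ^ m - algebraMap K D t) < wv v (algebraMap K D t) := by
    obtain ⟨k, hk⟩ := residue_norm (r := r) hE ht hm hcop hg hζ hcv
    have h1 := hmin' _ (Rep.single (v := v) hN hζN (c := 1) (by rw [map_one]) k)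
    rw [one_smul, pow_zeta_pi hrel, hc] at h1
    exact h1.trans_lt hk
  set ϖ := Y * π with hϖ
  have hϖrel : ϖ * ζ = ζ ^ (p ^ r) * ϖ := by
    rw [hϖ, mul_assoc, hrel, ← mul_assoc, (hYζ.pow_right (p ^ r)).eq, mul_assoc]
  have hϖm0 : ϖ ^ m ≠ 0 := by
    intro h0
    rw [h0, zero_sub, wv_neg] at hlt
    exact lt_irrefl _ hlt
  have hϖ0 : ϖ ≠ 0 := by
    intro h0
    apply hϖm0
    rw [h0, zero_pow hm.ne']
  have hY0 : Y ≠ 0 := by
    intro h0
    apply hϖ0
    rw [hϖ, h0, zero_mul]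
  -- the `m`-th power is central
  have hmζ : Commute (ϖ ^ m) ζ := by
    have h3 := pow_pi_zeta hϖrel m 1
    rw [pow_one, one_mul, ← pow_mul, mul_comm r m, iter_zeta hζ] at h3
    exact h3
  have hmY : Commute (ϖ ^ m) Y := by
    rw [hY]
    simp only [Yf]
    apply Commute.sum_right
    intro i _
    exact (hmζ.pow_right _).smul_right _
  have hmπ : Commute (ϖ ^ m) π := by
    have h1 : π = Y⁻¹ * ϖ := by rw [hϖ, inv_mul_cancel_left₀ hY0]
    rw [h1]
    exact (hmY.inv_right₀).mul_right (Commute.pow_self ϖ m)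
  obtain ⟨c', hc'⟩ := central_of hspan hmζ hmπ
  refine ⟨ϖ, hϖrel, ?_⟩
  by_contra hne
  set ε := c' / t - 1 with hε
  have hc't : c' = t * (1 + ε) := by
    rw [hε, add_sub_cancel, mul_div_cancel₀ _ ht.t0]
  have hdiff : ϖ ^ m - algebraMap K D t = algebraMap K D (t * ε) := by
    rw [hc', ← map_sub, hc't]
    congr 1
    ring
  have hε0 : ε ≠ 0 := by
    intro h0
    apply hne
    rw [hc', hc't, h0, add_zero, mul_one]
  have hvε0 : 0 < v ε := zero_lt_iff.2 ((Valuation.ne_zero_iff v).2 hε0)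
  have hvε : v ε < 1 := by
    rw [hdiff, wv_algebraMap, wv_algebraMap, map_mul, mul_pow] at hlt
    by_contra hcon
    rw [not_lt] at hcon
    have h1 : (1 : Γ) ≤ v ε ^ Module.finrank K D := one_le_pow₀ hcon
    have h2 : v t ^ Module.finrank K D * 1 ≤ v t ^ Module.finrank K D * v ε ^ Module.finrank K D :=
      mul_le_mul_right h1 _
    rw [mul_one] at h2
    exact absurd hlt (not_lt.2 h2)
  -- the trace
  obtain ⟨k, hk⟩ := trace_unit hE hU hm hcop hg hϖrel hϖ0
  set T := ∑ j ∈ Finset.range m, ζ ^ (k * (p ^ r) ^ j) with hT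
  have hTζ : Commute T ζ := by
    rw [hT]
    apply Commute.sum_left
    intro i _
    exact Commute.pow_self ζ _
  have hTπ : Commute T π := by
    have h1 : ∀ j, π * ζ ^ (k * (p ^ r) ^ j) = ζ ^ (k * (p ^ r) ^ (j + 1)) * π := by
      intro j
      rw [pow_zeta hrel, mul_assoc, ← pow_succ]
    have h2 : (∑ j ∈ Finset.range m, ζ ^ (k * (p ^ r) ^ (j + 1))) = T := by
      have h3 := Finset.sum_range_succ' (fun j => ζ ^ (k * (p ^ r) ^ j)) m
      have h4 := Finset.sum_range_succ (fun j => ζ ^ (k * (p ^ r) ^ j)) m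
      have h5 : ζ ^ (k * (p ^ r) ^ m) = ζ ^ (k * (p ^ r) ^ 0) := by
        rw [pow_zero, mul_one, mul_comm k, pow_mul, ← pow_mul p, mul_comm r m, iter_zeta hζ]
      simp only [h5] at h4
      rw [h3] at h4
      exact add_right_cancel h4
    have h6 : π * T = T * π := by
      rw [hT, Finset.mul_sum]
      simp only [h1]
      rw [← Finset.sum_mul, h2]
    exact h6.symm
  obtain ⟨τ, hτ⟩ := central_of hspan hTζ hTπ
  have hvτ : 1 ≤ v τ := by
    rw [hτ, wv_algebraMap] at hk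
    by_contra hcon
    rw [not_le] at hcon
    exact hk (pow_lt_one₀ zero_le hcon finrank_ne)
  have hτ0 : τ ≠ 0 := by
    rintro rfl
    rw [map_zero] at hvτ
    exact absurd hvτ (not_le.2 zero_lt_one)
  set b := ε * τ⁻¹ with hb
  have hvb : v b ≤ v ε := by
    rw [hb, map_mul, map_inv₀]
    calc v ε * (v τ)⁻¹ ≤ v ε * 1 := mul_le_mul_right (inv_le_one_of_one_le₀ hvτ) _
      _ = v ε := mul_one _
  obtain ⟨R, hR, hexp⟩ := expand (k := k) hE hU hζ1 hϖrel (hvb.trans hvε.le) m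
  have hbT : b • T = algebraMap K D ε := by
    rw [hτ, Algebra.smul_def, ← map_mul, hb, inv_mul_cancel_right₀ hτ0]
  rw [← hT, hbT, hc', hc't] at hexp
  have hrep : Rep v ζ N ((1 - b • ζ ^ k) * Y) := by
    have h1 : (1 - b • ζ ^ k) * Y = Y + ((-b) • ζ ^ k) * Y := by
      rw [sub_mul, one_mul, neg_smul, neg_mul, sub_eq_add_neg]
    rw [h1]
    refine hYrep.add (Rep.mul hN hζN ?_ k hYrep)
    rw [Valuation.map_neg]
    exact hvb.trans hvε.le
  have hfin := hmin' _ hrep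
  rw [mul_assoc, ← hϖ, hexp, hdiff] at hfin
  have hcalc : (1 - algebraMap K D ε + b ^ 2 • R) * algebraMap K D (t * (1 + ε)) -
      algebraMap K D t = t • (algebraMap K D (-(ε ^ 2)) + (b ^ 2 * (1 + ε)) • R) := by
    have h1 : (b ^ 2 • R) * algebraMap K D (t * (1 + ε)) = (t * (b ^ 2 * (1 + ε))) • R := by
      rw [← Algebra.commutes, ← Algebra.smul_def, smul_smul]
      congr 1
      ring
    have h2 : (1 - algebraMap K D ε) * algebraMap K D (t * (1 + ε)) - algebraMap K D t =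
        t • algebraMap K D (-(ε ^ 2)) := by
      rw [Algebra.smul_def, ← map_mul, ← map_one (algebraMap K D), ← map_sub, ← map_mul,
        ← map_sub]
      congr 1
      ring
    rw [add_mul, add_sub_right_comm, h1, h2, smul_add, smul_smul]
  rw [hcalc, wv_smul, wv_algebraMap, map_mul, mul_pow] at hfin
  have hvt' : 0 < v t ^ Module.finrank K D := pow_pos (zero_lt_iff.2 hvt) _
  have h3 : wv v (algebraMap K D (-(ε ^ 2)) + (b ^ 2 * (1 + ε)) • R) ≤
      (v ε ^ 2) ^ Module.finrank K D := by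
    refine (wv_add hE hU _ _).trans (max_le ?_ ?_)
    · rw [wv_algebraMap, Valuation.map_neg, map_pow]
    · rw [wv_smul, map_mul, map_pow]
      have h4 : v (1 + ε) ≤ 1 := (v.map_add _ _).trans (max_le (by rw [map_one]) hvε.le)
      calc (v b ^ 2 * v (1 + ε)) ^ Module.finrank K D * wv v R ≤
          (v ε ^ 2 * 1) ^ Module.finrank K D * 1 :=
            mul_le_mul' (pow_le_pow_left₀ zero_le
              (mul_le_mul' (pow_le_pow_left₀ zero_le hvb 2) h4) _) hR
        _ = _ := by rw [mul_one, mul_one]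
  have h4 : v t ^ Module.finrank K D * v ε ^ Module.finrank K D ≤
      v t ^ Module.finrank K D * (v ε ^ 2) ^ Module.finrank K D :=
    hfin.trans (mul_le_mul_right h3 _)
  have h5 : v ε ^ Module.finrank K D ≤ (v ε ^ 2) ^ Module.finrank K D :=
    le_of_mul_le_mul_left h4 hvt'
  have h6 : v ε ≤ v ε ^ 2 := (pow_le_pow_iff_left₀ zero_le zero_le finrank_ne).1 h5
  have h7 : v ε ^ 2 < v ε := by
    calc v ε ^ 2 < v ε ^ 1 := pow_lt_pow_right_of_lt_one₀ hvε0 hvε (by norm_num)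
      _ = v ε := pow_one _
  exact absurd h6 (not_le.2 h7)

/-- Central division algebras over extremal fields with the least value group and the prime field
as residue field. -/
theorem main (hE : Extremal v) [CharP K p] [Algebra.IsCentral K D] (ht : ZUnif v t) :
    ∃ (m r : ℕ) (ζ π : D) (b : Module.Basis (Fin m × Fin m) K D),
      0 < m ∧ Nat.Coprime r m ∧ orderOf ζ = p ^ m - 1 ∧ π * ζ = ζ ^ (p ^ r) * π ∧
      π ^ m = algebraMap K D t ∧ ∀ k, b k = ζ ^ (k.1 : ℕ) * π ^ (k.2 : ℕ) := by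
  classical
  have hvt : v t ≠ 0 := (Valuation.ne_zero_iff v).2 ht.t0
  obtain ⟨f, g0, hf, hg0, hgood⟩ := good_exists (D := D) (p := p) hE ht
  have hgg : GoodGen v p f g0 := hgood g0 (by rw [sub_self, wv_zero]; exact zero_lt_one)
  obtain ⟨ζ, hζg, hζ⟩ := root_exists hE ht hf hgg
  have hg : GoodGen v p f ζ := hgood ζ hζg
  obtain ⟨h, e, π0, hh, he, hn, hπ00, hπ0v, hval0⟩ := exists_prime (D := D) (v := v) ht
  obtain ⟨r, π1, hπ10, hπ1v, hrel1⟩ := exact_pi hE ht hf hg hζ hπ00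
  have hval1 : ∀ x : D, x ≠ 0 → ∃ (a : ℕ) (c : K), a < e ∧ c ≠ 0 ∧
      wv v x = wv v (c • π1 ^ a) := by
    intro x hx
    obtain ⟨a, c, ha, hc, hac⟩ := hval0 x hx
    refine ⟨a, c, ha, hc, ?_⟩
    rw [hac, wv_smul, wv_smul, wv_pow, wv_pow, hπ1v]
  have hπ1t : wv v π1 = v t ^ h := hπ1v.trans hπ0v
  obtain ⟨hhf, hef, hcop, c, hc, hcv⟩ := ranks hE ht hf he hh hn hg hζ hπ1t hval1 hrel1
  obtain ⟨-, hspan1⟩ := standard hE ht hf he hh hn hg hπ1t hval1
  obtain ⟨π, hrel, hπ⟩ := adjust hE ht hf hcop hg hζ hrel1 hspan1 hc hcv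
  have hπv : wv v π = wv v π1 := by
    have h1 : wv v π ^ f = wv v π1 ^ f := by
      rw [← wv_pow, hπ, ← wv_pow, hc, wv_algebraMap, wv_algebraMap, hcv]
    exact (pow_left_inj₀ zero_le zero_le hf.ne').1 h1
  have hval : ∀ x : D, x ≠ 0 → ∃ (a : ℕ) (c : K), a < e ∧ c ≠ 0 ∧
      wv v x = wv v (c • π ^ a) := by
    intro x hx
    obtain ⟨a, c, ha, hc, hac⟩ := hval1 x hx
    refine ⟨a, c, ha, hc, ?_⟩
    rw [hac, wv_smul, wv_smul, wv_pow, wv_pow, hπv]
  obtain ⟨hind, hspan⟩ := standard hE ht hf he hh hn hg (hπv.trans hπ1t) hval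
  subst hef
  let b : Module.Basis (Fin e × Fin e) K D := Module.Basis.mk hind (by
      intro x _
      obtain ⟨y, hy⟩ := hspan x
      rw [hy]
      exact Submodule.sum_mem _ fun k _ =>
        Submodule.smul_mem _ _ (Submodule.subset_span ⟨k, rfl⟩))
  refine ⟨e, r, ζ, π, b, he, hcop, ?_, hrel, hπ, ?_⟩
  · apply Nat.dvd_antisymm
    · rw [orderOf_dvd_iff_pow_eq_one]
      exact zeta_pow (zeta_ne hg) (pow_pos hp.out.pos e) hζ
    · rw [← hg.ord, pow_orderOf_eq_one, sub_self, wv_zero]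
      exact zero_lt_one
  · intro k
    exact Module.Basis.mk_apply _ _ _

end Pool.Agent.Helper28.BR
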