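import Pool.Agent.Helper28.BR.Defs

/-!
# BR, block GOOD: frames (never import)
-/

set_option autoImplicit false

namespace Pool.Agent.Helper28.BR.Fr

open TensorProduct IsLocalRing Pool.Agent.Helper28.BR

/-- **GA.** the order spanned by the generators (helper28) -/
theorem exists_order {O F B : Type} [CommRing O] [IsDomain O] [IsDiscreteValuationRing O]
    [Field F] [Algebra O F] [IsFractionRing O F] [Ring B] [Algebra F B] {N : ℕ} {g : Fin N → B}
    {f : Fin N → B →ₗ[F] F} (h : AzInt O F B N g f) [Algebra O B] [IsScalarTower O F B] :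
    ∃ L : Subalgebra O B, Module.Finite O L ∧ Module.Free O L ∧
      Module.finrank O L = Module.finrank F B ∧ Submodule.span F (L : Set B) = ⊤ ∧ Az O L := by
  sorry

/-- **GB1.** (helper62) -/
theorem az_baseChange {O L k : Type} [CommRing O] [Ring L] [Algebra O L] [CommRing k]
    [Algebra O k] (h : Az O L) : Az k (k ⊗[O] L) := by
  sorry

/-- **GB2.** (helper62) -/
theorem simple_of_az {k C : Type} [Field k] [Ring C] [Algebra k C] [Nontrivial C] (h : Az k C) :
    IsSimpleRing C ∧ Algebra.IsCentral k C := by
  sorry

/-- **GC.** (helper62) -/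
theorem matrix_of_finite {k C : Type} [Field k] [Finite k] [Ring C] [Algebra k C]
    [FiniteDimensional k C] (hs : IsSimpleRing C) (hc : Algebra.IsCentral k C) (m : ℕ)
    (hm : Module.finrank k C = m ^ 2) : Nonempty (C ≃ₐ[k] Matrix (Fin m) (Fin m) k) := by
  sorry

/-- **GD.** idempotents lift (helper12) -/
theorem exists_idem_lift {O L : Type} [CommRing O] [IsLocalRing O]
    [IsAdicComplete (maximalIdeal O) O] [Ring L] [Algebra O L] [Module.Finite O L]
    [Module.Free O L] (e : ResidueField O ⊗[O] L) (he : e * e = e) :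
    ∃ e' : L, e' * e' = e' ∧ (1 : ResidueField O) ⊗ₜ[O] e' = e := by
  sorry

/-- **GE.** a rank one idempotent (helper28) -/
theorem exists_idem {k C : Type} [Field k] [Ring C] [Algebra k C] (m : ℕ) (hm : 0 < m)
    (φ : C ≃ₐ[k] Matrix (Fin m) (Fin m) k) :
    ∃ e : C, e * e = e ∧ Module.finrank k (LinearMap.range (LinearMap.mulRight k e)) = m := by
  sorry

/-- **GF1.** (helper28) -/
theorem finrank_residue {O L : Type} [CommRing O] [IsDomain O] [IsDiscreteValuationRing O]
    [Ring L] [Algebra O L] [Module.Finite O L] [Module.Free O L] (e : L) (he : e * e = e) :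
    Module.finrank (ResidueField O) (LinearMap.range (LinearMap.mulRight (ResidueField O)
      ((1 : ResidueField O) ⊗ₜ[O] e))) =
    Module.finrank O (LinearMap.range (LinearMap.mulRight O e)) := by
  sorry

/-- **GF2.** (helper28) -/
theorem finrank_fraction {O F B : Type} [CommRing O] [IsDomain O] [IsDiscreteValuationRing O]
    [Field F] [Algebra O F] [IsFractionRing O F] [Ring B] [Algebra F B] [FiniteDimensional F B]
    [Algebra O B] [IsScalarTower O F B] (L : Subalgebra O B) [Module.Finite O L]
    (hL : Submodule.span F (L : Set B) = ⊤) (e : L) (he : e * e = e) :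
    Module.finrank F (LinearMap.range (LinearMap.mulRight F (e : B))) =
    Module.finrank O (LinearMap.range (LinearMap.mulRight O e)) := by
  sorry

/-- **GG.** the representation on `B e` (helper28) -/
theorem rep_of_idem {F B : Type} [Field F] [Ring B] [Algebra F B] [FiniteDimensional F B] (e : B)
    (m : ℕ) (he : Module.finrank F (LinearMap.range (LinearMap.mulRight F e)) = m) :
    Nonempty (B →ₐ[F] Matrix (Fin m) (Fin m) F) := by
  sorry

/-- **GOOD, local form.** -/
theorem good_local {O F B : Type} [CommRing O] [IsDomain O] [IsDiscreteValuationRing O]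
    [IsAdicComplete (maximalIdeal O) O] [Finite (ResidueField O)]
    [Field F] [Algebra O F] [IsFractionRing O F] [Ring B] [Algebra F B] {N : ℕ} {g : Fin N → B}
    {f : Fin N → B →ₗ[F] F} (h : AzInt O F B N g f) (m : ℕ) (hm : 0 < m)
    (hB : Module.finrank F B = m ^ 2) : Nonempty (B →ₐ[F] Matrix (Fin m) (Fin m) F) := by
  sorry

end Pool.Agent.Helper28.BR.Fr
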