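import Pool.Agent.Helper28.BR.Inv

/-!
# All finite dimensional division algebras are defectless
-/

set_option autoImplicit false

universe u w z

namespace Pool.Agent.Helper28.BR

open Pool.Agent.Helper28.EX Pool.Agent.Helper28.QF

variable {p : ℕ} [hp : Fact p.Prime] {K : Type u} {Γ : Type w} [Field K]
  [LinearOrderedCommGroupWithZero Γ] {v : Valuation K Γ} {t : K}
  {D : Type z} [DivisionRing D] [Algebra K D] [FiniteDimensional K D]

theorem orth_std (hE : Extremal v) [CharP K p] (ht : ZUnif v t) {f h e : ℕ} (hf : 0 < f)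
    (hh : 0 < h) (hn : Module.finrank K D = e * h) {ζ π : D}
    (hg : GoodGen v p f ζ) (hπ : wv v π = v t ^ h) (y : Fin f × Fin e → K)
    (k : Fin f × Fin e) :
    v (y k) ^ Module.finrank K D * wv v (ζ ^ (k.1 : ℕ) * π ^ (k.2 : ℕ)) ≤
      wv v (∑ k, y k • (ζ ^ (k.1 : ℕ) * π ^ (k.2 : ℕ))) := by
  classical
  have hU := unif_of_zunif p ht
  have hζi : ∀ i : ℕ, wv v (ζ ^ i) = 1 := fun i => by rw [wv_pow, hg.one, one_pow]
  let F : Fin e → D := fun a => (∑ i : Fin f, y (i, a) • ζ ^ (i : ℕ)) * π ^ (a : ℕ)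
  have hsum : (∑ k, y k • (ζ ^ (k.1 : ℕ) * π ^ (k.2 : ℕ))) = ∑ a, F a := by
    rw [Fintype.sum_prod_type_right]
    apply Finset.sum_congr rfl
    intro a _
    simp only [F]
    rw [Finset.sum_mul]
    apply Finset.sum_congr rfl
    intro i _
    rw [smul_mul_assoc]
  choose m hm hmax using fun a : Fin e => orth_zeta hE ht hf hg (fun i => y (i, a))
  have hF : ∀ a, wv v (F a) = v (y (m a, a)) ^ Module.finrank K D * v t ^ (h * a) := by
    intro a
    simp only [F]
    rw [wv_mul, hm, wv_pow, hπ, ← pow_mul]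
  have hlt : ∀ a : Fin e, h * (a : ℕ) < Module.finrank K D := by
    intro a
    rw [hn, mul_comm e h]
    exact Nat.mul_lt_mul_of_pos_left a.2 hh
  have h1 := sum_ge hE hU Finset.univ F (by
    intro a _ b _ ha hb hab
    rw [hF, hF] at hab
    have hyb : y (m b, b) ≠ 0 := by
      intro h0
      apply wv_ne_zero (v := v) hb
      rw [hF, h0, map_zero, zero_pow finrank_ne, zero_mul]
    have hya : y (m a, a) ≠ 0 := by
      intro h0
      apply wv_ne_zero (v := v) ha
      rw [hF, h0, map_zero, zero_pow finrank_ne, zero_mul]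
    have hva : v (y (m a, a)) ≠ 0 := (Valuation.ne_zero_iff v).2 hya
    have h2 : v t ^ (h * (a : ℕ)) =
        v (y (m b, b) / y (m a, a)) ^ Module.finrank K D * v t ^ (h * (b : ℕ)) := by
      rw [map_div₀, div_pow, div_mul_eq_mul_div, ← hab]
      exact (mul_div_cancel_left₀ _ (pow_ne_zero _ hva)).symm
    have h3 := (uniq ht (hlt a) (hlt b) h2).1
    exact Fin.ext (Nat.eq_of_mul_eq_mul_left hh h3)) k.2 (Finset.mem_univ _)
  rw [hsum]
  refine le_trans ?_ h1
  rw [hF, wv_mul, hζi, one_mul, wv_pow, hπ, ← pow_mul]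
  exact mul_le_mul_left (pow_le_pow_left₀ zero_le (hmax k.2 k.1) _) _

/-- Finite dimensional division algebras over extremal fields with the least value group and the
prime field as residue field. -/
theorem general (hE : Extremal v) [CharP K p] (ht : ZUnif v t) :
    ∃ (f e r : ℕ) (ζ π : D) (b : Module.Basis (Fin f × Fin e) K D),
      0 < f ∧ 0 < e ∧ orderOf ζ = p ^ f - 1 ∧ π * ζ = ζ ^ (p ^ r) * π ∧
      v (Algebra.norm K π) = v t ^ f ∧ (∀ k, b k = ζ ^ (k.1 : ℕ) * π ^ (k.2 : ℕ)) ∧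
      ∀ y : Fin f × Fin e → K,
        (∀ k, v (Algebra.norm K (y k • b k)) ≤ v (Algebra.norm K (∑ l, y l • b l))) ∧
        ∃ k, v (Algebra.norm K (y k • b k)) = v (Algebra.norm K (∑ l, y l • b l)) := by
  classical
  obtain ⟨f, g0, hf, hg0, hgood⟩ := good_exists (D := D) (p := p) hE ht
  have hgg : GoodGen v p f g0 := hgood g0 (by rw [sub_self, wv_zero]; exact zero_lt_one)
  obtain ⟨ζ, hζg, hζ⟩ := root_exists hE ht hf hgg
  have hg : GoodGen v p f ζ := hgood ζ hζg
  obtain ⟨h, e, π0, hh, he, hn, hπ00, hπ0v, hval0⟩ := exists_prime (D := D) (v := v) ht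
  obtain ⟨r, π, hπ10, hπ1v, hrel⟩ := exact_pi hE ht hf hg hζ hπ00
  have hval : ∀ x : D, x ≠ 0 → ∃ (a : ℕ) (c : K), a < e ∧ c ≠ 0 ∧
      wv v x = wv v (c • π ^ a) := by
    intro x hx
    obtain ⟨a, c, ha, hc, hac⟩ := hval0 x hx
    refine ⟨a, c, ha, hc, ?_⟩
    rw [hac, wv_smul, wv_smul, wv_pow, wv_pow, hπ1v]
  have hπt : wv v π = v t ^ h := hπ1v.trans hπ0v
  obtain ⟨hind, hspan⟩ := standard hE ht hf he hh hn hg hπt hval
  let b : Module.Basis (Fin f × Fin e) K D := Module.Basis.mk hind (by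
      intro x _
      obtain ⟨y, hy⟩ := hspan x
      rw [hy]
      exact Submodule.sum_mem _ fun k _ =>
        Submodule.smul_mem _ _ (Submodule.subset_span ⟨k, rfl⟩))
  have hb : ∀ k, b k = ζ ^ (k.1 : ℕ) * π ^ (k.2 : ℕ) := fun k => Module.Basis.mk_apply _ _ _
  have hdim : Module.finrank K D = f * e := by
    rw [Module.finrank_eq_card_basis b, Fintype.card_prod, Fintype.card_fin, Fintype.card_fin]
  have hhf : h = f := by
    rw [hn, mul_comm f e] at hdim
    exact Nat.eq_of_mul_eq_mul_left he hdim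
  refine ⟨f, e, r, ζ, π, b, hf, he, ?_, hrel, ?_, hb, ?_⟩
  · apply Nat.dvd_antisymm
    · rw [orderOf_dvd_iff_pow_eq_one]
      exact zeta_pow (zeta_ne hg) (pow_pos hp.out.pos f) hζ
    · rw [← hg.ord, pow_orderOf_eq_one, sub_self, wv_zero]
      exact zero_lt_one
  · rw [← hhf]
    exact hπt
  · intro y
    have key : ∀ k, wv v (y k • b k) ≤ wv v (∑ l, y l • b l) := by
      intro k
      have h1 := orth_std hE ht hf hh hn hg hπt y k
      rw [hb, wv_smul]
      simp only [hb]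
      exact h1
    refine ⟨key, ?_⟩
    have hne : Nonempty (Fin f × Fin e) := ⟨(⟨0, hf⟩, ⟨0, he⟩)⟩
    obtain ⟨k, -, hk⟩ := Finset.exists_max_image Finset.univ (fun k => wv v (y k • b k))
      Finset.univ_nonempty
    refine ⟨k, le_antisymm (key k) ?_⟩
    exact sum_le' hE (unif_of_zunif p ht) Finset.univ (fun l => y l • b l)
      (fun l _ => hk l (Finset.mem_univ l))

end Pool.Agent.Helper28.BR
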