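import Pool.Agent.Helper28.BR.Order
import Pool.Agent.Helper28.BR.Azu
import Pool.Agent.Helper62.BR.GB

/-!
# BR, block GOOD: the local theorem from the lifting of idempotents
-/

set_option autoImplicit false

namespace Pool.Agent.Helper28.BR

open TensorProduct IsLocalRing Pool.Agent.Helper62.BR

/-- **GOOD, local form**, from the lifting of idempotents -/
theorem good_local_of {O F B : Type} [CommRing O] [IsDomain O] [IsDiscreteValuationRing O]
    [Finite (ResidueField O)]
    [Field F] [Algebra O F] [IsFractionRing O F] [Ring B] [Algebra F B]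
    (hGD : ∀ (L : Type) [Ring L] [Algebra O L] [Module.Finite O L] [Module.Free O L]
      (e : ResidueField O ⊗[O] L), e * e = e →
      ∃ e' : L, e' * e' = e' ∧ (1 : ResidueField O) ⊗ₜ[O] e' = e)
    {N : ℕ} {g : Fin N → B}
    {f : Fin N → B →ₗ[F] F} (h : AzInt O F B N g f) (m : ℕ) (hm : 0 < m)
    (hB : Module.finrank F B = m ^ 2) : Nonempty (B →ₐ[F] Matrix (Fin m) (Fin m) F) := by
  letI : Algebra O B := Algebra.compHom B (algebraMap O F)
  have hst : IsScalarTower O F B := IsScalarTower.of_algebraMap_eq fun x => rfl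
  obtain ⟨L, h1, h2, h3, h4, h5⟩ := exists_order h
  have hfd : FiniteDimensional F B := Module.finite_of_finrank_pos (by
    rw [hB]
    positivity)
  have hfr : Module.finrank (ResidueField O) (ResidueField O ⊗[O] L) = m ^ 2 := by
    rw [Module.finrank_baseChange, h3, hB]
  have hnt : Nontrivial (ResidueField O ⊗[O] L) := by
    refine Module.nontrivial_of_finrank_pos (R := ResidueField O) ?_
    rw [hfr]
    positivity
  obtain ⟨hs, hc⟩ := simple_of_az (az_baseChange (k := ResidueField O) h5)
  obtain ⟨φ⟩ := matrix_of_finite hs hc m hfr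
  obtain ⟨e, he, hrk⟩ := exists_idem m hm φ
  obtain ⟨e', he', hee⟩ := hGD L e he
  rw [← hee, finrank_residue e' he', ← finrank_fraction (F := F) L h4 e'] at hrk
  exact rep_of_idem (e' : B) m hrk

end Pool.Agent.Helper28.BR
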