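import Pool.Agent.Helper28.BR.Iso

/-!
# The exponent is an invariant
-/

set_option autoImplicit false

universe u w z z'

namespace Pool.Agent.Helper28.BR

open Pool.Agent.Helper28.EX Pool.Agent.Helper28.QF

variable {p : ℕ} [hp : Fact p.Prime] {K : Type u} {Γ : Type w} [Field K]
  [LinearOrderedCommGroupWithZero Γ] {v : Valuation K Γ} {t : K}
  {D : Type z} [DivisionRing D] [Algebra K D] [FiniteDimensional K D]

theorem q_two (p : ℕ) [hp : Fact p.Prime] {m : ℕ} (hm : 0 < m) : 2 ≤ p ^ m := by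
  calc 2 ≤ p := hp.out.two_le
    _ = p ^ 1 := (pow_one p).symm
    _ ≤ p ^ m := Nat.pow_le_pow_right hp.out.pos hm

theorem wv_root {m : ℕ} (hm : 0 < m) {ζ : D} (hζ : orderOf ζ = p ^ m - 1) : wv v ζ = 1 := by
  have h1 := pow_orderOf_eq_one ζ
  have h2 := q_two p hm
  rw [hζ] at h1
  have h3 : wv v ζ ^ (p ^ m - 1) = 1 ^ (p ^ m - 1) := by rw [← wv_pow, h1, wv_one, one_pow]
  exact (pow_left_inj₀ zero_le zero_le (by omega)).1 h3

theorem red_inj [CharP K p] {m : ℕ} (hm : 0 < m) {ζ : D}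
    (hζ : orderOf ζ = p ^ m - 1) (j : ℕ) (h : wv v (ζ ^ j - 1) < 1) : p ^ m - 1 ∣ j := by
  have : CharP D p := charP_D (K := K) p
  have h2 := q_two p hm
  have h1 := pow_orderOf_eq_one ζ
  rw [hζ] at h1
  rw [← hζ]
  apply orderOf_dvd_of_pow_eq_one
  by_contra hne
  have hy : ζ ^ j - 1 ≠ 0 := sub_ne_zero.2 hne
  have h3 : (ζ ^ j - 1) ^ (p ^ m) = ζ ^ j - 1 := by
    rw [sub_pow_char_pow_of_commute p m (Commute.one_right _), one_pow]
    have h4 : (ζ ^ j) ^ (p ^ m) = ζ ^ j * (ζ ^ j) ^ (p ^ m - 1) := by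
      rw [← pow_succ', Nat.sub_add_cancel (by omega)]
    rw [h4, ← pow_mul, mul_comm j, pow_mul, h1, one_pow, mul_one]
  have h4 : wv v (ζ ^ j - 1) ^ (p ^ m) = wv v (ζ ^ j - 1) := by rw [← wv_pow, h3]
  have h5 : wv v (ζ ^ j - 1) ^ (p ^ m) < wv v (ζ ^ j - 1) := by
    calc wv v (ζ ^ j - 1) ^ (p ^ m) < wv v (ζ ^ j - 1) ^ 1 :=
          pow_lt_pow_right_of_lt_one₀ (wv_pos hy) h (by omega)
      _ = _ := pow_one _
  exact absurd h4 h5.ne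

omit [FiniteDimensional K D] in
theorem coprime_q {m : ℕ} (hm : 0 < m) (a : ℕ) : Nat.Coprime (p ^ m - 1) (p ^ a) := by
  apply Nat.Coprime.pow_right
  apply Nat.Coprime.symm
  rw [Nat.Prime.coprime_iff_not_dvd hp.out]
  intro h
  have h1 : p ∣ p ^ m := dvd_pow_self p hm.ne'
  have h2 := q_two p hm
  have h3 : p ∣ p ^ m - (p ^ m - 1) := Nat.dvd_sub h1 h
  have h4 : p ^ m - (p ^ m - 1) = 1 := by omega
  rw [h4] at h3
  exact hp.out.one_lt.ne' (Nat.dvd_one.1 h3)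

theorem expo {m : ℕ} (hm : 0 < m) {ζ : D} (h1 : wv v ζ = 1)
    (hord : ∀ j : ℕ, wv v (ζ ^ j - 1) < 1 → p ^ m - 1 ∣ j) {a b : ℕ}
    (h : wv v (ζ ^ (p ^ a) - ζ ^ (p ^ b)) < 1) : a ≡ b [MOD m] := by
  have key : ∀ {a b : ℕ}, a ≤ b → wv v (ζ ^ (p ^ b) - ζ ^ (p ^ a)) < 1 → a ≡ b [MOD m] := by
    intro a b hab h
    obtain ⟨c, rfl⟩ : ∃ c, b = a + c := ⟨b - a, by omega⟩
    have hc1 : 0 < p ^ c := pow_pos hp.out.pos c
    have e1 : ζ ^ (p ^ (a + c)) - ζ ^ (p ^ a) = ζ ^ (p ^ a) * (ζ ^ (p ^ a * (p ^ c - 1)) - 1) := by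
      rw [mul_sub, mul_one, ← pow_add, pow_add]
      congr 2
      calc p ^ a * p ^ c = p ^ a * (1 + (p ^ c - 1)) := by rw [Nat.add_sub_cancel' hc1]
        _ = p ^ a + p ^ a * (p ^ c - 1) := by ring
    rw [e1, wv_mul, wv_pow, h1, one_pow, one_mul] at h
    have h2 := (coprime_q (p := p) hm a).dvd_of_dvd_mul_left (hord _ h)
    have h3 : m ∣ c := dvd_of_pow_sub hp.out.two_le h2
    rw [Nat.modEq_iff_dvd' hab]
    rwa [Nat.add_sub_cancel_left]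
  rcases le_total a b with hab | hab
  · apply key hab
    rw [← wv_neg, neg_sub]
    exact h
  · exact (key hab h).symm

/-- conjugation on the residue field -/
theorem conj_exp (hE : Extremal v) [CharP K p] (ht : ZUnif v t) {m r s : ℕ} (hm : 0 < m)
    {ζ ζ0 π : D} (hg : GoodGen v p m ζ0) (hζ : orderOf ζ = p ^ m - 1) (hπ : π ≠ 0)
    (hrel : π * ζ = ζ ^ (p ^ r) * π) (hs : wv v (π * ζ0 * π⁻¹ - ζ0 ^ (p ^ s)) < 1) :
    r ≡ s [MOD m] := by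
  have hU := unif_of_zunif p ht
  have h1 : wv v ζ = 1 := wv_root hm hζ
  obtain ⟨k, hk⟩ := hg.gen ζ h1
  apply expo (v := v) hm h1 (red_inj hm hζ)
  have e1 : ζ ^ (p ^ r) = π * ζ * π⁻¹ := by
    rw [hrel, mul_assoc, mul_inv_cancel₀ hπ, mul_one]
  have e2 : ζ ^ (p ^ r) - ζ ^ (p ^ s) = π * (ζ - ζ0 ^ k) * π⁻¹ +
      (((π * ζ0 * π⁻¹) ^ k - (ζ0 ^ (p ^ s)) ^ k) + -(ζ ^ (p ^ s) - (ζ0 ^ k) ^ (p ^ s))) := by
    rw [conj_pow' hπ, ← pow_mul, ← pow_mul, mul_comm k, mul_sub, sub_mul, e1]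
    abel
  have h2 : wv v (π * ζ0 * π⁻¹) = 1 := by
    rw [wv_mul, wv_mul, wv_inv, hg.one, mul_one, mul_inv_cancel₀ (wv_ne_zero hπ)]
  rw [e2]
  refine (wv_add hE hU _ _).trans_lt (max_lt ?_ ((wv_add hE hU _ _).trans_lt (max_lt ?_ ?_)))
  · rw [wv_mul, wv_mul, wv_inv, mul_comm (wv v π), mul_inv_cancel_right₀ (wv_ne_zero hπ)]
    exact hk
  · refine (wv_pow_sub_le hE hU ?_ h2.le k).trans_lt hs
    rw [wv_pow, hg.one, one_pow]
  · rw [wv_neg]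
    refine (wv_pow_sub_le hE hU ?_ h1.le _).trans_lt hk
    rw [wv_pow, hg.one, one_pow]

theorem inv (hE : Extremal v) [CharP K p] [Algebra.IsCentral K D] (ht : ZUnif v t)
    {m m' r r' : ℕ} (hm : 0 < m) (h1 : Std p t m r D) (h2 : Std p t m' r' D) :
    m = m' ∧ r ≡ r' [MOD m] := by
  classical
  have hU := unif_of_zunif p ht
  have hvt : v t ≠ 0 := (Valuation.ne_zero_iff v).2 ht.t0
  obtain ⟨ζ₁, π₁, b₁, ho₁, hrel₁, hπ₁, -⟩ := h1
  obtain ⟨ζ₂, π₂, b₂, ho₂, hrel₂, hπ₂, -⟩ := h2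
  have hd1 : Module.finrank K D = m * m := by
    rw [Module.finrank_eq_card_basis b₁, Fintype.card_prod, Fintype.card_fin]
  have hd2 : Module.finrank K D = m' * m' := by
    rw [Module.finrank_eq_card_basis b₂, Fintype.card_prod, Fintype.card_fin]
  have hmm : m = m' := Nat.mul_self_inj.1 (hd1.symm.trans hd2)
  subst hmm
  refine ⟨rfl, ?_⟩
  obtain ⟨f, g0, hf, hg0, hgood⟩ := good_exists (D := D) (p := p) hE ht
  have hgg : GoodGen v p f g0 := hgood g0 (by rw [sub_self, wv_zero]; exact zero_lt_one)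
  obtain ⟨ζ, hζg, hζ⟩ := root_exists hE ht hf hgg
  have hg : GoodGen v p f ζ := hgood ζ hζg
  obtain ⟨h, e, π0, hh, he, hn, hπ00, hπ0v, hval0⟩ := exists_prime (D := D) (v := v) ht
  obtain ⟨s0, π, hπ10, hπ1v, hrel1⟩ := exact_pi hE ht hf hg hζ hπ00
  have hval1 : ∀ x : D, x ≠ 0 → ∃ (a : ℕ) (c : K), a < e ∧ c ≠ 0 ∧
      wv v x = wv v (c • π ^ a) := by
    intro x hx
    obtain ⟨a, c, ha, hc, hac⟩ := hval0 x hx
    refine ⟨a, c, ha, hc, ?_⟩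
    rw [hac, wv_smul, wv_smul, wv_pow, wv_pow, hπ1v]
  obtain ⟨hhf, hef, -, -⟩ := ranks hE ht hf he hh hn hg hζ (hπ1v.trans hπ0v) hval1 hrel1
  have hfm : f = m := by
    rw [hn, hhf, hef] at hd1
    exact Nat.mul_self_inj.1 hd1
  subst hfm
  have hpne : ∀ {x : D}, x ^ f = algebraMap K D t → x ≠ 0 := by
    rintro x hx rfl
    rw [zero_pow hf.ne'] at hx
    have h3 : wv v (algebraMap K D t) = 0 := by rw [← hx, wv_zero]
    rw [wv_algebraMap] at h3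
    exact pow_ne_zero _ hvt h3
  have hπ₁0 := hpne hπ₁
  have hπ₂0 := hpne hπ₂
  obtain ⟨s₁, hs₁⟩ := hg.conj π₁ hπ₁0
  obtain ⟨s₂, hs₂⟩ := hg.conj π₂ hπ₂0
  have hr1 := conj_exp hE ht hm hg ho₁ hπ₁0 hrel₁ hs₁
  have hr2 := conj_exp hE ht hm hg ho₂ hπ₂0 hrel₂ hs₂
  have hwπ : wv v π₁ = wv v π₂ := by
    have h3 : wv v π₁ ^ f = wv v π₂ ^ f := by rw [← wv_pow, ← wv_pow, hπ₁, hπ₂]
    exact (pow_left_inj₀ zero_le zero_le hf.ne').1 h3
  set a := π₂ * π₁⁻¹ with ha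
  have ha1 : wv v a = 1 := by
    rw [ha, wv_mul, wv_inv, hwπ, mul_inv_cancel₀ (wv_ne_zero hπ₂0)]
  have ha0 : a ≠ 0 := mul_ne_zero hπ₂0 (inv_ne_zero hπ₁0)
  have hss : s₂ ≡ s₁ [MOD f] := by
    apply expo (v := v) hm hg.one (fun j hj => (hg.ord j).1 hj)
    have e1 : π₂ * ζ * π₂⁻¹ = a * (π₁ * ζ * π₁⁻¹) * a⁻¹ := by
      have h4 : π₂ = a * π₁ := by rw [ha, inv_mul_cancel_right₀ hπ₁0]
      rw [h4, mul_inv_rev]
      simp only [mul_assoc]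
    have e2 : ζ ^ (p ^ s₂) - ζ ^ (p ^ s₁) = -(π₂ * ζ * π₂⁻¹ - ζ ^ (p ^ s₂)) +
        (a * (π₁ * ζ * π₁⁻¹ - ζ ^ (p ^ s₁)) * a⁻¹ +
          (a * ζ ^ (p ^ s₁) - ζ ^ (p ^ s₁) * a) * a⁻¹) := by
      rw [e1, mul_sub, sub_mul, sub_mul, mul_assoc (ζ ^ (p ^ s₁)), mul_inv_cancel₀ ha0, mul_one]
      abel
    rw [e2]
    refine (wv_add hE hU _ _).trans_lt (max_lt ?_ ((wv_add hE hU _ _).trans_lt (max_lt ?_ ?_)))
    · rw [wv_neg]
      exact hs₂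
    · rw [wv_mul, wv_mul, wv_inv, ha1, inv_one, mul_one, one_mul]
      exact hs₁
    · rw [wv_mul, wv_inv, ha1, inv_one, mul_one]
      apply hg.comm _ _ ha1.le
      rw [wv_pow, hg.one, one_pow]
  exact hr1.trans (hss.symm.trans hr2.symm)

omit [FiniteDimensional K D] in
theorem Std.transport {m r : ℕ} {D₂ : Type z'} [DivisionRing D₂] [Algebra K D₂]
    (e : D₂ ≃ₐ[K] D) (h : Std p t m r D₂) : Std p t m r D := by
  obtain ⟨ζ, π, b, h1, h2, h3, h4⟩ := h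
  refine ⟨e ζ, e π, b.map e.toLinearEquiv, ?_, ?_, ?_, ?_⟩
  · rw [← h1]
    exact orderOf_injective e.toMonoidHom e.injective ζ
  · rw [← map_mul, h2, map_mul, map_pow]
  · rw [← map_pow, h3, e.commutes]
  · intro k
    rw [Module.Basis.map_apply, h4]
    change e _ = _
    rw [map_mul, map_pow, map_pow]

/-- The classification up to isomorphism. -/
theorem iso_iff (hE : Extremal v) [CharP K p] [Algebra.IsCentral K D] (ht : ZUnif v t)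
    {D₂ : Type z'} [DivisionRing D₂] [Algebra K D₂]
    {m m' r r' : ℕ} (hm : 0 < m) (h1 : Std p t m r D) (h2 : Std p t m' r' D₂) :
    Nonempty (D ≃ₐ[K] D₂) ↔ m = m' ∧ r ≡ r' [MOD m] := by
  constructor
  · rintro ⟨e⟩
    exact inv hE ht hm h1 (h2.transport e.symm)
  · rintro ⟨rfl, hr⟩
    exact iso hm h1 h2 hr

end Pool.Agent.Helper28.BR
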