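import Mathlib

/-!
# The cyclic algebras, and defectless division algebras
-/

set_option autoImplicit false

universe u w z

namespace Pool.Agent.Helper28.BR

/-- `D` has dimension `m ^ 2` over `K`, with the basis `ζ ^ i * π ^ j`, where `ζ` is a root of unity
of order `p ^ m - 1`, `π * ζ = ζ ^ (p ^ r) * π` and `π ^ m = t`. -/
def Std {K : Type u} [Field K] (p : ℕ) (t : K) (m r : ℕ) (D : Type z) [Ring D] [Algebra K D] :
    Prop :=
  ∃ (ζ π : D) (b : Module.Basis (Fin m × Fin m) K D),
    orderOf ζ = p ^ m - 1 ∧ π * ζ = ζ ^ (p ^ r) * π ∧ π ^ m = algebraMap K D t ∧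
      ∀ k, b k = ζ ^ (k.1 : ℕ) * π ^ (k.2 : ℕ)

/-- There is a central division algebra `D` over `K` with `Std p t m r D`. -/
inductive Occurs {K : Type u} [Field K] (p : ℕ) (t : K) (m r : ℕ) : Prop
  | intro (D : Type u) [Ring D] [IsDomain D] [Algebra K D] [FiniteDimensional K D]
      [Algebra.IsCentral K D] (h : Std p t m r D) : Occurs p t m r

/-- `D` is defectless: it has a basis of elements `ζ ^ i * π ^ a`, where `ζ` is a root of unity of
order `p ^ f - 1`, `π * ζ = ζ ^ (p ^ r) * π`, the norm of `π` has the value of `t ^ f`, and the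
value of the norm of a linear combination is the largest value of the norms of its terms. -/
def Defectless {K : Type u} {Γ : Type w} [Field K] [LinearOrderedCommGroupWithZero Γ] (p : ℕ)
    (v : Valuation K Γ) (t : K) (D : Type z) [Ring D] [Algebra K D] : Prop :=
  ∃ (f e r : ℕ) (ζ π : D) (b : Module.Basis (Fin f × Fin e) K D),
    0 < f ∧ 0 < e ∧ orderOf ζ = p ^ f - 1 ∧ π * ζ = ζ ^ (p ^ r) * π ∧
    v (Algebra.norm K π) = v t ^ f ∧ (∀ k, b k = ζ ^ (k.1 : ℕ) * π ^ (k.2 : ℕ)) ∧
    ∀ y : Fin f × Fin e → K,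
      (∀ k, v (Algebra.norm K (y k • b k)) ≤ v (Algebra.norm K (∑ l, y l • b l))) ∧
      ∃ k, v (Algebra.norm K (y k • b k)) = v (Algebra.norm K (∑ l, y l • b l))

end Pool.Agent.Helper28.BR
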