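import Pool.Agent.Helper28.BR.Emb
import Pool.Agent.Helper28.BR.StdDef

/-!
# Algebras with the same invariants are isomorphic
-/

set_option autoImplicit false

universe u w z z'

open Polynomial

namespace Pool.Agent.Helper28.BR

open Pool.Agent.Helper28.EX

variable {p : ℕ} [hp : Fact p.Prime] {K : Type u} [Field K] [CharP K p] {t : K}

/-- in a finite field the powers of a primitive element -/
theorem gf_pow {m : ℕ} (hm : 0 < m) {η : GaloisField p m} (hη : IsPrimitiveRoot η (p ^ m - 1))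
    (x : GaloisField p m) : x = 0 ∨ ∃ i : ℕ, η ^ i = x := by
  classical
  by_cases hx : x = 0
  · exact Or.inl hx
  · right
    have hq2 : 2 ≤ p ^ m := by
      calc 2 ≤ p := hp.out.two_le
        _ = p ^ 1 := (pow_one p).symm
        _ ≤ p ^ m := Nat.pow_le_pow_right hp.out.pos hm
    have hNz : NeZero (p ^ m - 1) := ⟨by omega⟩
    have hcard : Nat.card (GaloisField p m) = p ^ m := GaloisField.card p m hm.ne'
    have hfin : Finite (GaloisField p m) := Nat.finite_of_card_ne_zero (by rw [hcard]; omega)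
    have hft : Fintype (GaloisField p m) := Fintype.ofFinite _
    have h1 : x ^ (p ^ m - 1) = 1 := by
      have h2 := FiniteField.pow_card_sub_one_eq_one x hx
      rw [← Nat.card_eq_fintype_card, hcard] at h2
      exact h2
    obtain ⟨i, -, hi⟩ := hη.eq_pow_of_pow_eq_one h1
    exact ⟨i, hi⟩

theorem gf_card_pow {m : ℕ} (hm : 0 < m) (x : GaloisField p m) : x ^ (p ^ m) = x := by
  classical
  have hq2 : 2 ≤ p ^ m := by
    calc 2 ≤ p := hp.out.two_le
      _ = p ^ 1 := (pow_one p).symm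
      _ ≤ p ^ m := Nat.pow_le_pow_right hp.out.pos hm
  have hcard : Nat.card (GaloisField p m) = p ^ m := GaloisField.card p m hm.ne'
  have hfin : Finite (GaloisField p m) := Nat.finite_of_card_ne_zero (by rw [hcard]; omega)
  have hft : Fintype (GaloisField p m) := Fintype.ofFinite _
  have h2 := FiniteField.pow_card x
  rw [← Nat.card_eq_fintype_card, hcard] at h2
  exact h2

omit hp in
theorem pow_mod_eq {M : Type*} [Monoid M] {m : ℕ} {x : M} (hx : x ^ (p ^ m) = x) (r : ℕ) :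
    x ^ (p ^ r) = x ^ (p ^ (r % m)) := by
  have h1 : ∀ k : ℕ, x ^ (p ^ (m * k)) = x := by
    intro k
    induction k with
    | zero => rw [mul_zero, pow_zero, pow_one]
    | succ k ih => rw [mul_add, mul_one, pow_add, pow_mul, ih, hx]
  conv_lhs => rw [← Nat.div_add_mod r m, pow_add, pow_mul, h1]

section

variable {D : Type z} [DivisionRing D] [Algebra K D]

omit [CharP K p] in
theorem rel_F {m r : ℕ} (hm : 0 < m) {ζ π : D} (hrel : π * ζ = ζ ^ (p ^ r) * π)
    {ι : GaloisField p m →+* D} {η : GaloisField p m} (hι : ι η = ζ)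
    (hη : IsPrimitiveRoot η (p ^ m - 1)) (j : ℕ) (x : GaloisField p m) :
    π ^ j * ι x = ι (x ^ ((p ^ r) ^ j)) * π ^ j := by
  rcases gf_pow hm hη x with rfl | ⟨i, rfl⟩
  · have h1 : (p ^ r) ^ j ≠ 0 := pow_ne_zero _ (pow_ne_zero _ hp.out.ne_zero)
    rw [zero_pow h1, map_zero, mul_zero, zero_mul]
  · rw [← pow_mul, map_pow, map_pow, hι]
    exact pow_pi_zeta hrel j i

theorem iota_smul {m : ℕ} (ι : GaloisField p m →+* D) (c : ZMod p) (x : GaloisField p m) :
    ι (c • x) = zm p K c • ι x := by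
  have h1 : (ι.comp (algebraMap (ZMod p) (GaloisField p m))) =
      (algebraMap K D).comp (zm p K) := RingHom.ext_zmod _ _
  rw [Algebra.smul_def, map_mul, Algebra.smul_def]
  congr 1
  exact RingHom.congr_fun h1 c

/-- the basis for a basis of the finite field -/
theorem basis_F {m : ℕ} {ζ π : D} {b : Module.Basis (Fin m × Fin m) K D}
    (hb : ∀ k, b k = ζ ^ (k.1 : ℕ) * π ^ (k.2 : ℕ))
    {ι : GaloisField p m →+* D} {η : GaloisField p m} (hι : ι η = ζ)
    (e : Module.Basis (Fin m) (ZMod p) (GaloisField p m)) :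
    ∃ B : Module.Basis (Fin m × Fin m) K D, ∀ k, B k = ι (e k.1) * π ^ (k.2 : ℕ) := by
  classical
  have hspan : ⊤ ≤ Submodule.span K
      (Set.range fun k : Fin m × Fin m => ι (e k.1) * π ^ (k.2 : ℕ)) := by
    rw [← b.span_eq, Submodule.span_le]
    rintro _ ⟨k, rfl⟩
    rw [SetLike.mem_coe, hb]
    have h1 : ζ ^ (k.1 : ℕ) = ∑ l, zm p K (e.repr (η ^ (k.1 : ℕ)) l) • ι (e l) := by
      conv_lhs => rw [← hι, ← map_pow, ← e.sum_repr (η ^ (k.1 : ℕ)), map_sum]
      apply Finset.sum_congr rfl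
      intro l _
      rw [iota_smul (K := K)]
    rw [h1, Finset.sum_mul]
    apply Submodule.sum_mem
    intro l _
    rw [smul_mul_assoc]
    exact Submodule.smul_mem _ _ (Submodule.subset_span ⟨(l, k.2), rfl⟩)
  have hcard : Fintype.card (Fin m × Fin m) = Module.finrank K D :=
    (Module.finrank_eq_card_basis b).symm
  refine ⟨basisOfTopLeSpanOfCardEqFinrank _ hspan hcard, fun k => ?_⟩
  rw [coe_basisOfTopLeSpanOfCardEqFinrank]

theorem expand_F {m : ℕ} {π : D} (hπ : π ^ m = algebraMap K D t)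
    {ι : GaloisField p m →+* D}
    (e : Module.Basis (Fin m) (ZMod p) (GaloisField p m)) (x : GaloisField p m) (a : ℕ) :
    ι x * π ^ a = ∑ l, (zm p K (e.repr x l) * t ^ (a / m)) • (ι (e l) * π ^ (a % m)) := by
  have h1 : π ^ a = t ^ (a / m) • π ^ (a % m) := by
    conv_lhs => rw [← Nat.div_add_mod a m, pow_add, pow_mul, hπ, ← map_pow, ← Algebra.smul_def]
  conv_lhs => rw [← e.sum_repr x, map_sum, Finset.sum_mul, h1]
  apply Finset.sum_congr rfl
  intro l _
  rw [iota_smul (K := K), smul_mul_smul_comm]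

end

variable {D₁ : Type z} [DivisionRing D₁] [Algebra K D₁] {D₂ : Type z'} [DivisionRing D₂]
  [Algebra K D₂]

theorem iso {m r r' : ℕ} (hm : 0 < m) (h1 : Std p t m r D₁) (h2 : Std p t m r' D₂)
    (hr : r ≡ r' [MOD m]) : Nonempty (D₁ ≃ₐ[K] D₂) := by
  classical
  obtain ⟨ζ₁, π₁, b₁, ho₁, hrel₁, hπ₁, hb₁⟩ := h1
  obtain ⟨ζ₂, π₂, b₂, ho₂, hrel₂, hπ₂, hb₂⟩ := h2
  have hc₁ : CharP D₁ p := charP_of_injective_algebraMap (algebraMap K D₁).injective p
  have hc₂ : CharP D₂ p := charP_of_injective_algebraMap (algebraMap K D₂).injective p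
  obtain ⟨ι₁, η₁, hι₁, hη₁⟩ := emb p hm ho₁
  obtain ⟨ι₂, η₂, hι₂, hη₂⟩ := emb p hm ho₂
  have hfr : Module.finrank (ZMod p) (GaloisField p m) = m := GaloisField.finrank p hm.ne'
  let e : Module.Basis (Fin m) (ZMod p) (GaloisField p m) :=
    (Module.finBasis (ZMod p) (GaloisField p m)).reindex (finCongr hfr)
  obtain ⟨B₁, hB₁⟩ := basis_F hb₁ hι₁ e
  obtain ⟨B₂, hB₂⟩ := basis_F hb₂ hι₂ e
  let φ : D₁ ≃ₗ[K] D₂ := B₁.equiv B₂ (Equiv.refl _)
  have hφB : ∀ k : Fin m × Fin m, φ (ι₁ (e k.1) * π₁ ^ (k.2 : ℕ)) = ι₂ (e k.1) * π₂ ^ (k.2 : ℕ) := by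
    intro k
    rw [← hB₁, ← hB₂]
    simp only [φ, Module.Basis.equiv_apply, Equiv.refl_apply]
  have hφ : ∀ (x : GaloisField p m) (a : ℕ), φ (ι₁ x * π₁ ^ a) = ι₂ x * π₂ ^ a := by
    intro x a
    rw [expand_F (K := K) hπ₁ e x a, expand_F (K := K) hπ₂ e x a, map_sum]
    apply Finset.sum_congr rfl
    intro l _
    rw [map_smul]
    congr 1
    exact hφB (l, ⟨a % m, Nat.mod_lt _ hm⟩)
  have hrr : ∀ (x : GaloisField p m) (j : ℕ), x ^ ((p ^ r) ^ j) = x ^ ((p ^ r') ^ j) := by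
    intro x j
    rw [← pow_mul, ← pow_mul, pow_mod_eq (gf_card_pow hm x) (r * j),
      pow_mod_eq (gf_card_pow hm x) (r' * j)]
    have h3 : r * j ≡ r' * j [MOD m] := Nat.ModEq.mul_right j hr
    rw [h3]
  have hmul : (LinearMap.mul K D₁).compr₂ φ.toLinearMap =
      (LinearMap.mul K D₂).compl₁₂ φ.toLinearMap φ.toLinearMap := by
    apply B₁.ext
    intro k
    apply B₁.ext
    intro l
    simp only [LinearMap.compr₂_apply, LinearMap.compl₁₂_apply, LinearMap.mul_apply',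
      LinearEquiv.coe_coe]
    rw [hB₁, hB₁, hφB, hφB]
    have e1 : ι₁ (e k.1) * π₁ ^ (k.2 : ℕ) * (ι₁ (e l.1) * π₁ ^ (l.2 : ℕ)) =
        ι₁ (e k.1 * (e l.1) ^ ((p ^ r) ^ (k.2 : ℕ))) * π₁ ^ ((k.2 : ℕ) + (l.2 : ℕ)) := by
      rw [mul_assoc, ← mul_assoc (π₁ ^ (k.2 : ℕ)), rel_F hm hrel₁ hι₁ hη₁, map_mul, pow_add]
      simp only [mul_assoc]
    have e2 : ι₂ (e k.1) * π₂ ^ (k.2 : ℕ) * (ι₂ (e l.1) * π₂ ^ (l.2 : ℕ)) =
        ι₂ (e k.1 * (e l.1) ^ ((p ^ r') ^ (k.2 : ℕ))) * π₂ ^ ((k.2 : ℕ) + (l.2 : ℕ)) := by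
      rw [mul_assoc, ← mul_assoc (π₂ ^ (k.2 : ℕ)), rel_F hm hrel₂ hι₂ hη₂, map_mul, pow_add]
      simp only [mul_assoc]
    rw [e1, e2, hφ, hrr]
  refine ⟨AlgEquiv.ofLinearEquiv φ ?_ ?_⟩
  · have h3 := hφ 1 0
    rw [map_one, map_one, pow_zero, pow_zero, mul_one, mul_one] at h3
    exact h3
  · intro x y
    have h3 := LinearMap.congr_fun (LinearMap.congr_fun hmul x) y
    simp only [LinearMap.compr₂_apply, LinearMap.compl₁₂_apply, LinearMap.mul_apply',
      LinearEquiv.coe_coe] at h3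
    exact h3

end Pool.Agent.Helper28.BR
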