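import Mathlib

/-!
# Polynomial functions with values in a finite dimensional algebra
-/

set_option autoImplicit false

universe u z

namespace Pool.Agent.Helper28.BR

variable {K : Type u} [Field K] {r : ℕ}

/-- `F` is given by a polynomial -/
def Pol (F : (Fin r → K) → K) : Prop :=
  ∃ P : MvPolynomial (Fin r) K, ∀ x, F x = MvPolynomial.eval x P

theorem Pol.const (c : K) : Pol (fun _ : Fin r → K => c) :=
  ⟨MvPolynomial.C c, fun _ => (MvPolynomial.eval_C c).symm⟩

theorem Pol.coord (i : Fin r) : Pol (fun x : Fin r → K => x i) :=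
  ⟨MvPolynomial.X i, fun x => (MvPolynomial.eval_X (f := x) i).symm⟩

theorem Pol.add {F G : (Fin r → K) → K} (hF : Pol F) (hG : Pol G) :
    Pol (fun x => F x + G x) := by
  obtain ⟨P, hP⟩ := hF
  obtain ⟨Q, hQ⟩ := hG
  exact ⟨P + Q, fun x => by rw [map_add, ← hP, ← hQ]⟩

theorem Pol.mul {F G : (Fin r → K) → K} (hF : Pol F) (hG : Pol G) :
    Pol (fun x => F x * G x) := by
  obtain ⟨P, hP⟩ := hF
  obtain ⟨Q, hQ⟩ := hG
  exact ⟨P * Q, fun x => by rw [map_mul, ← hP, ← hQ]⟩

theorem Pol.sum {ι : Type*} (s : Finset ι) {F : ι → (Fin r → K) → K} (hF : ∀ i ∈ s, Pol (F i)) :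
    Pol (fun x => ∑ i ∈ s, F i x) := by
  classical
  induction s using Finset.induction_on with
  | empty => simpa using Pol.const (r := r) (0 : K)
  | insert i s hi ih =>
    simp only [Finset.sum_insert hi]
    exact (hF i (Finset.mem_insert_self i s)).add
      (ih fun j hj => hF j (Finset.mem_insert_of_mem hj))

theorem Pol.prod {ι : Type*} (s : Finset ι) {F : ι → (Fin r → K) → K} (hF : ∀ i ∈ s, Pol (F i)) :
    Pol (fun x => ∏ i ∈ s, F i x) := by
  classical
  induction s using Finset.induction_on with
  | empty => simpa using Pol.const (r := r) (1 : K)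
  | insert i s hi ih =>
    simp only [Finset.prod_insert hi]
    exact (hF i (Finset.mem_insert_self i s)).mul
      (ih fun j hj => hF j (Finset.mem_insert_of_mem hj))

variable {D : Type z} [Ring D] [Algebra K D]

/-- all coordinates of `F` are polynomials -/
def PolD (F : (Fin r → K) → D) : Prop := ∀ φ : D →ₗ[K] K, Pol (fun x => φ (F x))

theorem PolD.const (c : D) : PolD (fun _ : Fin r → K => c) := fun φ => Pol.const (φ c)

theorem PolD.smul (i : Fin r) (c : D) : PolD (fun x : Fin r → K => x i • c) := by
  intro φ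
  simp only [map_smul, smul_eq_mul]
  exact (Pol.coord i).mul (Pol.const _)

theorem PolD.add {F G : (Fin r → K) → D} (hF : PolD F) (hG : PolD G) :
    PolD (fun x => F x + G x) := by
  intro φ
  simp only [map_add]
  exact (hF φ).add (hG φ)

theorem PolD.neg {F : (Fin r → K) → D} (hF : PolD F) : PolD (fun x => -F x) := by
  intro φ
  have h1 := (Pol.const (r := r) (-1 : K)).mul (hF φ)
  simp only [map_neg]
  simpa using h1

theorem PolD.sub {F G : (Fin r → K) → D} (hF : PolD F) (hG : PolD G) :
    PolD (fun x => F x - G x) := by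
  simp only [sub_eq_add_neg]
  exact hF.add hG.neg

theorem PolD.sum {ι : Type*} (s : Finset ι) {F : ι → (Fin r → K) → D}
    (hF : ∀ i ∈ s, PolD (F i)) : PolD (fun x => ∑ i ∈ s, F i x) := by
  intro φ
  simp only [map_sum]
  exact Pol.sum s fun i hi => hF i hi φ

variable [FiniteDimensional K D]

theorem PolD.mul {F G : (Fin r → K) → D} (hF : PolD F) (hG : PolD G) :
    PolD (fun x => F x * G x) := by
  intro φ
  set b := Module.finBasis K D with hb
  have h1 : ∀ x, φ (F x * G x) = ∑ i, ∑ j, b.coord i (F x) * (b.coord j (G x) *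
      φ (b i * b j)) := by
    intro x
    conv_lhs => rw [← b.sum_repr (F x), ← b.sum_repr (G x)]
    rw [Finset.sum_mul, map_sum]
    apply Finset.sum_congr rfl
    intro i _
    rw [Finset.mul_sum, map_sum]
    apply Finset.sum_congr rfl
    intro j _
    rw [smul_mul_smul_comm, map_smul, smul_eq_mul, mul_assoc]
    rfl
  simp only [h1]
  exact Pol.sum _ fun i _ => Pol.sum _ fun j _ => (hF _).mul ((hG _).mul (Pol.const _))

theorem PolD.pow {F : (Fin r → K) → D} (hF : PolD F) (k : ℕ) : PolD (fun x => F x ^ k) := by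
  induction k with
  | zero => simpa using PolD.const (r := r) (1 : D)
  | succ k ih =>
    simp only [pow_succ]
    exact ih.mul hF

/-- the norm of a polynomial map is a polynomial -/
theorem PolD.norm {F : (Fin r → K) → D} (hF : PolD F) :
    Pol (fun x => Algebra.norm K (F x)) := by
  classical
  set b := Module.finBasis K D with hb
  have h1 : ∀ x, Algebra.norm K (F x) = ∑ σ : Equiv.Perm (Fin (Module.finrank K D)),
      ((Equiv.Perm.sign σ : ℤ) : K) * ∏ i, b.coord (σ i) (F x * b i) := by
    intro x
    rw [Algebra.norm_eq_matrix_det b, Matrix.det_apply']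
    apply Finset.sum_congr rfl
    intro σ _
    congr 1
    apply Finset.prod_congr rfl
    intro i _
    rw [Algebra.leftMulMatrix_eq_repr_mul]
    rfl
  simp only [h1]
  exact Pol.sum _ fun σ _ => (Pol.const _).mul (Pol.prod _ fun i _ =>
    (hF.mul (PolD.const (b i))) (b.coord (σ i)))

end Pool.Agent.Helper28.BR
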