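import Pool.Agent.Helper28.BR.Norm
import Pool.Agent.Helper28.BR.Pol
import Pool.Agent.Helper28.QF.Main

/-!
# Orthogonal bases of division algebras
-/

set_option autoImplicit false

universe u w z

namespace Pool.Agent.Helper28.BR

open Pool.Agent.Helper28.EX Pool.Agent.Helper28.QF

variable {p : ℕ} [hp : Fact p.Prime] {K : Type u} {Γ : Type w} [Field K]
  [LinearOrderedCommGroupWithZero Γ] {v : Valuation K Γ} {t : K}
  {D : Type z} [DivisionRing D] [Algebra K D] [FiniteDimensional K D]

omit hp in
theorem unif_of_zunif (p : ℕ) [hp : Fact p.Prime] (ht : ZUnif v t) : Unif p v t :=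
  ⟨ht.t0, ht.t1, ht.max, ht.res, fun x hx => ht.grp p hp.out.pos x hx⟩

/-- orthogonal families -/
def OrthD (v : Valuation K Γ) {r : ℕ} (b : Fin r → D) : Prop :=
  (∀ i, b i ≠ 0) ∧ ∀ (y : Fin r → K) (i : Fin r),
    v (y i) ^ Module.finrank K D * wv v (b i) ≤ wv v (∑ j, y j • b j)

/-- polynomial functions with values in the algebra: norms attain their least value -/
theorem exists_min (hE : Extremal v) {r : ℕ} {F : (Fin r → K) → D} (hF : PolD F) :
    ∃ x : Fin r → K, (∀ i, v (x i) ≤ 1) ∧
      ∀ y : Fin r → K, (∀ i, v (y i) ≤ 1) → wv v (F x) ≤ wv v (F y) := by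
  obtain ⟨P, hP⟩ := hF.norm
  obtain ⟨x, hx, hmin⟩ := hE r P
  refine ⟨x, hx, fun y hy => ?_⟩
  have h1 := hmin y hy
  rw [← hP, ← hP] at h1
  exact h1

theorem finrank_ne : Module.finrank K D ≠ 0 := by
  have h : 0 < Module.finrank K D := Module.finrank_pos
  exact h.ne'

theorem wv_sub_ge (hE : Extremal v) (hU : Unif p v t) [CharP K p] {a w : D}
    (hw : wv v a < wv v w) : wv v w ≤ wv v (a - w) := by
  have h1 := wv_add hE hU a (-(a - w))
  have h2 : a + -(a - w) = w := by abel
  rw [h2, wv_neg] at h1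
  rcases le_max_iff.1 h1 with h3 | h3
  · exact absurd hw (not_lt.2 h3)
  · exact h3

theorem scaleD {a b : D} (hb : b ≠ 0) :
    ∃ s : K, s ≠ 0 ∧ wv v a ≤ v s ^ Module.finrank K D * wv v b := by
  have hp := wv_pos (v := v) hb
  by_cases hab : wv v a ≤ wv v b
  · exact ⟨1, one_ne_zero, by rw [map_one, one_pow, one_mul]; exact hab⟩
  · rw [not_le] at hab
    have ha : a ≠ 0 := by
      rintro rfl
      rw [wv_zero] at hab
      exact not_lt_zero hab
    have hNa : Algebra.norm K a ≠ 0 := by
      intro h0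
      apply wv_ne_zero (v := v) ha
      unfold wv
      rw [h0, map_zero]
    have hNb : Algebra.norm K b ≠ 0 := by
      intro h0
      apply wv_ne_zero (v := v) hb
      unfold wv
      rw [h0, map_zero]
    refine ⟨Algebra.norm K a / Algebra.norm K b, div_ne_zero hNa hNb, ?_⟩
    have e1 : v (Algebra.norm K a / Algebra.norm K b) = wv v a / wv v b := by
      rw [map_div₀]; rfl
    have h1 : 1 ≤ wv v a / wv v b := by
      rw [one_le_div₀ hp]
      exact hab.le
    rw [e1]
    calc wv v a = wv v a / wv v b * wv v b := (div_mul_cancel₀ _ hp.ne').symm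
      _ ≤ _ := mul_le_mul_left (le_self_pow₀ h1 finrank_ne) _

theorem approxD (hE : Extremal v) (hU : Unif p v t) [CharP K p] {r : ℕ} {b : Fin r → D}
    (hb : OrthD v b) (a : D) :
    ∃ x : Fin r → K, ∀ y : Fin r → K,
      wv v (a - ∑ i, x i • b i) ≤ wv v (a - ∑ i, y i • b i) := by
  choose s hs0 hs using fun i => scaleD (v := v) (a := a) (hb.1 i)
  have hF : PolD (fun x : Fin r → K => a - ∑ i, x i • (s i • b i)) :=
    (PolD.const a).sub (PolD.sum _ fun i _ => PolD.smul i _)
  obtain ⟨x, hxO, hmin⟩ := exists_min hE hF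
  refine ⟨fun i => x i * s i, fun y => ?_⟩
  have e1 : ∀ z : Fin r → K, (∑ i, z i • (s i • b i)) = ∑ i, (z i * s i) • b i := by
    intro z
    simp only [smul_smul]
  by_cases hy : ∀ i, v (y i) ≤ v (s i)
  · have h1 := hmin (fun i => y i / s i) (by
      intro i
      rw [map_div₀, div_le_one₀ (zero_lt_iff.2 ((Valuation.ne_zero_iff v).2 (hs0 i)))]
      exact hy i)
    rw [e1, e1] at h1
    have h2 : ∀ i, y i / s i * s i = y i := fun i => div_mul_cancel₀ _ (hs0 i)
    simp only [h2] at h1
    exact h1
  · push Not at hy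
    obtain ⟨i, hi⟩ := hy
    have h1 : wv v a < wv v (∑ j, y j • b j) := by
      calc wv v a ≤ v (s i) ^ Module.finrank K D * wv v (b i) := hs i
        _ < v (y i) ^ Module.finrank K D * wv v (b i) :=
            mul_lt_mul_of_pos_right (pow_lt_pow_left₀ hi zero_le finrank_ne) (wv_pos (hb.1 i))
        _ ≤ _ := hb.2 y i
    have h3 := hmin (fun _ => 0) (fun _ => by rw [map_zero]; exact zero_le_one)
    rw [e1, e1] at h3
    simp only [zero_mul, zero_smul, Finset.sum_const_zero, sub_zero] at h3
    exact (h3.trans h1.le).trans (wv_sub_ge hE hU h1)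

theorem extendD (hE : Extremal v) (hU : Unif p v t) [CharP K p] {r : ℕ} {b : Fin r → D}
    (hb : OrthD v b) {a : D} (ha : a ∉ Submodule.span K (Set.range b)) :
    ∃ b' : Fin (r + 1) → D, OrthD v b' := by
  obtain ⟨x, hxmin⟩ := approxD hE hU hb a
  set b0 := a - ∑ i, x i • b i with hb0
  have hb0ne : b0 ≠ 0 := by
    intro h0
    apply ha
    rw [sub_eq_zero.1 h0]
    exact Submodule.sum_mem _ fun i _ =>
      Submodule.smul_mem _ _ (Submodule.subset_span (Set.mem_range_self i))
  refine ⟨Fin.cons b0 b, ?_, ?_⟩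
  · intro i
    refine Fin.cases ?_ (fun j => ?_) i
    · rw [Fin.cons_zero]; exact hb0ne
    · rw [Fin.cons_succ]; exact hb.1 j
  · intro y i
    rw [Fin.sum_univ_succ]
    simp only [Fin.cons_zero, Fin.cons_succ]
    set w := ∑ j : Fin r, y j.succ • b j with hw
    have key : v (y 0) ^ Module.finrank K D * wv v b0 ≤ wv v (y 0 • b0 + w) := by
      by_cases hy0 : y 0 = 0
      · rw [hy0, map_zero, zero_pow finrank_ne, zero_mul]
        exact zero_le
      · have h1 : y 0 • b0 + w = y 0 • (a - ∑ j, (x j - (y 0)⁻¹ * y j.succ) • b j) := by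
          simp only [sub_smul, Finset.sum_sub_distrib]
          rw [hb0, hw, smul_sub, smul_sub, smul_sub, Finset.smul_sum, Finset.smul_sum]
          have h2 : ∀ j : Fin r, y 0 • ((y 0)⁻¹ * y j.succ) • b j = y j.succ • b j := by
            intro j
            rw [smul_smul, mul_inv_cancel_left₀ hy0]
          simp only [h2]
          abel
        rw [h1, wv_smul]
        exact mul_le_mul_right (hxmin _) _
    refine Fin.cases ?_ (fun j => ?_) i
    · rw [Fin.cons_zero]
      exact key
    · rw [Fin.cons_succ]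
      refine (hb.2 (fun j => y j.succ) j).trans ?_
      have h2 := wv_add hE hU (y 0 • b0 + w) (-(y 0 • b0))
      have h3 : y 0 • b0 + w + -(y 0 • b0) = w := by abel
      rw [h3, wv_neg, wv_smul] at h2
      exact h2.trans (max_le le_rfl key)

theorem OrthD.linearIndependent {r : ℕ} {b : Fin r → D} (hb : OrthD v b) :
    LinearIndependent K b := by
  rw [Fintype.linearIndependent_iff]
  intro y hy i
  have h1 := hb.2 y i
  rw [hy, wv_zero, le_zero_iff, mul_eq_zero] at h1
  rcases h1 with h1 | h1
  · exact (Valuation.zero_iff v).1 (eq_zero_of_pow_eq_zero h1)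
  · exact absurd h1 (wv_pos (hb.1 i)).ne'

/-- there is an orthogonal basis -/
theorem basisD (hE : Extremal v) (hU : Unif p v t) [CharP K p] :
    ∃ b : Fin (Module.finrank K D) → D, OrthD v b := by
  have key : ∀ r : ℕ, r ≤ Module.finrank K D → ∃ b : Fin r → D, OrthD v b := by
    intro r
    induction r with
    | zero =>
      intro _
      exact ⟨fun i => i.elim0, fun i => i.elim0, fun _ i => i.elim0⟩
    | succ r ih =>
      intro hr
      obtain ⟨b, hb⟩ := ih (by omega)
      obtain ⟨a, ha⟩ : ∃ a : D, a ∉ Submodule.span K (Set.range b) := by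
        by_contra hn
        push Not at hn
        have h1 : Submodule.span K (Set.range b) = ⊤ := by
          rw [Submodule.eq_top_iff']
          exact hn
        have h2 := finrank_range_le_card (R := K) b
        rw [Set.finrank, h1, finrank_top, Fintype.card_fin] at h2
        omega
      exact extendD hE hU hb ha
  exact key _ le_rfl

/-- an orthogonal basis which is a basis of the valuation ring -/
theorem lattice (hE : Extremal v) [CharP K p] (ht : ZUnif v t) :
    ∃ b : Fin (Module.finrank K D) → D, (∀ i, wv v (b i) ≤ 1) ∧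
      ∀ x : D, ∃ y : Fin (Module.finrank K D) → K, x = ∑ i, y i • b i ∧
        (wv v x ≤ 1 → ∀ i, v (y i) ≤ 1) := by
  obtain ⟨b, hb⟩ := basisD (D := D) hE (unif_of_zunif p ht)
  have hn0 : Module.finrank K D ≠ 0 := finrank_ne
  have hN : ∀ i, Algebra.norm K (b i) ≠ 0 := by
    intro i h0
    apply wv_ne_zero (v := v) (hb.1 i)
    unfold wv
    rw [h0, map_zero]
  choose k y hk hy using fun i => ht.grp (Module.finrank K D) (Nat.pos_of_ne_zero hn0) _ (hN i)
  have hy0 : ∀ i, y i ≠ 0 := by
    intro i h0
    have h1 := hy i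
    rw [h0, zero_pow hn0, mul_zero, map_zero, Valuation.zero_iff] at h1
    exact hN i h1
  have hvt : 0 < v t := zero_lt_iff.2 ((Valuation.ne_zero_iff v).2 ht.t0)
  have hwb : ∀ i, wv v ((y i)⁻¹ • b i) = v t ^ k i := by
    intro i
    have hyi : v (y i) ≠ 0 := (Valuation.ne_zero_iff v).2 (hy0 i)
    have h1 : wv v (b i) = v t ^ k i * v (y i) ^ Module.finrank K D := by
      unfold wv
      rw [hy i, map_mul, map_pow, map_pow]
    rw [wv_smul, h1, map_inv₀, inv_pow, mul_comm (v t ^ k i),
      inv_mul_cancel_left₀ (pow_ne_zero _ hyi)]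
  refine ⟨fun i => (y i)⁻¹ • b i, fun i => ?_, fun x => ?_⟩
  · rw [hwb]
    exact pow_le_one₀ zero_le ht.t1.le
  · have hspan : Submodule.span K (Set.range b) = ⊤ :=
      hb.linearIndependent.span_eq_top_of_card_eq_finrank' (by rw [Fintype.card_fin])
    have hx : x ∈ Submodule.span K (Set.range b) := by
      rw [hspan]
      exact Submodule.mem_top
    obtain ⟨c, hc⟩ := (Submodule.mem_span_range_iff_exists_fun K).1 hx
    have hexp : x = ∑ i, (c i * y i) • (y i)⁻¹ • b i := by
      rw [← hc]
      apply Finset.sum_congr rfl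
      intro i _
      rw [smul_smul, mul_assoc, mul_inv_cancel₀ (hy0 i), mul_one]
    refine ⟨fun i => c i * y i, hexp, fun hx1 i => ?_⟩
    have h1 := hb.2 c i
    rw [hc] at h1
    have h2 : v (c i * y i) ^ Module.finrank K D * v t ^ k i ≤ 1 := by
      have h3 : v (c i) ^ Module.finrank K D * wv v (b i) = v (c i * y i) ^ Module.finrank K D * v t ^ k i := by
        have h4 : wv v (b i) = v t ^ k i * v (y i) ^ Module.finrank K D := by
          unfold wv
          rw [hy i, map_mul, map_pow, map_pow]
        rw [h4, map_mul, mul_pow, mul_assoc, mul_comm (v t ^ k i)]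
      rw [← h3]
      exact h1.trans hx1
    by_contra hcon'
    have hcon : 1 < v (c i * y i) := not_le.1 hcon'
    have hci : c i * y i ≠ 0 := by
      intro h0
      rw [h0, map_zero] at hcon
      exact not_lt_zero hcon
    have h3 : v (c i * y i)⁻¹ ≤ v t := by
      apply ht.max
      rw [map_inv₀]
      exact inv_lt_one_of_one_lt₀ hcon
    have hpos : 0 < v (c i * y i) := zero_lt_one.trans hcon
    have h4 : 1 ≤ v t * v (c i * y i) := by
      rw [map_inv₀, inv_le_iff_one_le_mul₀ hpos] at h3
      exact h3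
    have h5 : 1 < v (c i * y i) ^ Module.finrank K D * v t ^ k i := by
      have h6 : v t ^ Module.finrank K D < v t ^ k i := pow_lt_pow_right_of_lt_one₀ hvt ht.t1 (hk i)
      calc (1 : Γ) ≤ (v t * v (c i * y i)) ^ Module.finrank K D := one_le_pow₀ h4
        _ = v (c i * y i) ^ Module.finrank K D * v t ^ Module.finrank K D := by rw [mul_pow, mul_comm]
        _ < v (c i * y i) ^ Module.finrank K D * v t ^ k i := mul_lt_mul_of_pos_left h6 (pow_pos hpos _)
    exact absurd h2 (not_le.2 h5)

end Pool.Agent.Helper28.BR
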