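import Pool.Agent.Helper28.BR.Fac

/-!
# The value of the norm of a division algebra is ultrametric
-/

set_option autoImplicit false

universe u w z

open Polynomial

namespace Pool.Agent.Helper28.BR

open Pool.Agent.Helper28.EX

section power

variable {K : Type u} [Field K]

theorem pow_of_roots (N : ℕ) : ∀ {χ q : K[X]}, χ.natDegree ≤ N → χ.Monic → q.Monic →
    Irreducible q → (∀ α : AlgebraicClosure K, aeval α χ = 0 → aeval α q = 0) →
    ∃ k : ℕ, χ = q ^ k := by
  induction N with
  | zero =>
    intro χ q hN hχ _ _ _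
    refine ⟨0, ?_⟩
    rw [pow_zero]
    exact hχ.natDegree_eq_zero.1 (by omega)
  | succ N ih =>
    intro χ q hN hχ hq hqi hroot
    by_cases h0 : χ.natDegree = 0
    · refine ⟨0, ?_⟩
      rw [pow_zero]
      exact hχ.natDegree_eq_zero.1 h0
    · obtain ⟨α, hα⟩ := IsAlgClosed.exists_aeval_eq_zero (AlgebraicClosure K) χ (by
        intro h
        apply h0
        exact natDegree_eq_zero_iff_degree_le_zero.2 h.le)
      have hqα := hroot α hα
      have hmin : q = minpoly K α := by
        exact minpoly.eq_of_irreducible_of_monic hqi hqα hq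
      have hdvd : q ∣ χ := by
        rw [hmin]
        exact minpoly.dvd K α hα
      obtain ⟨χ', hχ'⟩ := hdvd
      have hm' : χ'.Monic := by
        refine hq.of_mul_monic_left ?_
        rw [← hχ']
        exact hχ
      have hqd : 0 < q.natDegree := hqi.natDegree_pos
      have hdeg : χ.natDegree = q.natDegree + χ'.natDegree := by
        rw [hχ', hq.natDegree_mul hm']
      obtain ⟨k, hk⟩ := ih (χ := χ') (q := q) (by omega) hm' hq hqi (fun β hβ => by
        apply hroot
        rw [hχ', map_mul, hβ, mul_zero])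
      exact ⟨k + 1, by rw [hχ', hk, pow_succ']⟩

variable {D : Type z} [DivisionRing D] [Algebra K D] [FiniteDimensional K D]

theorem charpoly_pow (x : D) : ∃ k : ℕ, 0 < k ∧
    (Algebra.lmul K D x).charpoly = minpoly K x ^ k := by
  have hx : IsIntegral K x := Algebra.IsIntegral.isIntegral x
  obtain ⟨k, hk⟩ := pow_of_roots (Algebra.lmul K D x).charpoly.natDegree le_rfl
    (LinearMap.charpoly_monic _) (minpoly.monic hx) (minpoly.irreducible hx) (by
    intro α hα
    set f := (Algebra.lmul K D x).baseChange (AlgebraicClosure K) with hf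
    have h1 : f.charpoly.IsRoot α := by
      rw [hf, LinearMap.charpoly_baseChange, IsRoot.def, eval_map_algebraMap]
      exact hα
    have h2 := (Module.End.hasEigenvalue_iff_isRoot_charpoly f α).2 h1
    obtain ⟨z, hz⟩ := h2.exists_hasEigenvector
    have h3 := Module.End.aeval_apply_of_hasEigenvector
      (p := (minpoly K x).map (algebraMap K (AlgebraicClosure K))) hz
    have h4 : aeval f ((minpoly K x).map (algebraMap K (AlgebraicClosure K))) = 0 := by
      rw [aeval_map_algebraMap]
      have h5 : f = Module.End.baseChangeHom K (AlgebraicClosure K) D (Algebra.lmul K D x) := rfl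
      rw [h5, aeval_algHom_apply, aeval_algHom_apply, minpoly.aeval, map_zero, map_zero]
    rw [h4, LinearMap.zero_apply, eval_map_algebraMap] at h3
    exact (smul_eq_zero.1 h3.symm).resolve_right hz.2)
  refine ⟨k, ?_, hk⟩
  rcases Nat.eq_zero_or_pos k with rfl | h
  · exfalso
    have h1 : (Algebra.lmul K D x).charpoly.natDegree = Module.finrank K D :=
      LinearMap.charpoly_natDegree _
    rw [hk, pow_zero, natDegree_one] at h1
    have h2 : 0 < Module.finrank K D := Module.finrank_pos
    omega
  · exact h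

theorem norm_eq (x : D) {k : ℕ} (hk : (Algebra.lmul K D x).charpoly = minpoly K x ^ k) (c : K) :
    Algebra.norm K (algebraMap K D c - x) = ((minpoly K x).eval c) ^ k := by
  have h1 := LinearMap.eval_charpoly (Algebra.lmul K D x) c
  rw [hk, eval_pow] at h1
  rw [Algebra.norm_apply, h1]
  congr 1
  ext y
  simp [Algebra.smul_def]

end power

variable {p : ℕ} [hp : Fact p.Prime] {K : Type u} {Γ : Type w} [Field K]
  [LinearOrderedCommGroupWithZero Γ] {v : Valuation K Γ} {t : K}
  {D : Type z} [DivisionRing D] [Algebra K D] [FiniteDimensional K D]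

/-- the value of the norm -/
noncomputable def wv (v : Valuation K Γ) (x : D) : Γ := v (Algebra.norm K x)

omit [FiniteDimensional K D] in
theorem wv_mul (x y : D) : wv v (x * y) = wv v x * wv v y := by
  unfold wv
  rw [map_mul, map_mul]

omit [FiniteDimensional K D] in
theorem wv_one : wv v (1 : D) = 1 := by
  unfold wv
  rw [map_one, map_one]

theorem wv_ne_zero {x : D} (hx : x ≠ 0) : wv v x ≠ 0 := by
  intro h
  have h1 : wv v (x * x⁻¹) = 0 := by rw [wv_mul, h, zero_mul]
  rw [mul_inv_cancel₀ hx, wv_one] at h1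
  exact one_ne_zero h1

theorem wv_zero : wv v (0 : D) = 0 := by
  have h0 : 0 < Module.finrank K D := Module.finrank_pos
  unfold wv
  have h1 : Algebra.norm K (algebraMap K D 0) = (0 : K) ^ Module.finrank K D :=
    Algebra.norm_algebraMap 0
  rw [map_zero, zero_pow h0.ne'] at h1
  rw [h1, map_zero]

theorem wv_eq_zero {x : D} : wv v x = 0 ↔ x = 0 := by
  constructor
  · intro h
    by_contra hx
    exact wv_ne_zero hx h
  · rintro rfl
    exact wv_zero

theorem wv_pos {x : D} (hx : x ≠ 0) : 0 < wv v x := zero_lt_iff.2 (wv_ne_zero hx)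

theorem wv_algebraMap (c : K) : wv v (algebraMap K D c) = v c ^ Module.finrank K D := by
  unfold wv
  rw [Algebra.norm_algebraMap, map_pow]

theorem wv_smul (c : K) (x : D) : wv v (c • x) = v c ^ Module.finrank K D * wv v x := by
  rw [Algebra.smul_def, wv_mul, wv_algebraMap]

theorem wv_inv (x : D) : wv v x⁻¹ = (wv v x)⁻¹ := by
  by_cases hx : x = 0
  · rw [hx, inv_zero, wv_zero, inv_zero]
  · apply eq_inv_of_mul_eq_one_left
    rw [← wv_mul, inv_mul_cancel₀ hx, wv_one]

theorem wv_pow (x : D) (k : ℕ) : wv v (x ^ k) = wv v x ^ k := by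
  induction k with
  | zero => rw [pow_zero, pow_zero, wv_one]
  | succ k ih => rw [pow_succ, pow_succ, wv_mul, ih]

theorem wv_neg (x : D) : wv v (-x) = wv v x := by
  have h1 := wv_smul (v := v) (-1 : K) x
  rwa [neg_one_smul, Valuation.map_neg, map_one, one_pow, one_mul] at h1

theorem wv_one_add (hE : Extremal v) (hU : Unif p v t) [CharP K p] {x : D} (hx : wv v x ≤ 1) :
    wv v (1 + x) ≤ 1 := by
  have hxi : IsIntegral K x := Algebra.IsIntegral.isIntegral x
  obtain ⟨k, hk0, hk⟩ := charpoly_pow (K := K) x
  have h1 := norm_eq x hk 0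
  have h2 := norm_eq x hk (-1)
  have h3 : wv v x = v ((minpoly K x).eval 0) ^ k := by
    rw [← wv_neg, ← zero_sub, ← map_zero (algebraMap K D)]
    unfold wv
    rw [h1, map_pow]
  have h4 : wv v (1 + x) = v ((minpoly K x).eval (-1)) ^ k := by
    rw [← wv_neg]
    have h5 : -(1 + x) = algebraMap K D (-1) - x := by
      rw [map_neg, map_one]
      abel
    rw [h5]
    unfold wv
    rw [h2, map_pow]
  rw [h3] at hx
  have h5 : v ((minpoly K x).coeff 0) ≤ 1 := by
    rw [coeff_zero_eq_eval_zero]
    by_contra hcon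
    rw [not_le] at hcon
    exact absurd hx (not_le.2 (one_lt_pow₀ hcon hk0.ne'))
  have h6 := int_of_irred hE hU (minpoly.monic hxi) (minpoly.irreducible hxi) h5
  rw [h4]
  apply pow_le_one₀ zero_le
  rw [eval_eq_sum_range]
  apply v.map_sum_le
  intro i _
  rw [map_mul, map_pow, Valuation.map_neg, map_one, one_pow, mul_one]
  exact h6 i

theorem wv_add (hE : Extremal v) (hU : Unif p v t) [CharP K p] (x y : D) :
    wv v (x + y) ≤ max (wv v x) (wv v y) := by
  have key : ∀ x y : D, wv v y ≤ wv v x → wv v (x + y) ≤ wv v x := by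
    intro x y hxy
    by_cases hx : x = 0
    · rw [hx, wv_zero, le_zero_iff] at hxy
      rw [wv_eq_zero.1 hxy, add_zero]
    · have h1 : x + y = x * (1 + x⁻¹ * y) := by
        rw [mul_add, mul_one, mul_inv_cancel_left₀ hx]
      have h2 : wv v (x⁻¹ * y) ≤ 1 := by
        rw [wv_mul, wv_inv, inv_mul_le_iff₀ (wv_pos hx), mul_one]
        exact hxy
      rw [h1, wv_mul]
      calc wv v x * wv v (1 + x⁻¹ * y) ≤ wv v x * 1 :=
            mul_le_mul_right (wv_one_add hE hU h2) _
        _ = wv v x := mul_one _
  rcases le_total (wv v y) (wv v x) with h | h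
  · exact (key x y h).trans (le_max_left _ _)
  · rw [add_comm]
    exact (key y x h).trans (le_max_right _ _)

end Pool.Agent.Helper28.BR
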