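import Pool.Agent.Helper28.BR.Rank

/-!
# BR, block GOOD: the order spanned by the generators
-/

set_option autoImplicit false

namespace Pool.Agent.Helper28.BR

open TensorProduct IsLocalRing

section

variable {O F B : Type} [CommRing O] [IsDomain O]
    [Field F] [Algebra O F] [IsFractionRing O F] [Ring B] [Algebra F B] {N : ℕ} {g : Fin N → B}
    {f : Fin N → B →ₗ[F] F} (h : AzInt O F B N g f) [Algebra O B] [IsScalarTower O F B]

include h in
omit [IsDomain O] [IsFractionRing O F] in
theorem mul_mem_span : ∀ x y : B, x ∈ Submodule.span O (Set.range g) →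
    y ∈ Submodule.span O (Set.range g) → x * y ∈ Submodule.span O (Set.range g) := by
  intro x y hx hy
  induction hx using Submodule.span_induction with
  | mem x hx =>
    obtain ⟨i, rfl⟩ := hx
    induction hy using Submodule.span_induction with
    | mem y hy =>
      obtain ⟨j, rfl⟩ := hy
      obtain ⟨c, hc⟩ := h.mul i j
      rw [hc]
      refine Submodule.sum_mem _ fun k _ => ?_
      rw [algebraMap_smul]
      exact Submodule.smul_mem _ _ (Submodule.subset_span ⟨k, rfl⟩)
    | zero => rw [mul_zero]; exact Submodule.zero_mem _
    | add a b _ _ ha hb => rw [mul_add]; exact Submodule.add_mem _ ha hb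
    | smul c a _ ha => rw [mul_smul_comm]; exact Submodule.smul_mem _ _ ha
  | zero => rw [zero_mul]; exact Submodule.zero_mem _
  | add a b _ _ ha hb => rw [add_mul]; exact Submodule.add_mem _ ha hb
  | smul c a _ ha => rw [smul_mul_assoc]; exact Submodule.smul_mem _ _ ha

include h in
omit [IsDomain O] [IsFractionRing O F] in
theorem one_mem_span : (1 : B) ∈ Submodule.span O (Set.range g) := by
  obtain ⟨c, hc⟩ := h.one
  rw [hc]
  refine Submodule.sum_mem _ fun k _ => ?_
  rw [algebraMap_smul]
  exact Submodule.smul_mem _ _ (Submodule.subset_span ⟨k, rfl⟩)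

include h in
omit [IsDomain O] [IsFractionRing O F] in
theorem form_mem : ∀ x ∈ Submodule.span O (Set.range g), ∀ i,
    f i x ∈ LinearMap.range (Algebra.linearMap O F) := by
  intro x hx i
  induction hx using Submodule.span_induction with
  | mem x hx =>
    obtain ⟨j, rfl⟩ := hx
    obtain ⟨c, hc⟩ := h.int i j
    exact ⟨c, hc.symm⟩
  | zero => rw [map_zero]; exact Submodule.zero_mem _
  | add a b _ _ ha hb => rw [map_add]; exact Submodule.add_mem _ ha hb
  | smul c a _ ha =>
    rw [← algebraMap_smul F c a, map_smul, algebraMap_smul]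
    exact Submodule.smul_mem _ _ ha

/-- **GA.** the order spanned by the generators -/
theorem exists_order [IsDiscreteValuationRing O] (h : AzInt O F B N g f) :
    ∃ L : Subalgebra O B, Module.Finite O L ∧ Module.Free O L ∧
      Module.finrank O L = Module.finrank F B ∧ Submodule.span F (L : Set B) = ⊤ ∧ Az O L := by
  set p := Submodule.span O (Set.range g) with hp
  set L := p.toSubalgebra (one_mem_span h) (mul_mem_span h) with hL
  have hmem : ∀ x : B, x ∈ L ↔ x ∈ p := fun x => Iff.rfl
  have hinjF : Function.Injective (Algebra.linearMap O F) := IsFractionRing.injective O F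
  have hfin : Module.Finite O L := by
    have h1 : p.FG := ⟨(Set.finite_range g).toFinset, by rw [Set.Finite.coe_toFinset]⟩
    exact Module.Finite.iff_fg.2 h1
  have htf : Module.IsTorsionFree O B := Module.IsTorsionFree.trans_faithfulSMul O F B
  have hfree : Module.Free O L := inferInstance
  have hspan : Submodule.span F (L : Set B) = ⊤ := by
    rw [eq_top_iff]
    intro x _
    rw [h.rep x]
    refine Submodule.sum_mem _ fun i _ => Submodule.smul_mem _ _ (Submodule.subset_span ?_)
    exact Submodule.subset_span ⟨i, rfl⟩
  have hFD : FiniteDimensional F B := by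
    refine ⟨⟨(Set.finite_range g).toFinset, ?_⟩⟩
    rw [Set.Finite.coe_toFinset, eq_top_iff]
    intro x _
    rw [h.rep x]
    exact Submodule.sum_mem _ fun i _ => Submodule.smul_mem _ _ (Submodule.subset_span ⟨i, rfl⟩)
  refine ⟨L, hfin, hfree, ?_, hspan, ?_⟩
  · have h1 := finrank_fraction (F := F) L hspan 1
    have h2 : LinearMap.mulRight F ((1 : L) : B) = LinearMap.id := by
      ext x
      simp
    have h3 : LinearMap.mulRight O (1 : L) = LinearMap.id := by
      ext x
      simp
    rw [h2, h3, LinearMap.range_id, LinearMap.range_id, finrank_top, finrank_top] at h1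
    exact h1.symm
  · let ε : O ≃ₗ[O] LinearMap.range (Algebra.linearMap O F) := LinearEquiv.ofInjective _ hinjF
    let f' : Fin N → L →ₗ[O] O := fun i => ε.symm.toLinearMap.comp
      (LinearMap.codRestrict (LinearMap.range (Algebra.linearMap O F))
        (((f i).restrictScalars O).comp L.val.toLinearMap) (fun x => form_mem h x x.2 i))
    have hf' : ∀ i (x : L), algebraMap O F (f' i x) = f i (x : B) := by
      intro i x
      have h1 := ε.apply_symm_apply (LinearMap.codRestrict (LinearMap.range (Algebra.linearMap O F))
        (((f i).restrictScalars O).comp L.val.toLinearMap) (fun x => form_mem h x x.2 i) x)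
      exact congrArg Subtype.val h1
    refine ⟨N, fun i => ⟨g i, Submodule.subset_span ⟨i, rfl⟩⟩, f', ?_, ?_⟩
    · intro x
      apply Subtype.ext
      have h1 := h.rep (x : B)
      have h2 : ((∑ i, f' i x • (⟨g i, Submodule.subset_span ⟨i, rfl⟩⟩ : L) : L) : B) =
          ∑ i, f' i x • g i := by
        push_cast
        rfl
      rw [h2]
      conv_lhs => rw [h1]
      refine Finset.sum_congr rfl fun i _ => ?_
      rw [← hf', algebraMap_smul]
    · intro i j
      obtain ⟨t, ht⟩ := h.mat i j
      refine ⟨t, fun x => ?_⟩
      apply Subtype.ext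
      have h1 := ht (x : B)
      rw [← hf', algebraMap_smul] at h1
      refine Eq.trans (show _ = f' j x • g i from rfl) (h1.trans ?_)
      push_cast
      refine Finset.sum_congr rfl fun k _ => Finset.sum_congr rfl fun l _ => ?_
      rw [algebraMap_smul]

end

end Pool.Agent.Helper28.BR
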