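import Pool.Agent.Helper28.BR.Exist

/-!
# The pair of invariants
-/

set_option autoImplicit false

universe u w z

namespace Pool.Agent.Helper28.BR

open Pool.Agent.Helper28.EX Pool.Agent.Helper28.QF

variable {p : ℕ} [hp : Fact p.Prime] {K : Type u} {Γ : Type w} [Field K]
  [LinearOrderedCommGroupWithZero Γ] {v : Valuation K Γ} {t : K}
  {D : Type z} [DivisionRing D] [Algebra K D]

theorem Std.mod {m r : ℕ} (h : Std p t m r D) : Std p t m (r % m) D := by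
  obtain ⟨ζ, π, b, h1, h2, h3, h4⟩ := h
  refine ⟨ζ, π, b, h1, ?_, h3, h4⟩
  rw [h2]
  congr 1
  apply pow_mod_eq
  have h5 : 0 < p ^ m := pow_pos hp.out.pos _
  have h6 : ζ ^ (p ^ m) = ζ ^ (p ^ m - 1) * ζ := by
    rw [← pow_succ, Nat.sub_add_cancel h5]
  rw [h6, ← h1, pow_orderOf_eq_one, one_mul]

theorem unique_pair [FiniteDimensional K D] (hE : Extremal v) [CharP K p]
    [Algebra.IsCentral K D] (ht : ZUnif v t) :
    ∃! q : ℕ × ℕ, q.2 < q.1 ∧ Nat.Coprime q.2 q.1 ∧ Std p t q.1 q.2 D := by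
  obtain ⟨m, r, ζ, π, b, hm, hcop, h1, h2, h3, h4⟩ := main (D := D) (p := p) hE ht
  have hstd : Std p t m r D := ⟨ζ, π, b, h1, h2, h3, h4⟩
  refine ⟨(m, r % m), ⟨Nat.mod_lt _ hm, ?_, hstd.mod⟩, ?_⟩
  · have h5 : Nat.gcd (r % m) m = Nat.gcd r m := by
      rw [← Nat.gcd_rec, Nat.gcd_comm]
    exact h5.trans hcop
  · rintro ⟨m', r'⟩ ⟨hr', hcop', hstd'⟩
    have h5 := inv (D := D) hE ht hm hstd hstd'
    obtain ⟨rfl, hr⟩ := h5
    have h6 : r % m = r' % m := hr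
    simp only at hr'
    rw [h6, Nat.mod_eq_of_lt hr']

end Pool.Agent.Helper28.BR
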