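import Pool.Agent.Helper28.BR.Defs

/-!
# BR, block GOOD: rank one idempotents, ranks, the representation
-/

set_option autoImplicit false

namespace Pool.Agent.Helper28.BR

open TensorProduct IsLocalRing

/-- **GE.** a rank one idempotent -/
theorem exists_idem {k C : Type} [Field k] [Ring C] [Algebra k C] (m : ℕ) (hm : 0 < m)
    (φ : C ≃ₐ[k] Matrix (Fin m) (Fin m) k) :
    ∃ e : C, e * e = e ∧ Module.finrank k (LinearMap.range (LinearMap.mulRight k e)) = m := by
  classical
  set i0 : Fin m := ⟨0, hm⟩ with hi0
  let E : Matrix (Fin m) (Fin m) k := Matrix.single i0 i0 1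
  have hE : E * E = E := by simp [E]
  let S : (Fin m → k) →ₗ[k] Matrix (Fin m) (Fin m) k :=
    { toFun := fun v => Matrix.of fun i j => if j = i0 then v i else 0
      map_add' := fun v w => by
        ext i j
        simp only [Matrix.of_apply, Matrix.add_apply, Pi.add_apply]
        split_ifs
        · rfl
        · rw [add_zero]
      map_smul' := fun c v => by
        ext i j
        simp only [Matrix.of_apply, Matrix.smul_apply, Pi.smul_apply, RingHom.id_apply, smul_eq_mul]
        split_ifs
        · rfl
        · rw [mul_zero] }
  have hSE : ∀ M : Matrix (Fin m) (Fin m) k, M * E = S (fun i => M i i0) := by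
    intro M
    ext i j
    change (M * (Matrix.single i0 i0 1 : Matrix (Fin m) (Fin m) k)) i j =
      if j = i0 then M i i0 else 0
    split_ifs with h
    · rw [h]
      simp
    · rw [Matrix.mul_single_apply_of_ne]
      exact h
  have hSS : ∀ v, S v * E = S v := by
    intro v
    exact (hSE _).trans (congrArg S (funext fun i =>
      show (if i0 = i0 then v i else 0) = v i from if_pos rfl))
  let T : (Fin m → k) →ₗ[k] C := (φ.symm.toLinearMap).comp S
  have hT : Function.Injective T := by
    intro v w h
    have h1 : S v = S w := φ.symm.injective h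
    funext i
    have h2 := congrFun (congrFun h1 i) i0
    change (if i0 = i0 then v i else 0) = (if i0 = i0 then w i else 0) at h2
    rwa [if_pos rfl, if_pos rfl] at h2
  refine ⟨φ.symm E, by rw [← map_mul, hE], ?_⟩
  have hr : LinearMap.range (LinearMap.mulRight k (φ.symm E)) = LinearMap.range T := by
    apply le_antisymm
    · rintro _ ⟨x, rfl⟩
      refine ⟨fun i => φ x i i0, ?_⟩
      change φ.symm (S fun i => φ x i i0) = x * φ.symm E
      rw [← hSE, map_mul, AlgEquiv.symm_apply_apply]
    · rintro _ ⟨v, rfl⟩
      refine ⟨φ.symm (S v), ?_⟩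
      change φ.symm (S v) * φ.symm E = φ.symm (S v)
      rw [← map_mul, hSS]
  rw [hr, LinearMap.finrank_range_of_inj hT, Module.finrank_fintype_fun_eq_card, Fintype.card_fin]

/-- **GF1.** the rank modulo the maximal ideal -/
theorem finrank_residue {O L : Type} [CommRing O] [IsDomain O] [IsDiscreteValuationRing O]
    [Ring L] [Algebra O L] [Module.Finite O L] [Module.Free O L] (e : L) (he : e * e = e) :
    Module.finrank (ResidueField O) (LinearMap.range (LinearMap.mulRight (ResidueField O)
      ((1 : ResidueField O) ⊗ₜ[O] e))) =
    Module.finrank O (LinearMap.range (LinearMap.mulRight O e)) := by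
  set p := LinearMap.mulRight O e with hp
  set ι := (LinearMap.range p).subtype with hι
  set r := p.rangeRestrict with hr
  have h1 : r.comp ι = LinearMap.id := by
    apply LinearMap.ext
    rintro ⟨_, ⟨x, rfl⟩⟩
    apply Subtype.ext
    change x * e * e = x * e
    rw [mul_assoc, he]
  have h2 : ι.comp r = p := rfl
  set k := ResidueField O with hk
  have h3 : (r.baseChange k).comp (ι.baseChange k) = LinearMap.id := by
    rw [← LinearMap.baseChange_comp, h1, LinearMap.baseChange_id]
  have h4 : (ι.baseChange k).comp (r.baseChange k) =
      LinearMap.mulRight k ((1 : k) ⊗ₜ[O] e) := by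
    rw [← LinearMap.baseChange_comp, h2]
    apply TensorProduct.AlgebraTensorModule.ext
    intro a x
    rw [LinearMap.baseChange_tmul]
    change a ⊗ₜ[O] (x * e) = (a ⊗ₜ[O] x) * ((1 : k) ⊗ₜ[O] e)
    rw [Algebra.TensorProduct.tmul_mul_tmul, mul_one]
  have h5 : LinearMap.range (LinearMap.mulRight k ((1 : k) ⊗ₜ[O] e)) =
      LinearMap.range (ι.baseChange k) := by
    rw [← h4]
    apply le_antisymm
    · exact LinearMap.range_comp_le_range _ _
    · rintro _ ⟨x, rfl⟩
      refine ⟨ι.baseChange k x, ?_⟩
      rw [LinearMap.comp_apply]
      have h6 := congrArg (fun f => f x) h3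
      simp only [LinearMap.comp_apply, LinearMap.id_apply] at h6
      rw [h6]
  have hinj : Function.Injective (ι.baseChange k) := by
    intro x y h
    have h6 := congrArg (fun f => f x) h3
    have h7 := congrArg (fun f => f y) h3
    simp only [LinearMap.comp_apply, LinearMap.id_apply] at h6 h7
    rw [← h6, ← h7, h]
  rw [h5, LinearMap.finrank_range_of_inj hinj]
  exact Module.finrank_baseChange

/-- **GF2.** the rank over the fraction field -/
theorem finrank_fraction {O F B : Type} [CommRing O] [IsDomain O] [IsDiscreteValuationRing O]
    [Field F] [Algebra O F] [IsFractionRing O F] [Ring B] [Algebra F B] [FiniteDimensional F B]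
    [Algebra O B] [IsScalarTower O F B] (L : Subalgebra O B) [Module.Finite O L]
    (hL : Submodule.span F (L : Set B) = ⊤) (e : L) :
    Module.finrank F (LinearMap.range (LinearMap.mulRight F (e : B))) =
    Module.finrank O (LinearMap.range (LinearMap.mulRight O e)) := by
  have htf : Module.IsTorsionFree O B := Module.IsTorsionFree.trans_faithfulSMul O F B
  have htf' : Module.IsTorsionFree O L := inferInstance
  set P := LinearMap.range (LinearMap.mulRight O e) with hP
  have hfree : Module.Free O P := inferInstance
  have hfin : Module.Finite O P := inferInstance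
  let b := Module.finBasis O P
  let b' : Fin (Module.finrank O P) → B := fun i => ((b i : L) : B)
  have hli : LinearIndependent O b' := by
    have h1 : LinearIndependent O (fun i => (b i : L)) :=
      b.linearIndependent.map' P.subtype (by rw [Submodule.ker_subtype])
    exact h1.map' L.val.toLinearMap (LinearMap.ker_eq_bot.2 Subtype.val_injective)
  have hliF : LinearIndependent F b' := (LinearIndependent.iff_fractionRing O F).1 hli
  have hspan : LinearMap.range (LinearMap.mulRight F (e : B)) =
      Submodule.span F (Set.range b') := by
    apply le_antisymm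
    · rintro _ ⟨x, rfl⟩
      rw [LinearMap.mulRight_apply]
      have hx : x ∈ Submodule.span F (L : Set B) := by rw [hL]; trivial
      induction hx using Submodule.span_induction with
      | mem x hx =>
        have h1 : (⟨x, hx⟩ * e : L) ∈ P := ⟨⟨x, hx⟩, rfl⟩
        have h2 := b.sum_repr ⟨(⟨x, hx⟩ * e : L), h1⟩
        have h3 := congrArg (fun y : P => ((y : L) : B)) h2
        have h4 : x * (e : B) = ∑ i, (b.repr ⟨(⟨x, hx⟩ * e : L), h1⟩ i) • b' i := by
          refine h3.symm.trans ?_
          simp only [b']
          push_cast
          rfl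
        rw [h4]
        refine Submodule.sum_mem _ fun i _ => ?_
        rw [← algebraMap_smul F]
        exact Submodule.smul_mem _ _ (Submodule.subset_span ⟨i, rfl⟩)
      | zero => rw [zero_mul]; exact Submodule.zero_mem _
      | add x y _ _ hx hy => rw [add_mul]; exact Submodule.add_mem _ hx hy
      | smul c x _ hx => rw [smul_mul_assoc]; exact Submodule.smul_mem _ _ hx
    · rw [Submodule.span_le]
      rintro _ ⟨i, rfl⟩
      obtain ⟨y, hy⟩ := (b i).2
      refine ⟨(y : B), ?_⟩
      change (y : B) * (e : B) = ((b i : L) : B)
      rw [← hy]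
      rfl
  rw [hspan, finrank_span_eq_card hliF, Fintype.card_fin]

/-- **GG.** the representation on `B e` -/
theorem rep_of_idem {F B : Type} [Field F] [Ring B] [Algebra F B] [FiniteDimensional F B] (e : B)
    (m : ℕ) (he : Module.finrank F (LinearMap.range (LinearMap.mulRight F e)) = m) :
    Nonempty (B →ₐ[F] Matrix (Fin m) (Fin m) F) := by
  set V := LinearMap.range (LinearMap.mulRight F e) with hV
  have hstab : ∀ b : B, ∀ v ∈ V, LinearMap.mulLeft F b v ∈ V := by
    rintro b _ ⟨x, rfl⟩
    exact ⟨b * x, by simp [mul_assoc]⟩
  let ρ : B →ₐ[F] Module.End F V :=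
    { toFun := fun b => (LinearMap.mulLeft F b).restrict (hstab b)
      map_one' := by
        ext v
        simp
      map_mul' := fun a b => by
        ext v
        simp [mul_assoc]
      map_zero' := by
        ext v
        simp
      map_add' := fun a b => by
        ext v
        simp [add_mul]
      commutes' := fun c => by
        ext v
        simp [Algebra.smul_def] }
  let bas : Module.Basis (Fin m) F V := Module.finBasisOfFinrankEq F V he
  exact ⟨(LinearMap.toMatrixAlgEquiv bas).toAlgHom.comp ρ⟩

end Pool.Agent.Helper28.BR
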