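import Pool.Agent.Helper28.BR.Latt
import Pool.Agent.Helper28.BR.FF2

/-!
# The residue ring of a division algebra
-/

set_option autoImplicit false

universe u w z

namespace Pool.Agent.Helper28.BR

open Pool.Agent.Helper28.EX Pool.Agent.Helper28.QF

variable {p : ℕ} [hp : Fact p.Prime] {K : Type u} {Γ : Type w} [Field K]
  [LinearOrderedCommGroupWithZero Γ] {v : Valuation K Γ} {t : K}
  {D : Type z} [DivisionRing D] [Algebra K D] [FiniteDimensional K D]

/-- `g` generates the multiplicative group of the residue ring, which has `p ^ f` elements -/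
structure GoodGen (v : Valuation K Γ) (p : ℕ) [Fact p.Prime] [CharP K p] (f : ℕ) (g : D) :
    Prop where
  one : wv v g = 1
  gen : ∀ y : D, wv v y = 1 → ∃ k : ℕ, wv v (y - g ^ k) < 1
  frob : ∀ y : D, wv v y ≤ 1 → wv v (y ^ (p ^ f) - y) < 1
  span : ∀ y : D, wv v y ≤ 1 → ∃ z : Fin f → ZMod p,
    wv v (y - ∑ i, zm p K (z i) • g ^ (i : ℕ)) < 1
  ind : ∀ z : Fin f → ZMod p, wv v (∑ i, zm p K (z i) • g ^ (i : ℕ)) < 1 → z = 0
  ord : ∀ k : ℕ, wv v (g ^ k - 1) < 1 ↔ p ^ f - 1 ∣ k
  conj : ∀ u : D, u ≠ 0 → ∃ r : ℕ, wv v (u * g * u⁻¹ - g ^ (p ^ r)) < 1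
  comm : ∀ x y : D, wv v x ≤ 1 → wv v y ≤ 1 → wv v (x * y - y * x) < 1

/-- the valuation ring -/
def OD (v : Valuation K Γ) (hadd : ∀ x y : D, wv v (x + y) ≤ max (wv v x) (wv v y)) :
    Subring D where
  carrier := {x | wv v x ≤ 1}
  mul_mem' := by
    intro a b ha hb
    change wv v (a * b) ≤ 1
    rw [wv_mul]
    exact mul_le_one' ha hb
  one_mem' := by
    change wv v (1 : D) ≤ 1
    rw [wv_one]
  add_mem' := by
    intro a b ha hb
    exact (hadd a b).trans (max_le ha hb)
  zero_mem' := by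
    change wv v (0 : D) ≤ 1
    rw [wv_zero]
    exact zero_le_one
  neg_mem' := by
    intro a ha
    change wv v (-a) ≤ 1
    rw [wv_neg]
    exact ha

/-- the maximal ideal -/
def MD (v : Valuation K Γ) (hadd : ∀ x y : D, wv v (x + y) ≤ max (wv v x) (wv v y)) :
    Ideal (OD v hadd) where
  carrier := {x | wv v (x : D) < 1}
  add_mem' := by
    intro a b ha hb
    exact (hadd a b).trans_lt (max_lt ha hb)
  zero_mem' := by
    change wv v ((0 : OD v hadd) : D) < 1
    rw [ZeroMemClass.coe_zero, wv_zero]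
    exact zero_lt_one
  smul_mem' := by
    intro c x hx
    change wv v ((c : D) * x) < 1
    rw [wv_mul]
    calc wv v (c : D) * wv v (x : D) ≤ 1 * wv v (x : D) := mul_le_mul_left c.2 _
      _ < 1 := by rw [one_mul]; exact hx

theorem mem_MD {hadd : ∀ x y : D, wv v (x + y) ≤ max (wv v x) (wv v y)} {x : OD v hadd} :
    x ∈ MD v hadd ↔ wv v (x : D) < 1 := Iff.rfl

instance (hadd : ∀ x y : D, wv v (x + y) ≤ max (wv v x) (wv v y)) : (MD v hadd).IsTwoSided :=
  ⟨by
    intro a b ha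
    rw [mem_MD] at ha ⊢
    rw [Subring.coe_mul, wv_mul]
    calc wv v (a : D) * wv v (b : D) ≤ wv v (a : D) * 1 := mul_le_mul_right b.2 _
      _ < 1 := by rw [mul_one]; exact ha⟩

theorem good_exists (hE : Extremal v) [CharP K p] (ht : ZUnif v t) :
    ∃ (f : ℕ) (g0 : D), 0 < f ∧ wv v g0 = 1 ∧
      ∀ g : D, wv v (g - g0) < 1 → GoodGen v p f g := by
  classical
  have hU := unif_of_zunif p ht
  have hadd : ∀ x y : D, wv v (x + y) ≤ max (wv v x) (wv v y) := wv_add hE hU
  have hsub : ∀ x y : D, wv v (x - y) ≤ max (wv v x) (wv v y) := by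
    intro x y
    rw [sub_eq_add_neg, ← wv_neg y]
    exact hadd x (-y)
  set Q := OD v hadd ⧸ MD v hadd with hQ
  let mk : OD v hadd →+* Q := Ideal.Quotient.mk (MD v hadd)
  have hmk : Function.Surjective mk := Ideal.Quotient.mk_surjective
  have hmk0 : ∀ x : OD v hadd, mk x = 0 ↔ wv v (x : D) < 1 := by
    intro x
    exact Ideal.Quotient.eq_zero_iff_mem
  have hmks : ∀ x y : OD v hadd, mk x = mk y ↔ wv v ((x : D) - y) < 1 := by
    intro x y
    rw [← sub_eq_zero, ← map_sub, hmk0]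
    exact Iff.rfl
  -- the prime field
  have hzm : ∀ c : ZMod p, wv v (algebraMap K D (zm p K c)) ≤ 1 := by
    intro c
    rw [wv_algebraMap]
    exact pow_le_one₀ zero_le (v_zm_le c)
  let ψ : ZMod p →+* OD v hadd := ((algebraMap K D).comp (zm p K)).codRestrict _ hzm
  have hψ : ∀ c : ZMod p, ((ψ c : OD v hadd) : D) = algebraMap K D (zm p K c) := fun _ => rfl
  have hnt : Nontrivial Q := by
    refine ⟨⟨mk 1, mk 0, ?_⟩⟩
    intro h
    rw [hmks, Subring.coe_one, Subring.coe_zero, sub_zero, wv_one] at h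
    exact lt_irrefl _ h
  have hchar : CharP Q p := charP_of_injective_ringHom (mk.comp ψ).injective p
  have hcast : ∀ c : ZMod p, ZMod.castHom (dvd_refl p) Q c = mk (ψ c) := by
    intro c
    have h1 : ZMod.castHom (dvd_refl p) Q = mk.comp ψ := RingHom.ext_zmod _ _
    rw [h1]
    rfl
  have hnzd : NoZeroDivisors Q := by
    refine ⟨?_⟩
    intro a b hab
    obtain ⟨x, rfl⟩ := hmk a
    obtain ⟨y, rfl⟩ := hmk b
    rw [← map_mul, hmk0, Subring.coe_mul, wv_mul] at hab
    by_contra hcon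
    push Not at hcon
    have h1 : ¬ wv v (x : D) < 1 := fun h => hcon.1 ((hmk0 x).2 h)
    have h2 : ¬ wv v (y : D) < 1 := fun h => hcon.2 ((hmk0 y).2 h)
    rw [not_lt] at h1 h2
    have h3 : (1 : Γ) ≤ wv v (x : D) * wv v (y : D) := one_le_mul h1 h2
    exact absurd hab (not_lt.2 h3)
  have hdom : IsDomain Q := NoZeroDivisors.to_isDomain Q
  -- finiteness
  obtain ⟨b, hb1, hb⟩ := lattice (D := D) hE (p := p) ht
  have hsum : ∀ (s : Finset (Fin (Module.finrank K D)))
      (w : Fin (Module.finrank K D) → D), (∀ i ∈ s, wv v (w i) < 1) →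
        wv v (∑ i ∈ s, w i) < 1 := by
    intro s w
    induction s using Finset.induction_on with
    | empty =>
      intro _
      rw [Finset.sum_empty, wv_zero]
      exact zero_lt_one
    | insert i s hi ih =>
      intro hw
      rw [Finset.sum_insert hi]
      exact (hadd _ _).trans_lt (max_lt (hw i (Finset.mem_insert_self i s))
        (ih fun j hj => hw j (Finset.mem_insert_of_mem hj)))
  have hfin : Finite Q := by
    let Φ : (Fin (Module.finrank K D) → ZMod p) → Q := fun z =>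
      ∑ i, mk (ψ (z i)) * mk ⟨b i, hb1 i⟩
    apply Finite.of_surjective Φ
    intro a
    obtain ⟨x, rfl⟩ := hmk a
    obtain ⟨y, hy, hy1⟩ := hb x
    choose m hm using fun i => ht.res (y i) (hy1 x.2 i)
    refine ⟨fun i => ((m i : ℤ) : ZMod p), ?_⟩
    simp only [Φ]
    rw [eq_comm]
    have h1 : (∑ i, mk (ψ ((m i : ℤ) : ZMod p)) * mk ⟨b i, hb1 i⟩) =
        mk (∑ i, ψ ((m i : ℤ) : ZMod p) * ⟨b i, hb1 i⟩) := by
      rw [map_sum]
      simp only [map_mul]
    rw [h1, hmks]
    have h2 : (x : D) - ((∑ i, ψ ((m i : ℤ) : ZMod p) * ⟨b i, hb1 i⟩ : OD v hadd) : D) =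
        ∑ i, (y i - m i) • b i := by
      rw [AddSubmonoidClass.coe_finsetSum]
      conv_lhs => rw [hy]
      rw [← Finset.sum_sub_distrib]
      apply Finset.sum_congr rfl
      intro i _
      rw [Subring.coe_mul, hψ, map_intCast, map_intCast, sub_smul, Algebra.smul_def (m i : K),
        map_intCast]
    rw [h2]
    apply hsum
    intro i _
    rw [wv_smul]
    calc v (y i - m i) ^ Module.finrank K D * wv v (b i) ≤
        v (y i - m i) ^ Module.finrank K D * 1 := mul_le_mul_right (hb1 i) _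
      _ < 1 := by
        rw [mul_one]
        exact pow_lt_one₀ zero_le (hm i) finrank_ne
  obtain ⟨hcomm, f, γ, hf, hγ0, hgen, hfrob, hspan, hind, hord, hconj⟩ := ff_data' p Q
  obtain ⟨g1, hg1⟩ := hmk γ
  have hg1one : wv v (g1 : D) = 1 := by
    refine le_antisymm g1.2 ?_
    by_contra hcon
    rw [not_le] at hcon
    exact hγ0 (by rw [← hg1]; exact (hmk0 g1).2 hcon)
  refine ⟨f, (g1 : D), hf, hg1one, ?_⟩
  intro g hg
  have hgle : wv v g ≤ 1 := by
    have h1 : g = (g - (g1 : D)) + g1 := by abel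
    rw [h1]
    exact (hadd _ _).trans (max_le hg.le hg1one.le)
  have hgmk : mk ⟨g, hgle⟩ = γ := by
    rw [← hg1, hmks]
    exact hg
  have hgone : wv v g = 1 := by
    refine le_antisymm hgle ?_
    by_contra hcon
    rw [not_le] at hcon
    exact hγ0 (by rw [← hgmk]; exact (hmk0 ⟨g, hgle⟩).2 hcon)
  have hpow : ∀ k : ℕ, mk ((⟨g, hgle⟩ : OD v hadd) ^ k) = γ ^ k := by
    intro k
    rw [map_pow, hgmk]
  have hlin : ∀ z : Fin f → ZMod p,
      mk (∑ i, ψ (z i) * (⟨g, hgle⟩ : OD v hadd) ^ (i : ℕ)) =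
        ∑ i, ZMod.castHom (dvd_refl p) Q (z i) * γ ^ (i : ℕ) := by
    intro z
    rw [map_sum]
    apply Finset.sum_congr rfl
    intro i _
    rw [map_mul, hpow, hcast]
  have hlinD : ∀ z : Fin f → ZMod p,
      ((∑ i, ψ (z i) * (⟨g, hgle⟩ : OD v hadd) ^ (i : ℕ) : OD v hadd) : D) =
        ∑ i, zm p K (z i) • g ^ (i : ℕ) := by
    intro z
    rw [AddSubmonoidClass.coe_finsetSum]
    apply Finset.sum_congr rfl
    intro i _
    rw [Subring.coe_mul, Subring.coe_pow, hψ, Algebra.smul_def]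
  refine ⟨hgone, ?_, ?_, ?_, ?_, ?_, ?_, ?_⟩
  · intro y hy
    have hy0 : mk ⟨y, hy.le⟩ ≠ 0 := by
      rw [Ne, hmk0]
      exact not_lt.2 hy.ge
    obtain ⟨k, hk⟩ := hgen _ hy0
    rw [← hpow, hmks] at hk
    exact ⟨k, hk⟩
  · intro y hy
    have h1 := hfrob (mk ⟨y, hy⟩)
    rw [← map_pow, hmks] at h1
    exact h1
  · intro y hy
    obtain ⟨z, hz⟩ := hspan (mk ⟨y, hy⟩)
    rw [← hlin, hmks, hlinD] at hz
    exact ⟨z, hz⟩
  · intro z hz
    apply hind
    rw [← hlin, hmk0, hlinD]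
    exact hz
  · intro k
    rw [← hord, ← hpow, ← map_one mk, hmks]
    rfl
  · intro u hu
    have hconjO : ∀ x : OD v hadd, wv v (u * (x : D) * u⁻¹) ≤ 1 := by
      intro x
      rw [wv_mul, wv_mul, wv_inv, mul_comm (wv v u), mul_inv_cancel_right₀ (wv_ne_zero hu)]
      exact x.2
    have hconjO' : ∀ x : OD v hadd, wv v (u⁻¹ * (x : D) * u) ≤ 1 := by
      intro x
      rw [wv_mul, wv_mul, wv_inv, mul_comm (wv v u)⁻¹, mul_assoc,
        inv_mul_cancel₀ (wv_ne_zero hu), mul_one]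
      exact x.2
    let c : OD v hadd ≃+* OD v hadd :=
      { toFun := fun x => ⟨u * (x : D) * u⁻¹, hconjO x⟩
        invFun := fun x => ⟨u⁻¹ * (x : D) * u, hconjO' x⟩
        left_inv := by
          intro x
          apply Subtype.ext
          change u⁻¹ * (u * (x : D) * u⁻¹) * u = x
          rw [mul_assoc, mul_assoc, inv_mul_cancel₀ hu, mul_one, inv_mul_cancel_left₀ hu]
        right_inv := by
          intro x
          apply Subtype.ext
          change u * (u⁻¹ * (x : D) * u) * u⁻¹ = x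
          rw [mul_assoc, mul_assoc, mul_inv_cancel₀ hu, mul_one, mul_inv_cancel_left₀ hu]
        map_mul' := by
          intro x y
          apply Subtype.ext
          change u * ((x : D) * y) * u⁻¹ = (u * x * u⁻¹) * (u * y * u⁻¹)
          rw [mul_assoc u x u⁻¹, mul_assoc u (x * u⁻¹), mul_assoc (x : D) u⁻¹,
            mul_assoc u y u⁻¹, inv_mul_cancel_left₀ hu]
          simp only [mul_assoc]
        map_add' := by
          intro x y
          apply Subtype.ext
          change u * ((x : D) + y) * u⁻¹ = u * x * u⁻¹ + u * y * u⁻¹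
          rw [mul_add, add_mul] }
    have hcI : ∀ x : OD v hadd, x ∈ MD v hadd → c x ∈ MD v hadd := by
      intro x hx
      rw [mem_MD] at hx ⊢
      change wv v (u * (x : D) * u⁻¹) < 1
      rw [wv_mul, wv_mul, wv_inv, mul_comm (wv v u), mul_inv_cancel_right₀ (wv_ne_zero hu)]
      exact hx
    have hcI' : ∀ x : OD v hadd, x ∈ MD v hadd → c.symm x ∈ MD v hadd := by
      intro x hx
      rw [mem_MD] at hx ⊢
      change wv v (u⁻¹ * (x : D) * u) < 1
      rw [wv_mul, wv_mul, wv_inv, mul_comm (wv v u)⁻¹, mul_assoc,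
        inv_mul_cancel₀ (wv_ne_zero hu), mul_one]
      exact hx
    let σ1 : Q →+* Q := Ideal.Quotient.lift (MD v hadd) (mk.comp (c : OD v hadd →+* OD v hadd))
      (fun x hx => (Ideal.Quotient.eq_zero_iff_mem).2 (hcI x hx))
    let σ2 : Q →+* Q := Ideal.Quotient.lift (MD v hadd)
      (mk.comp (c.symm : OD v hadd →+* OD v hadd))
      (fun x hx => (Ideal.Quotient.eq_zero_iff_mem).2 (hcI' x hx))
    have h1 : ∀ x : OD v hadd, σ1 (mk x) = mk (c x) := fun x => rfl
    have h2 : ∀ x : OD v hadd, σ2 (mk x) = mk (c.symm x) := fun x => rfl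
    let σ : Q ≃+* Q := RingEquiv.ofRingHom σ1 σ2 (RingHom.ext fun a => by
        obtain ⟨x, rfl⟩ := hmk a
        rw [RingHom.comp_apply, h2, h1, RingEquiv.apply_symm_apply, RingHom.id_apply])
        (RingHom.ext fun a => by
        obtain ⟨x, rfl⟩ := hmk a
        rw [RingHom.comp_apply, h1, h2, RingEquiv.symm_apply_apply, RingHom.id_apply])
    obtain ⟨r, hr⟩ := hconj σ
    refine ⟨r, ?_⟩
    have h3 : σ γ = mk (c ⟨g, hgle⟩) := by
      rw [← hgmk]
      exact h1 _
    rw [h3, ← hpow, hmks] at hr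
    exact hr
  · intro x y hx hy
    have h1 := hcomm (mk ⟨x, hx⟩) (mk ⟨y, hy⟩)
    rw [← map_mul, ← map_mul, hmks] at h1
    exact h1

end Pool.Agent.Helper28.BR
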