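import Pool.Agent.Helper28.BR.Res

/-!
# Roots of unity in a division algebra
-/

set_option autoImplicit false

universe u w z

namespace Pool.Agent.Helper28.BR

open Pool.Agent.Helper28.EX Pool.Agent.Helper28.QF

variable {p : ℕ} [hp : Fact p.Prime] {K : Type u} {Γ : Type w} [Field K]
  [LinearOrderedCommGroupWithZero Γ] {v : Valuation K Γ} {t : K}
  {D : Type z} [DivisionRing D] [Algebra K D] [FiniteDimensional K D]

omit hp [FiniteDimensional K D] in
theorem wv_le_t (ht : ZUnif v t) {z : D} (hz : wv v z < 1) : wv v z ≤ v t := ht.max _ hz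

omit hp [FiniteDimensional K D] in
theorem charP_D (p : ℕ) [CharP K p] : CharP D p :=
  charP_of_injective_algebraMap (algebraMap K D).injective p

theorem wv_pow_sub_le (hE : Extremal v) (hU : Unif p v t) [CharP K p] {x y : D}
    (hx : wv v x ≤ 1) (hy : wv v y ≤ 1) (m : ℕ) : wv v (y ^ m - x ^ m) ≤ wv v (y - x) := by
  induction m with
  | zero =>
    rw [pow_zero, pow_zero, sub_self, wv_zero]
    exact zero_le
  | succ m ih =>
    have h1 : y ^ (m + 1) - x ^ (m + 1) = y ^ m * (y - x) + (y ^ m - x ^ m) * x := by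
      rw [pow_succ, pow_succ, mul_sub, sub_mul]
      abel
    rw [h1]
    refine (wv_add hE hU _ _).trans (max_le ?_ ?_)
    · rw [wv_mul, wv_pow]
      calc wv v y ^ m * wv v (y - x) ≤ 1 * wv v (y - x) :=
            mul_le_mul_left (pow_le_one₀ zero_le hy) _
        _ = _ := one_mul _
    · rw [wv_mul]
      calc wv v (y ^ m - x ^ m) * wv v x ≤ wv v (y ^ m - x ^ m) * 1 := mul_le_mul_right hx _
        _ ≤ wv v (y - x) := by rw [mul_one]; exact ih

omit [FiniteDimensional K D] in
theorem frob_pow (p : ℕ) [hp : Fact p.Prime] [CharP K p] (x : D) (f k : ℕ) :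
    (x ^ (p ^ f) - x) ^ ((p ^ f) ^ k) = (x ^ ((p ^ f) ^ k)) ^ (p ^ f) - x ^ ((p ^ f) ^ k) := by
  have : CharP D p := charP_D (K := K) p
  have h1 : (p ^ f) ^ k = p ^ (f * k) := (pow_mul p f k).symm
  rw [h1, sub_pow_char_pow_of_commute p (f * k) (Commute.pow_self x (p ^ f)), ← pow_mul,
    ← pow_mul, mul_comm (p ^ f)]

theorem root_exists (hE : Extremal v) [CharP K p] (ht : ZUnif v t) {f : ℕ} (hf : 0 < f) {g : D}
    (hg : GoodGen v p f g) : ∃ ζ : D, wv v (ζ - g) < 1 ∧ ζ ^ (p ^ f) = ζ := by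
  classical
  have hU := unif_of_zunif p ht
  have hsubm : ∀ x y : D, wv v (x - y) ≤ max (wv v x) (wv v y) := by
    intro x y
    rw [sub_eq_add_neg, ← wv_neg y]
    exact wv_add hE hU x (-y)
  set q := p ^ f with hq
  have hq2 : 2 ≤ q := by
    calc 2 ≤ p := hp.out.two_le
      _ = p ^ 1 := (pow_one p).symm
      _ ≤ p ^ f := Nat.pow_le_pow_right hp.out.pos hf
  have hvt : v t < 1 := ht.t1
  -- iterate Frobenius
  have hiter : ∀ k : ℕ, wv v (g ^ (q ^ k)) ≤ 1 ∧ wv v (g ^ (q ^ k) - g) < 1 := by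
    intro k
    induction k with
    | zero =>
      rw [pow_zero, pow_one, sub_self, wv_zero, hg.one]
      exact ⟨le_rfl, zero_lt_one⟩
    | succ k ih =>
      have h1 := hg.frob _ ih.1
      have h2 : g ^ (q ^ (k + 1)) = (g ^ (q ^ k)) ^ (p ^ f) := by
        calc g ^ (q ^ (k + 1)) = g ^ (q ^ k * q) := by rw [pow_succ q k]
          _ = (g ^ (q ^ k)) ^ q := pow_mul g (q ^ k) q
      rw [h2]
      refine ⟨?_, ?_⟩
      · rw [wv_pow]
        exact pow_le_one₀ zero_le ih.1
      · have h3 : (g ^ (q ^ k)) ^ (p ^ f) - g =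
            ((g ^ (q ^ k)) ^ (p ^ f) - g ^ (q ^ k)) + (g ^ (q ^ k) - g) := by abel
        rw [h3]
        exact (wv_add hE hU _ _).trans_lt (max_lt h1 ih.2)
  obtain ⟨k, hk⟩ : ∃ k : ℕ, Module.finrank K D ≤ q ^ k :=
    ⟨Module.finrank K D, (Nat.lt_pow_self (by omega)).le⟩
  set x := g ^ (q ^ k) with hx
  have hx1 : wv v x ≤ 1 := (hiter k).1
  have hxg : wv v (x - g) < 1 := (hiter k).2
  have hxq : wv v (x ^ q - x) ≤ v t ^ Module.finrank K D := by
    have h1 : x ^ q - x = (g ^ q - g) ^ (q ^ k) := (frob_pow (K := K) p g f k).symm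
    rw [h1, wv_pow]
    calc wv v (g ^ q - g) ^ q ^ k ≤ v t ^ q ^ k :=
          pow_le_pow_left₀ zero_le (wv_le_t ht (hg.frob g hg.one.le)) _
      _ ≤ v t ^ Module.finrank K D := pow_le_pow_of_le_one zero_le hvt.le hk
  obtain ⟨b, hb1, hb⟩ := lattice (D := D) hE (p := p) ht
  let Y : (Fin (Module.finrank K D) → K) → D := fun a => x + ∑ i, a i • (t • b i)
  have hYP : PolD Y := (PolD.const x).add (PolD.sum _ fun i _ => PolD.smul i _)
  obtain ⟨a, ha, hmin⟩ := exists_min hE ((hYP.pow q).sub hYP)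
  set y := Y a with hy
  have hYx : ∀ a : Fin (Module.finrank K D) → K, (∀ i, v (a i) ≤ 1) →
      wv v (Y a - x) ≤ v t ^ Module.finrank K D := by
    intro a ha
    have h1 : Y a - x = t • ∑ i, a i • b i := by
      simp only [Y]
      rw [add_sub_cancel_left, Finset.smul_sum]
      apply Finset.sum_congr rfl
      intro i _
      rw [smul_comm]
    rw [h1, wv_smul]
    have h2 : wv v (∑ i, a i • b i) ≤ 1 := by
      have h3 : ∀ s : Finset (Fin (Module.finrank K D)), wv v (∑ i ∈ s, a i • b i) ≤ 1 := by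
        intro s
        induction s using Finset.induction_on with
        | empty =>
          rw [Finset.sum_empty, wv_zero]
          exact zero_le_one
        | insert i s hi ih =>
          rw [Finset.sum_insert hi]
          refine (wv_add hE hU _ _).trans (max_le ?_ ih)
          rw [wv_smul]
          exact mul_le_one' (pow_le_one₀ zero_le (ha i)) (hb1 i)
      exact h3 _
    calc _ ≤ v t ^ Module.finrank K D * 1 := mul_le_mul_right h2 _
      _ = _ := mul_one _
  have htn : v t ^ Module.finrank K D < 1 := pow_lt_one₀ zero_le hvt finrank_ne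
  have hyx : wv v (y - x) ≤ v t ^ Module.finrank K D := hYx a ha
  have hy1 : wv v y ≤ 1 := by
    have h1 : y = (y - x) + x := by abel
    rw [h1]
    exact (wv_add hE hU _ _).trans (max_le (hyx.trans htn.le) hx1)
  refine ⟨y, ?_, ?_⟩
  · have h1 : y - g = (y - x) + (x - g) := by abel
    rw [h1]
    exact (wv_add hE hU _ _).trans_lt (max_lt (hyx.trans_lt htn) hxg)
  · by_contra hne
    have hne' : y ^ q - y ≠ 0 := sub_ne_zero.2 hne
    have hlt1 : wv v (y ^ q - y) < 1 := hg.frob y hy1
    have hy1x : wv v (y ^ q - x) ≤ v t ^ Module.finrank K D := by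
      have h1 : y ^ q - x = (y ^ q - x ^ q) + (x ^ q - x) := by abel
      rw [h1]
      exact (wv_add hE hU _ _).trans
        (max_le ((wv_pow_sub_le hE hU hx1 hy1 q).trans hyx) hxq)
    obtain ⟨a1, ha1, ha1'⟩ := hb (t⁻¹ • (y ^ q - x))
    have hvt0 : v t ≠ 0 := (Valuation.ne_zero_iff v).2 ht.t0
    have ha1O : ∀ i, v (a1 i) ≤ 1 := by
      apply ha1'
      rw [wv_smul, map_inv₀, inv_pow]
      calc (v t ^ Module.finrank K D)⁻¹ * wv v (y ^ q - x) ≤
          (v t ^ Module.finrank K D)⁻¹ * v t ^ Module.finrank K D := mul_le_mul_right hy1x _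
        _ = 1 := inv_mul_cancel₀ (pow_ne_zero _ hvt0)
    have hYa1 : Y a1 = y ^ q := by
      have h1 : y ^ q - x = t • ∑ i, a1 i • b i := by
        rw [← ha1, smul_smul, mul_inv_cancel₀ ht.t0, one_smul]
      have h2 : Y a1 = x + t • ∑ i, a1 i • b i := by
        simp only [Y]
        rw [Finset.smul_sum]
        congr 1
        apply Finset.sum_congr rfl
        intro i _
        rw [smul_comm]
      rw [h2, ← h1]
      abel
    have h3 := hmin a1 ha1O
    rw [hYa1] at h3
    have h4 : (y ^ q) ^ q - y ^ q = (y ^ q - y) ^ q := by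
      have h5 := frob_pow (K := K) p y f 1
      rw [pow_one] at h5
      exact h5.symm
    rw [h4, wv_pow] at h3
    have h5 : wv v (y ^ q - y) ^ q < wv v (y ^ q - y) := by
      calc wv v (y ^ q - y) ^ q < wv v (y ^ q - y) ^ 1 :=
            pow_lt_pow_right_of_lt_one₀ (wv_pos hne') hlt1 (by omega)
        _ = _ := pow_one _
    exact absurd h3 (not_le.2 h5)

end Pool.Agent.Helper28.BR
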