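import Pool.Agent.Helper28.BR.Root

/-!
# The standard basis of a division algebra
-/

set_option autoImplicit false

universe u w z

namespace Pool.Agent.Helper28.BR

open Pool.Agent.Helper28.EX Pool.Agent.Helper28.QF

variable {p : ℕ} [hp : Fact p.Prime] {K : Type u} {Γ : Type w} [Field K]
  [LinearOrderedCommGroupWithZero Γ] {v : Valuation K Γ} {t : K}
  {D : Type z} [DivisionRing D] [Algebra K D] [FiniteDimensional K D]

omit hp [FiniteDimensional K D] in
/-- `v t ^ i` modulo `n`-th powers -/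
theorem uniq (ht : ZUnif v t) {n i j : ℕ} (hi : i < n) (hj : j < n) {c : K}
    (h : v t ^ i = v c ^ n * v t ^ j) : i = j ∧ v c = 1 := by
  have hvt : 0 < v t := zero_lt_iff.2 ((Valuation.ne_zero_iff v).2 ht.t0)
  have key : ∀ {i j : ℕ} {c : K}, i < n → v t ^ i = v c ^ n * v t ^ j → 1 ≤ v c := by
    intro i j c hi h
    by_contra hcon
    rw [not_le] at hcon
    have h1 : v c ^ n ≤ v t ^ n := pow_le_pow_left₀ zero_le (ht.max c hcon) n
    have h2 : v t ^ n < v t ^ i := pow_lt_pow_right_of_lt_one₀ hvt ht.t1 hi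
    have h3 : v c ^ n * v t ^ j ≤ v t ^ n := by
      calc v c ^ n * v t ^ j ≤ v t ^ n * 1 :=
            mul_le_mul' h1 (pow_le_one₀ zero_le ht.t1.le)
        _ = _ := mul_one _
    rw [← h] at h3
    exact absurd h2 (not_lt.2 h3)
  have hc1 := key hi h
  have hc0 : v c ≠ 0 := (zero_lt_one.trans_le hc1).ne'
  have h' : v t ^ j = v c⁻¹ ^ n * v t ^ i := by
    rw [map_inv₀, inv_pow, h, inv_mul_cancel_left₀ (pow_ne_zero n hc0)]
  have hc2 := key hj h'
  have hc : v c = 1 := by
    refine le_antisymm ?_ hc1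
    rw [map_inv₀, one_le_inv₀ (zero_lt_one.trans_le hc1)] at hc2
    exact hc2
  refine ⟨?_, hc⟩
  rw [hc, one_pow, one_mul] at h
  exact (pow_right_injective₀ hvt ht.t1.ne) h

/-- every value is a power of `v t` modulo `n`-th powers -/
theorem val_pow (ht : ZUnif v t) {x : D} (hx : x ≠ 0) : ∃ (i : ℕ) (y : K),
    i < Module.finrank K D ∧ y ≠ 0 ∧ wv v x = v y ^ Module.finrank K D * v t ^ i := by
  have hN : Algebra.norm K x ≠ 0 := by
    intro h0
    apply wv_ne_zero (v := v) hx
    unfold wv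
    rw [h0, map_zero]
  obtain ⟨i, y, hi, hy⟩ := ht.grp (Module.finrank K D) (Nat.pos_of_ne_zero finrank_ne) _ hN
  refine ⟨i, y, hi, ?_, ?_⟩
  · rintro rfl
    rw [zero_pow finrank_ne, mul_zero, map_zero, Valuation.zero_iff] at hy
    exact hN hy
  · unfold wv
    rw [hy, map_mul, map_pow, map_pow, mul_comm]

/-- a prime element -/
theorem exists_prime (ht : ZUnif v t) : ∃ (h e : ℕ) (π : D), 0 < h ∧ 0 < e ∧
    Module.finrank K D = e * h ∧ π ≠ 0 ∧ wv v π = v t ^ h ∧
    ∀ x : D, x ≠ 0 → ∃ (a : ℕ) (c : K), a < e ∧ c ≠ 0 ∧ wv v x = wv v (c • π ^ a) := by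
  classical
  have hn0 : Module.finrank K D ≠ 0 := finrank_ne
  have hvt : 0 < v t := zero_lt_iff.2 ((Valuation.ne_zero_iff v).2 ht.t0)
  have hwt : wv v (algebraMap K D t) = v t ^ Module.finrank K D := wv_algebraMap t
  have hex : ∃ i : ℕ, 0 < i ∧ ∃ x : D, wv v x = v t ^ i :=
    ⟨Module.finrank K D, Nat.pos_of_ne_zero hn0, _, hwt⟩
  obtain ⟨h0, π, hπ⟩ := Nat.find_spec hex
  set h := Nat.find hex with hh
  have hmin : ∀ i : ℕ, 0 < i → (∃ x : D, wv v x = v t ^ i) → h ≤ i :=
    fun i hi hx => Nat.find_min' hex ⟨hi, hx⟩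
  have hπ0 : π ≠ 0 := by
    rintro rfl
    rw [wv_zero] at hπ
    exact (pow_pos hvt h).ne hπ
  have hdvd : ∀ (i : ℕ) (x : D), wv v x = v t ^ i → h ∣ i := by
    intro i x hx
    by_contra hnd
    have h1 : 0 < i % h := Nat.pos_of_ne_zero fun h2 => hnd (Nat.dvd_of_mod_eq_zero h2)
    have h2 : i % h < h := Nat.mod_lt _ h0
    have h3 : wv v (x * (π ^ (i / h))⁻¹) = v t ^ (i % h) := by
      rw [wv_mul, wv_inv, wv_pow, hx, hπ, ← pow_mul]
      have h4 : v t ^ i = v t ^ (i % h) * v t ^ (h * (i / h)) := by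
        rw [← pow_add, Nat.mod_add_div]
      rw [h4, mul_inv_cancel_right₀ (pow_pos hvt _).ne']
    exact absurd (hmin _ h1 ⟨_, h3⟩) (not_le.2 h2)
  obtain ⟨e, he⟩ := hdvd _ _ hwt
  have he' : Module.finrank K D = e * h := by rw [he, mul_comm]
  have he0 : 0 < e := by
    rcases Nat.eq_zero_or_pos e with h1 | h1
    · rw [h1, zero_mul] at he'
      exact absurd he' hn0
    · exact h1
  refine ⟨h, e, π, h0, he0, he', hπ0, hπ, ?_⟩
  intro x hx
  obtain ⟨i, y, hi, hy0, hy⟩ := val_pow (v := v) ht hx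
  have hyv : v y ≠ 0 := (Valuation.ne_zero_iff v).2 hy0
  have h1 : wv v (y⁻¹ • x) = v t ^ i := by
    rw [wv_smul, hy, map_inv₀, inv_pow, inv_mul_cancel_left₀ (pow_ne_zero _ hyv)]
  obtain ⟨a, ha⟩ := hdvd _ _ h1
  refine ⟨a, y, ?_, hy0, ?_⟩
  · rw [he', ha, mul_comm e h] at hi
    exact Nat.lt_of_mul_lt_mul_left hi
  · rw [hy, wv_smul, wv_pow, hπ, ← pow_mul, ← ha]

/-- sums of elements of different values -/
theorem sum_ge (hE : Extremal v) (hU : Unif p v t) [CharP K p] {ι : Type*} (s : Finset ι)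
    (F : ι → D) (hF : ∀ i ∈ s, ∀ j ∈ s, F i ≠ 0 → F j ≠ 0 → wv v (F i) = wv v (F j) → i = j)
    (i : ι) (hi : i ∈ s) : wv v (F i) ≤ wv v (∑ j ∈ s, F j) := by
  classical
  obtain ⟨j, hj, hjmax⟩ := Finset.exists_max_image s (fun j => wv v (F j)) ⟨i, hi⟩
  refine (hjmax i hi).trans ?_
  by_cases h0 : F j = 0
  · rw [h0, wv_zero]
    exact zero_le
  have hlt : ∀ k ∈ s.erase j, wv v (F k) < wv v (F j) := by
    intro k hk
    rw [Finset.mem_erase] at hk
    refine lt_of_le_of_ne (hjmax k hk.2) fun heq => ?_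
    have hk0 : F k ≠ 0 := by
      intro h1
      rw [h1, wv_zero] at heq
      exact (wv_pos h0).ne heq
    exact hk.1 (hF k hk.2 j hj hk0 h0 heq)
  have hrest : wv v (∑ k ∈ s.erase j, F k) < wv v (F j) := by
    have key : ∀ s' : Finset ι, (∀ k ∈ s', wv v (F k) < wv v (F j)) →
        wv v (∑ k ∈ s', F k) < wv v (F j) := by
      intro s'
      induction s' using Finset.induction_on with
      | empty =>
        intro _
        rw [Finset.sum_empty, wv_zero]
        exact wv_pos h0
      | insert k s' hk ih =>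
        intro h
        rw [Finset.sum_insert hk]
        exact (wv_add hE hU _ _).trans_lt (max_lt (h k (Finset.mem_insert_self k s'))
          (ih fun l hl => h l (Finset.mem_insert_of_mem hl)))
    exact key _ hlt
  have h1 : F j = (∑ k ∈ s, F k) + -(∑ k ∈ s.erase j, F k) := by
    rw [← Finset.add_sum_erase s F hj]
    abel
  have h2 := wv_add hE hU (∑ k ∈ s, F k) (-(∑ k ∈ s.erase j, F k))
  rw [← h1, wv_neg] at h2
  rcases le_max_iff.1 h2 with h3 | h3
  · exact h3
  · exact absurd hrest (not_lt.2 h3)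

theorem sum_lt' (hE : Extremal v) (hU : Unif p v t) [CharP K p] {ι : Type*} (s : Finset ι)
    (F : ι → D) {c : Γ} (hc : 0 < c) (hF : ∀ i ∈ s, wv v (F i) < c) :
    wv v (∑ j ∈ s, F j) < c := by
  classical
  induction s using Finset.induction_on with
  | empty =>
    rw [Finset.sum_empty, wv_zero]
    exact hc
  | insert k s hk ih =>
    rw [Finset.sum_insert hk]
    exact (wv_add hE hU _ _).trans_lt (max_lt (hF k (Finset.mem_insert_self k s))
      (ih fun l hl => hF l (Finset.mem_insert_of_mem hl)))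

theorem sum_le' (hE : Extremal v) (hU : Unif p v t) [CharP K p] {ι : Type*} (s : Finset ι)
    (F : ι → D) {c : Γ} (hF : ∀ i ∈ s, wv v (F i) ≤ c) :
    wv v (∑ j ∈ s, F j) ≤ c := by
  classical
  induction s using Finset.induction_on with
  | empty =>
    rw [Finset.sum_empty, wv_zero]
    exact zero_le
  | insert k s hk ih =>
    rw [Finset.sum_insert hk]
    exact (wv_add hE hU _ _).trans (max_le (hF k (Finset.mem_insert_self k s))
      (ih fun l hl => hF l (Finset.mem_insert_of_mem hl)))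

/-- the powers of `ζ` are orthogonal -/
theorem orth_zeta (hE : Extremal v) [CharP K p] (ht : ZUnif v t) {f : ℕ} (hf : 0 < f) {ζ : D}
    (hg : GoodGen v p f ζ) (c : Fin f → K) : ∃ m : Fin f,
      wv v (∑ i, c i • ζ ^ (i : ℕ)) = v (c m) ^ Module.finrank K D ∧ ∀ i, v (c i) ≤ v (c m) := by
  classical
  have hU := unif_of_zunif p ht
  have : Nonempty (Fin f) := ⟨⟨0, hf⟩⟩
  obtain ⟨m, -, hm⟩ := Finset.exists_max_image Finset.univ (fun i : Fin f => v (c i))
    Finset.univ_nonempty
  refine ⟨m, ?_, fun i => hm i (Finset.mem_univ i)⟩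
  have hζi : ∀ i : ℕ, wv v (ζ ^ i) = 1 := fun i => by rw [wv_pow, hg.one, one_pow]
  by_cases h0 : c m = 0
  · have h1 : ∀ i, c i = 0 := by
      intro i
      have h2 := hm i (Finset.mem_univ i)
      rw [h0, map_zero, le_zero_iff, Valuation.zero_iff] at h2
      exact h2
    rw [h0, map_zero, zero_pow finrank_ne]
    have h2 : (∑ i, c i • ζ ^ (i : ℕ)) = 0 := by
      apply Finset.sum_eq_zero
      intro i _
      rw [h1 i, zero_smul]
    rw [h2, wv_zero]
  · have hcm : 0 < v (c m) := zero_lt_iff.2 ((Valuation.ne_zero_iff v).2 h0)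
    have hle : ∀ i, v (c i / c m) ≤ 1 := by
      intro i
      rw [map_div₀, div_le_one₀ hcm]
      exact hm i (Finset.mem_univ i)
    choose a ha using fun i => ht.res (c i / c m) (hle i)
    have hexp : (∑ i, c i • ζ ^ (i : ℕ)) = c m • ∑ i, (c i / c m) • ζ ^ (i : ℕ) := by
      rw [Finset.smul_sum]
      apply Finset.sum_congr rfl
      intro i _
      rw [smul_smul, mul_div_cancel₀ _ h0]
    have hone : wv v (∑ i, (c i / c m) • ζ ^ (i : ℕ)) = 1 := by
      apply le_antisymm
      · apply sum_le' hE hU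
        intro i _
        rw [wv_smul, hζi, mul_one]
        exact pow_le_one₀ zero_le (hle i)
      · by_contra hcon
        rw [not_le] at hcon
        have h1 : (∑ i, zm p K ((a i : ℤ) : ZMod p) • ζ ^ (i : ℕ)) =
            (∑ i, (c i / c m) • ζ ^ (i : ℕ)) + -∑ i, (c i / c m - a i) • ζ ^ (i : ℕ) := by
          rw [← Finset.sum_neg_distrib, ← Finset.sum_add_distrib]
          apply Finset.sum_congr rfl
          intro i _
          rw [map_intCast, sub_smul]
          abel
        have h2 : wv v (∑ i, zm p K ((a i : ℤ) : ZMod p) • ζ ^ (i : ℕ)) < 1 := by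
          rw [h1]
          refine (wv_add hE hU _ _).trans_lt (max_lt hcon ?_)
          rw [wv_neg]
          apply sum_lt' hE hU _ _ zero_lt_one
          intro i _
          rw [wv_smul, hζi, mul_one]
          exact pow_lt_one₀ zero_le (ha i) finrank_ne
        have h3 := congrFun (hg.ind _ h2) m
        have h4 := ha m
        have h5 : ((a m : ℤ) : K) = 0 := by
          have h6 : zm p K ((a m : ℤ) : ZMod p) = ((a m : ℤ) : K) := map_intCast _ _
          rw [← h6]
          simp only [Pi.zero_apply] at h3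
          rw [h3, map_zero]
        rw [h5, sub_zero, div_self h0, map_one] at h4
        exact lt_irrefl _ h4
    rw [hexp, wv_smul, hone, mul_one]

/-- the standard family is orthogonal and spans -/
theorem standard (hE : Extremal v) [CharP K p] (ht : ZUnif v t) {f h e : ℕ} (hf : 0 < f)
    (he : 0 < e) (hh : 0 < h) (hn : Module.finrank K D = e * h) {ζ π : D}
    (hg : GoodGen v p f ζ) (hπ : wv v π = v t ^ h)
    (hval : ∀ x : D, x ≠ 0 → ∃ (a : ℕ) (c : K), a < e ∧ c ≠ 0 ∧ wv v x = wv v (c • π ^ a)) :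
    LinearIndependent K (fun k : Fin f × Fin e => ζ ^ (k.1 : ℕ) * π ^ (k.2 : ℕ)) ∧
      (∀ x : D, ∃ y : Fin f × Fin e → K,
        x = ∑ k, y k • (ζ ^ (k.1 : ℕ) * π ^ (k.2 : ℕ))) := by
  classical
  have hU := unif_of_zunif p ht
  have hvt : 0 < v t := zero_lt_iff.2 ((Valuation.ne_zero_iff v).2 ht.t0)
  have hπ0 : π ≠ 0 := by
    rintro rfl
    rw [wv_zero] at hπ
    exact (pow_pos hvt h).ne hπ
  have hζ0 : ζ ≠ 0 := by
    rintro rfl
    have := hg.one
    rw [wv_zero] at this
    exact zero_ne_one this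
  have hζi : ∀ i : ℕ, wv v (ζ ^ i) = 1 := fun i => by rw [wv_pow, hg.one, one_pow]
  -- orthogonality
  have horth : ∀ (y : Fin f × Fin e → K) (k : Fin f × Fin e),
      v (y k) ^ Module.finrank K D * wv v (ζ ^ (k.1 : ℕ) * π ^ (k.2 : ℕ)) ≤
        wv v (∑ k, y k • (ζ ^ (k.1 : ℕ) * π ^ (k.2 : ℕ))) := by
    intro y k
    let F : Fin e → D := fun a => (∑ i : Fin f, y (i, a) • ζ ^ (i : ℕ)) * π ^ (a : ℕ)
    have hsum : (∑ k, y k • (ζ ^ (k.1 : ℕ) * π ^ (k.2 : ℕ))) = ∑ a, F a := by
      rw [Fintype.sum_prod_type_right]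
      apply Finset.sum_congr rfl
      intro a _
      simp only [F]
      rw [Finset.sum_mul]
      apply Finset.sum_congr rfl
      intro i _
      rw [smul_mul_assoc]
    choose m hm hmax using fun a : Fin e => orth_zeta hE ht hf hg (fun i => y (i, a))
    have hF : ∀ a, wv v (F a) = v (y (m a, a)) ^ Module.finrank K D * v t ^ (h * a) := by
      intro a
      simp only [F]
      rw [wv_mul, hm, wv_pow, hπ, ← pow_mul]
    have hlt : ∀ a : Fin e, h * (a : ℕ) < Module.finrank K D := by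
      intro a
      rw [hn, mul_comm e h]
      exact Nat.mul_lt_mul_of_pos_left a.2 hh
    have h1 := sum_ge hE hU Finset.univ F (by
      intro a _ b _ ha hb hab
      rw [hF, hF] at hab
      have hyb : y (m b, b) ≠ 0 := by
        intro h0
        apply wv_ne_zero (v := v) hb
        rw [hF, h0, map_zero, zero_pow finrank_ne, zero_mul]
      have hya : y (m a, a) ≠ 0 := by
        intro h0
        apply wv_ne_zero (v := v) ha
        rw [hF, h0, map_zero, zero_pow finrank_ne, zero_mul]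
      have hva : v (y (m a, a)) ≠ 0 := (Valuation.ne_zero_iff v).2 hya
      have h2 : v t ^ (h * (a : ℕ)) =
          v (y (m b, b) / y (m a, a)) ^ Module.finrank K D * v t ^ (h * (b : ℕ)) := by
        rw [map_div₀, div_pow, div_mul_eq_mul_div, ← hab]
        exact (mul_div_cancel_left₀ _ (pow_ne_zero _ hva)).symm
      have h3 := (uniq ht (hlt a) (hlt b) h2).1
      exact Fin.ext (Nat.eq_of_mul_eq_mul_left hh h3)) k.2 (Finset.mem_univ _)
    rw [hsum]
    refine le_trans ?_ h1
    rw [hF, wv_mul, hζi, one_mul, wv_pow, hπ, ← pow_mul]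
    exact mul_le_mul_left (pow_le_pow_left₀ zero_le (hmax k.2 k.1) _) _
  refine ⟨?_, ?_⟩
  · rw [Fintype.linearIndependent_iff]
    intro y hy k
    have h1 := horth y k
    rw [hy, wv_zero, le_zero_iff, mul_eq_zero] at h1
    rcases h1 with h1 | h1
    · exact (Valuation.zero_iff v).1 (eq_zero_of_pow_eq_zero h1)
    · rw [wv_eq_zero] at h1
      exact absurd h1 (mul_ne_zero (pow_ne_zero _ hζ0) (pow_ne_zero _ hπ0))
  · intro x
    -- the family with indices in `Fin (f * e)`
    let E : Fin (f * e) ≃ Fin f × Fin e := finProdFinEquiv.symm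
    let b : Fin (f * e) → D := fun k => ζ ^ ((E k).1 : ℕ) * π ^ ((E k).2 : ℕ)
    have hbsum : ∀ y : Fin (f * e) → K,
        (∑ k, y k • b k) = ∑ k, y (E.symm k) • (ζ ^ (k.1 : ℕ) * π ^ (k.2 : ℕ)) := by
      intro y
      rw [← E.sum_comp (fun k => y (E.symm k) • (ζ ^ (k.1 : ℕ) * π ^ (k.2 : ℕ)))]
      apply Finset.sum_congr rfl
      intro k _
      rw [Equiv.symm_apply_apply]
    have hb : OrthD v b := by
      refine ⟨fun k => mul_ne_zero (pow_ne_zero _ hζ0) (pow_ne_zero _ hπ0), fun y k => ?_⟩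
      have h1 := horth (fun k => y (E.symm k)) (E k)
      rw [hbsum]
      simp only [Equiv.symm_apply_apply] at h1
      exact h1
    obtain ⟨c, hc⟩ := approxD hE hU hb x
    by_cases hd : x - ∑ k, c k • b k = 0
    · refine ⟨fun k => c (E.symm k), ?_⟩
      rw [← hbsum]
      exact sub_eq_zero.1 hd
    · exfalso
      obtain ⟨a, c', ha, hc'0, hac⟩ := hval _ hd
      set d := x - ∑ k, c k • b k with hddef
      have hμ0 : c' • π ^ a ≠ 0 := by
        rw [Algebra.smul_def]
        exact mul_ne_zero ((map_ne_zero_iff _ (algebraMap K D).injective).2 hc'0)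
          (pow_ne_zero _ hπ0)
      set μ := c' • π ^ a with hμ
      have hu : wv v (d * μ⁻¹) = 1 := by
        rw [wv_mul, wv_inv, hac, mul_inv_cancel₀ (wv_ne_zero hμ0)]
      obtain ⟨z, hz⟩ := hg.span _ hu.le
      have hlt : wv v (d - (∑ i, zm p K (z i) • ζ ^ (i : ℕ)) * μ) < wv v d := by
        have h1 : d - (∑ i, zm p K (z i) • ζ ^ (i : ℕ)) * μ =
            (d * μ⁻¹ - ∑ i, zm p K (z i) • ζ ^ (i : ℕ)) * μ := by
          rw [sub_mul, mul_assoc, inv_mul_cancel₀ hμ0, mul_one]
        rw [h1, wv_mul, hac]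
        calc _ < 1 * wv v μ := mul_lt_mul_of_pos_right hz (wv_pos hμ0)
          _ = wv v μ := one_mul _
      let y' : Fin f × Fin e → K := fun k => if (k.2 : ℕ) = a then zm p K (z k.1) * c' else 0
      have hy' : (∑ i, zm p K (z i) • ζ ^ (i : ℕ)) * μ =
          ∑ k, y' k • (ζ ^ (k.1 : ℕ) * π ^ (k.2 : ℕ)) := by
        rw [Fintype.sum_prod_type, Finset.sum_mul]
        apply Finset.sum_congr rfl
        intro i _
        rw [Finset.sum_eq_single (⟨a, ha⟩ : Fin e)]
        · simp only [y', if_true]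
          rw [hμ, smul_mul_smul_comm]
        · intro j _ hj
          have h2 : ¬ ((j : ℕ) = a) := fun h3 => hj (Fin.ext h3)
          simp only [y', if_neg h2, zero_smul]
        · intro h2
          exact absurd (Finset.mem_univ _) h2
      have h1 := hc (fun k => c k + y' (E k))
      have h2 : x - ∑ k, (c k + y' (E k)) • b k =
          d - (∑ i, zm p K (z i) • ζ ^ (i : ℕ)) * μ := by
        simp only [add_smul, Finset.sum_add_distrib]
        rw [hy', hddef]
        have h3 : (∑ k, y' (E k) • b k) =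
            ∑ k, y' k • (ζ ^ (k.1 : ℕ) * π ^ (k.2 : ℕ)) := by
          rw [hbsum]
          simp only [Equiv.apply_symm_apply]
        rw [h3]
        abel
      rw [h2] at h1
      exact absurd h1 (not_le.2 hlt)

end Pool.Agent.Helper28.BR
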