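import Pool.Agent.Helper28.BR.Gen

/-!
# The unramified extension
-/

set_option autoImplicit false

universe u w z

open Polynomial

namespace Pool.Agent.Helper28.BR

open Pool.Agent.Helper28.EX Pool.Agent.Helper28.QF

/-- an extension of degree at most `m` generated by a root of unity of order `p ^ m - 1` -/
theorem exists_L (p : ℕ) [hp : Fact p.Prime] (K : Type u) [Field K] [CharP K p] {m : ℕ}
    (hm : 0 < m) : ∃ (L : Type u) (_ : Field L) (_ : Algebra K L) (pb : PowerBasis K L),
      orderOf pb.gen = p ^ m - 1 ∧ pb.dim ≤ m := by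
  classical
  have hcΩ : CharP (AlgebraicClosure K) p :=
    charP_of_injective_algebraMap (algebraMap K (AlgebraicClosure K)).injective p
  let inst : Algebra (ZMod p) (AlgebraicClosure K) := ZMod.algebra _ p
  let ψ : GaloisField p m →ₐ[ZMod p] AlgebraicClosure K := IsAlgClosed.lift
  have hcard : Nat.card (GaloisField p m) = p ^ m := GaloisField.card p m hm.ne'
  obtain ⟨g, hg⟩ := IsCyclic.exists_ofOrder_eq_natCard (α := (GaloisField p m)ˣ)
  rw [Nat.card_units, hcard] at hg
  have ho : orderOf (ψ (g : GaloisField p m)) = p ^ m - 1 := by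
    rw [← hg, ← orderOf_units]
    exact orderOf_injective (ψ : GaloisField p m →* AlgebraicClosure K) ψ.injective _
  set ζ := ψ (g : GaloisField p m) with hζ
  have hint : IsIntegral K ζ := Algebra.IsIntegral.isIntegral ζ
  refine ⟨IntermediateField.adjoin K {ζ}, inferInstance, inferInstance,
    IntermediateField.adjoin.powerBasis hint, ?_, ?_⟩
  · rw [IntermediateField.adjoin.powerBasis_gen, ← ho]
    exact (orderOf_injective ((IntermediateField.adjoin K {ζ}).val :
      IntermediateField.adjoin K {ζ} →* AlgebraicClosure K) (RingHom.injective _)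
      (IntermediateField.AdjoinSimple.gen K ζ)).symm
  · rw [IntermediateField.adjoin.powerBasis_dim]
    set μ := minpoly (ZMod p) (g : GaloisField p m) with hμ
    have hμm : μ.Monic := minpoly.monic (Algebra.IsIntegral.isIntegral _)
    have hμd : μ.natDegree ≤ m := by
      refine (minpoly.natDegree_le (g : GaloisField p m)).trans ?_
      rw [GaloisField.finrank p hm.ne']
    have h0 : aeval ζ (μ.map (zm p K)) = 0 := by
      have e1 : (algebraMap K (AlgebraicClosure K)).comp (zm p K) =
          algebraMap (ZMod p) (AlgebraicClosure K) := RingHom.ext_zmod _ _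
      rw [aeval_def, eval₂_map, e1, ← aeval_def, hζ, aeval_algHom_apply, hμ, minpoly.aeval,
        map_zero]
    have h1 := minpoly.min K ζ (hμm.map (zm p K)) h0
    have h2 := natDegree_le_natDegree h1
    rw [hμm.natDegree_map] at h2
    exact h2.trans hμd

variable {p : ℕ} [hp : Fact p.Prime] {K : Type u} {Γ : Type w} [Field K]
  [LinearOrderedCommGroupWithZero Γ] {v : Valuation K Γ} {t : K}

/-- it is unramified of degree `m` -/
theorem unram (hE : Extremal v) [CharP K p] (ht : ZUnif v t) {L : Type z} [Field L]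
    [Algebra K L] [FiniteDimensional K L] {m : ℕ} (hm : 0 < m) {ζ : L}
    (hζ : orderOf ζ = p ^ m - 1) (hle : Module.finrank K L ≤ m) :
    Module.finrank K L = m ∧ ∀ y : L, y ≠ 0 → ∃ c : K, c ≠ 0 ∧ wv v y = v c ^ m := by
  classical
  have hU := unif_of_zunif p ht
  obtain ⟨f, g0, hf, hg0, hgood⟩ := good_exists (D := L) (p := p) hE ht
  have hgg : GoodGen v p f g0 := hgood g0 (by rw [sub_self, wv_zero]; exact zero_lt_one)
  obtain ⟨ζ', hζg, hζ'⟩ := root_exists hE ht hf hgg
  have hg : GoodGen v p f ζ' := hgood ζ' hζg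
  obtain ⟨h, e, π0, hh, he, hn, hπ00, hπ0v, hval0⟩ := exists_prime (D := L) (v := v) ht
  obtain ⟨hind, hspan⟩ := standard hE ht hf he hh hn hg hπ0v hval0
  let b : Module.Basis (Fin f × Fin e) K L := Module.Basis.mk hind (by
      intro x _
      obtain ⟨y, hy⟩ := hspan x
      rw [hy]
      exact Submodule.sum_mem _ fun k _ =>
        Submodule.smul_mem _ _ (Submodule.subset_span ⟨k, rfl⟩))
  have hdim : Module.finrank K L = f * e := by
    rw [Module.finrank_eq_card_basis b, Fintype.card_prod, Fintype.card_fin, Fintype.card_fin]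
  have h1 : wv v ζ = 1 := wv_root hm hζ
  obtain ⟨k, hk⟩ := hg.gen ζ h1
  have h2 : wv v (ζ ^ (p ^ f - 1) - 1) < 1 := by
    have h3 : ζ' ^ (p ^ f - 1) = 1 := zeta_pow (zeta_ne hg) (pow_pos hp.out.pos f) hζ'
    have h4 : (1 : L) = (ζ' ^ k) ^ (p ^ f - 1) := by
      rw [← pow_mul, mul_comm k, pow_mul, h3, one_pow]
    rw [h4]
    refine (wv_pow_sub_le hE hU ?_ h1.le _).trans_lt hk
    rw [wv_pow, hg.one, one_pow]
  have h3 : m ∣ f := dvd_of_pow_sub hp.out.two_le (red_inj hm hζ _ h2)
  have h4 : m ≤ f := Nat.le_of_dvd hf h3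
  have h5 : f ≤ f * e := Nat.le_mul_of_pos_right f he
  have hfm : f = m := by omega
  have hem : f * e = m := by omega
  have he1 : e = 1 := by
    rw [hfm] at hem
    exact Nat.eq_of_mul_eq_mul_left hm (by rw [hem, mul_one])
  refine ⟨hdim.trans hem, ?_⟩
  intro y hy
  obtain ⟨a, c, ha, hc, hac⟩ := hval0 y hy
  have ha0 : a = 0 := by omega
  refine ⟨c, hc, ?_⟩
  rw [hac, ha0, pow_zero, wv_smul, wv_one, mul_one, hdim, hem]

/-- the Frobenius automorphism -/
theorem exists_aut [CharP K p] {L : Type z} [Field L] [Algebra K L] (pb : PowerBasis K L)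
    {m : ℕ} (hm : 0 < m) (hζ : orderOf pb.gen = p ^ m - 1) (hd : pb.dim = m) (r : ℕ) :
    ∃ σ : L ≃ₐ[K] L, σ pb.gen = pb.gen ^ (p ^ r) := by
  classical
  have hfd : FiniteDimensional K L := pb.finite
  have hcL : CharP L p := charP_of_injective_algebraMap (algebraMap K L).injective p
  obtain ⟨ι, η, hι, hη⟩ := emb p hm hζ
  set μ := minpoly (ZMod p) η with hμ
  have hμm : μ.Monic := minpoly.monic (Algebra.IsIntegral.isIntegral _)
  have hμd : μ.natDegree ≤ m := by
    refine (minpoly.natDegree_le η).trans ?_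
    rw [GaloisField.finrank p hm.ne']
  have hev : ∀ x : GaloisField p m, aeval (ι x) (μ.map (zm p K)) = ι (aeval x μ) := by
    intro x
    have e1 : (algebraMap K L).comp (zm p K) =
        ι.comp (algebraMap (ZMod p) (GaloisField p m)) := RingHom.ext_zmod _ _
    rw [aeval_def, eval₂_map, e1, aeval_def, hom_eval₂]
  have h0 : aeval pb.gen (μ.map (zm p K)) = 0 := by
    rw [← hι, hev, hμ, minpoly.aeval, map_zero]
  have hmin : μ.map (zm p K) = minpoly K pb.gen := by
    apply eq_of_monic_of_dvd_of_natDegree_le (minpoly.monic pb.isIntegral_gen)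
      (hμm.map (zm p K)) (minpoly.dvd K _ h0)
    rw [hμm.natDegree_map, pb.natDegree_minpoly, hd]
    exact hμd
  have hfr : ∀ r : ℕ, aeval (η ^ (p ^ r)) μ = 0 := by
    intro r
    induction r with
    | zero => rw [pow_zero, pow_one, hμ, minpoly.aeval]
    | succ r ih =>
      have e2 : η ^ (p ^ (r + 1)) =
          FiniteField.frobeniusAlgHom (ZMod p) (GaloisField p m) (η ^ (p ^ r)) := by
        rw [FiniteField.frobeniusAlgHom_apply, ZMod.card, pow_succ, pow_mul]
      rw [e2, aeval_algHom_apply, ih, map_zero]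
  have h1 : aeval (pb.gen ^ (p ^ r)) (minpoly K pb.gen) = 0 := by
    rw [← hmin, ← hι, ← map_pow, hev, hfr, map_zero]
  refine ⟨AlgEquiv.ofBijective (pb.lift _ h1) (Algebra.IsAlgebraic.algHom_bijective _), ?_⟩
  exact pb.lift_gen _ h1

end Pool.Agent.Helper28.BR
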